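import Pool.Agent.BD46.Defs

/-!
Integrals of `log ‖Y‖` over discs: integrability of the logarithm of a meromorphic function and the
area mean value (in)equality.
-/

set_option autoImplicit false

open MeasureTheory Filter Topology Set Metric ValueDistribution

namespace BD46

open DW24 (near)

theorem abs_log_le_inv {x r : ℝ} (hx : 0 ≤ x) (hxr : x < r) :
    |Real.log x| ≤ (r ^ 2 + 1) * x ^ (-(1 : ℝ)) := by
  rcases hx.eq_or_lt with h0 | h0
  · subst h0
    simp only [Real.log_zero, abs_zero]
    positivity
  · rw [Real.rpow_neg_one]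
    have h1 : Real.log x ≤ x := (Real.log_le_sub_one_of_pos h0).trans (by linarith)
    have h2 : Real.log x⁻¹ ≤ x⁻¹ := (Real.log_le_sub_one_of_pos (inv_pos.2 h0)).trans (by linarith)
    rw [Real.log_inv] at h2
    have h3 : 0 < x⁻¹ := inv_pos.2 h0
    have h4 : x ≤ r ^ 2 * x⁻¹ := by
      rw [← div_eq_mul_inv, le_div_iff₀ h0]
      nlinarith
    rw [abs_le]
    constructor
    · have : 0 ≤ r ^ 2 * x⁻¹ := by positivity
      nlinarith
    · nlinarith

theorem integrableOn_log_zero (r : ℝ) :
    IntegrableOn (fun w : ℂ => Real.log ‖w‖) (ball 0 r) := by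
  refine integrableOn_ball_of_norm_le_rpow (E := ℂ) (C := r ^ 2 + 1) (α := 1)
    (by rw [Complex.finrank_real_complex]; norm_num)
    (by rw [Complex.finrank_real_complex]; norm_num) ?_ ?_
  · refine (ae_restrict_iff' measurableSet_ball).2 (Eventually.of_forall fun x hx => ?_)
    rw [Real.norm_eq_abs]
    exact abs_log_le_inv (norm_nonneg _) (mem_ball_zero_iff.1 hx)
  · exact (Real.measurable_log.comp measurable_norm).aestronglyMeasurable

theorem integrable_ind (r : ℝ) :
    Integrable ((ball (0 : ℂ) r).indicator (fun w : ℂ => Real.log ‖w‖)) :=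
  (integrable_indicator_iff measurableSet_ball).2 (integrableOn_log_zero r)

theorem mem_ball_big {u z w : ℂ} {R : ℝ} (hw : w ∈ closedBall z R) :
    w - u ∈ ball (0 : ℂ) (‖z - u‖ + |R| + 1) := by
  rw [mem_ball_zero_iff]
  have h1 : ‖w - z‖ ≤ R := by rwa [mem_closedBall, dist_eq_norm] at hw
  have h2 : ‖w - u‖ ≤ ‖w - z‖ + ‖z - u‖ := by
    have := norm_add_le (w - z) (z - u)
    rwa [sub_add_sub_cancel] at this
  have := le_abs_self R
  linarith

theorem integrableOn_log_sub (u z : ℂ) (R : ℝ) :
    IntegrableOn (fun w : ℂ => Real.log ‖w - u‖) (closedBall z R) := by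
  have h1 := ((integrable_ind (‖z - u‖ + |R| + 1)).comp_sub_right u).integrableOn (s := closedBall z R)
  refine h1.congr_fun (fun w hw => ?_) measurableSet_closedBall
  simp only
  rw [indicator_of_mem (mem_ball_big hw)]

theorem exists_log_const (R : ℝ) : ∃ C : ℝ, 0 ≤ C ∧ ∀ z u : ℂ, u ∈ closedBall z R →
    ∫ w in closedBall z R, |Real.log ‖w - u‖| ≤ C := by
  refine ⟨∫ w : ℂ, |(ball (0 : ℂ) (2 * |R| + 1)).indicator (fun w : ℂ => Real.log ‖w‖) w|,
    integral_nonneg fun _ => abs_nonneg _, fun z u hu => ?_⟩
  have hi := (integrable_ind (2 * |R| + 1)).abs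
  have e1 : ∫ w : ℂ, |(ball (0 : ℂ) (2 * |R| + 1)).indicator (fun w : ℂ => Real.log ‖w‖) w|
      = ∫ w : ℂ, |(ball (0 : ℂ) (2 * |R| + 1)).indicator (fun w : ℂ => Real.log ‖w‖) (w - u)| :=
    (integral_sub_right_eq_self
      (fun w : ℂ => |(ball (0 : ℂ) (2 * |R| + 1)).indicator (fun w : ℂ => Real.log ‖w‖) w|) u).symm
  rw [e1]
  have e2 : ∫ w in closedBall z R, |Real.log ‖w - u‖|
      = ∫ w in closedBall z R,
        |(ball (0 : ℂ) (2 * |R| + 1)).indicator (fun w : ℂ => Real.log ‖w‖) (w - u)| := by
    refine setIntegral_congr_fun measurableSet_closedBall fun w hw => ?_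
    have hm : w - u ∈ ball (0 : ℂ) (2 * |R| + 1) := by
      rw [mem_ball_zero_iff]
      have h1 : ‖w - z‖ ≤ R := by rwa [mem_closedBall, dist_eq_norm] at hw
      have h2 : ‖z - u‖ ≤ R := by rwa [mem_closedBall, dist_eq_norm, norm_sub_rev] at hu
      have h3 := norm_add_le (w - z) (z - u)
      rw [sub_add_sub_cancel] at h3
      have := le_abs_self R
      linarith
    rw [indicator_of_mem hm]
  rw [e2]
  exact setIntegral_le_integral (hi.comp_sub_right u) (Eventually.of_forall fun _ => abs_nonneg _)

/-- log of the modulus of a meromorphic function is integrable over a closed ball -/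
theorem integrableOn_log_mer {Y : ℂ → ℂ} {z : ℂ} {r : ℝ} (hY : MeromorphicOn Y (closedBall z r)) :
    IntegrableOn (fun w => Real.log ‖Y w‖) (closedBall z r) := by
  rcases lt_or_ge r 0 with hr | hr
  · rw [closedBall_eq_empty.2 hr]
    exact integrableOn_empty
  have hae := ae_restrict_le_codiscreteWithin (μ := (volume : Measure ℂ))
    (measurableSet_closedBall (x := z) (ε := r))
  by_cases t₀ : ∀ u : (closedBall z r), meromorphicOrderAt Y u ≠ ⊤
  · obtain ⟨g, h₁g, h₂g, h₃g⟩ := hY.extract_zeros_poles t₀
      ((MeromorphicOn.divisor Y (closedBall z r)).finiteSupport (isCompact_closedBall z r))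
    have h₄g := MeromorphicOn.extract_zeros_poles_log h₂g h₃g
    have hfin := ((MeromorphicOn.divisor Y (closedBall z r)).finiteSupport (isCompact_closedBall z r))
    refine Integrable.congr ?_ (hae h₄g.symm)
    have hA : IntegrableOn (∑ᶠ u, (fun w : ℂ => ((MeromorphicOn.divisor Y (closedBall z r)) u : ℝ)
        * Real.log ‖w - u‖)) (closedBall z r) := by
      rw [finsum_eq_sum_of_support_subset (s := hfin.toFinset) _ (by
        intro u hu
        simp only [Finite.coe_toFinset, Function.mem_support] at hu ⊢
        intro h0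
        apply hu
        rw [h0]
        ext w
        simp)]
      refine integrable_finsetSum' _ fun u _ => ?_
      exact (integrableOn_log_sub u z r).const_mul _
    have hB : IntegrableOn (fun w => Real.log ‖g w‖) (closedBall z r) := by
      refine ContinuousOn.integrableOn_compact (isCompact_closedBall z r) ?_
      refine ContinuousOn.log h₁g.continuousOn.norm fun w hw => ?_
      rw [ne_eq, norm_eq_zero]
      exact h₂g ⟨w, hw⟩
    exact Integrable.add hA hB
  · rw [← hY.exists_meromorphicOrderAt_ne_top_iff_forall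
      ⟨⟨z, mem_closedBall_self hr⟩, (convex_closedBall z r).isPreconnected⟩] at t₀
    push Not at t₀
    have h0 : (fun w => Real.log ‖Y w‖) =ᶠ[codiscreteWithin (closedBall z r)] 0 := by
      filter_upwards [hY.meromorphicNFAt_mem_codiscreteWithin,
        Filter.self_mem_codiscreteWithin (closedBall z r)] with x h₁x h₂x
      simp only [Pi.zero_apply, Real.log_eq_zero, norm_eq_zero]
      left
      by_contra hCon
      simp_all [← h₁x.meromorphicOrderAt_eq_zero_iff, t₀ ⟨x, h₂x⟩]
    exact Integrable.congr (integrable_zero _ _ _) (hae h0.symm)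

theorem integrableOn_polar {G : ℂ → ℝ} (hG : Integrable G) :
    IntegrableOn (fun p : ℝ × ℝ => p.1 * G (Complex.polarCoord.symm p)) polarCoord.target := by
  have h1 : Integrable (fun p : ℝ × ℝ => G (Complex.measurableEquivRealProd.symm p)) :=
    (Complex.volume_preserving_equiv_real_prod.symm.integrable_comp_emb
      Complex.measurableEquivRealProd.symm.measurableEmbedding).2 hG
  have h2 := (integrableOn_image_iff_integrableOn_abs_det_fderiv_smul
    (volume : Measure (ℝ × ℝ)) (s := polarCoord.target) (f := polarCoord.symm)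
    (f' := fderivPolarCoordSymm) polarCoord.open_target.measurableSet
    (fun p _ ↦ (hasFDerivAt_polarCoord_symm p).hasFDerivWithinAt) polarCoord.symm.injOn
    (fun p : ℝ × ℝ => G (Complex.measurableEquivRealProd.symm p))).1 h1.integrableOn
  refine h2.congr_fun (fun p hp => ?_) polarCoord.open_target.measurableSet
  simp only [det_fderivPolarCoordSymm, smul_eq_mul]
  rw [abs_of_pos hp.1, Complex.measurableEquivRealProd_symm_polarCoord_symm_apply]

theorem circleMap_polar (z : ℂ) (s θ : ℝ) :
    z + Complex.polarCoord.symm (s, θ) = circleMap z s θ := by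
  rw [Complex.polarCoord_symm_apply, circleMap, Complex.exp_mul_I]
  push_cast
  ring

theorem circleAverage_Ioo (g : ℂ → ℝ) (z : ℂ) (s : ℝ) :
    ∫ θ in Ioo (-Real.pi) Real.pi, g (circleMap z s θ) = 2 * Real.pi * Real.circleAverage g z s := by
  have hpi := Real.pi_pos
  rw [Real.circleAverage_eq_integral_add (-Real.pi),
    intervalIntegral.integral_comp_add_right (fun θ => g (circleMap z s θ)) (-Real.pi),
    zero_add, show 2 * Real.pi + -Real.pi = Real.pi by ring,
    intervalIntegral.integral_of_le (by linarith), integral_Ioc_eq_integral_Ioo, smul_eq_mul,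
    ← mul_assoc, mul_inv_cancel₀ (by positivity), one_mul]

/-- polar coordinates on a disc -/
theorem polar_ball {g : ℂ → ℝ} {z : ℂ} {r : ℝ} (hg : IntegrableOn g (closedBall z r)) :
    IntegrableOn (fun s => s * (2 * Real.pi * Real.circleAverage g z s)) (Ioc 0 r) ∧
    ∫ w in closedBall z r, g w
      = ∫ s in Ioc 0 r, s * (2 * Real.pi * Real.circleAverage g z s) := by
  have hGi : Integrable ((closedBall z r).indicator g) :=
    (integrable_indicator_iff measurableSet_closedBall).2 hg
  have hGz : Integrable (fun w => (closedBall z r).indicator g (z + w)) := hGi.comp_add_left z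
  have hP := integrableOn_polar hGz
  have hI : ∫ w in closedBall z r, g w
      = ∫ p in polarCoord.target,
        p.1 * (closedBall z r).indicator g (z + Complex.polarCoord.symm p) := by
    rw [← integral_indicator measurableSet_closedBall,
      ← integral_add_left_eq_self (fun w => (closedBall z r).indicator g w) z,
      ← Complex.integral_comp_polarCoord_symm (fun w => (closedBall z r).indicator g (z + w))]
    simp only [smul_eq_mul]
  have hmem : ∀ s : ℝ, 0 < s → ∀ θ : ℝ, (z + Complex.polarCoord.symm (s, θ) ∈ closedBall z r ↔ s ≤ r) := by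
    intro s hs θ
    rw [mem_closedBall, dist_eq_norm, add_sub_cancel_left, Complex.norm_polarCoord_symm, abs_of_pos hs]
  have hval : ∀ s : ℝ, 0 < s → ∫ θ in Ioo (-Real.pi) Real.pi,
      s * (closedBall z r).indicator g (z + Complex.polarCoord.symm (s, θ))
      = (Ioc 0 r).indicator (fun s => s * (2 * Real.pi * Real.circleAverage g z s)) s := by
    intro s hs
    by_cases hsr : s ≤ r
    · rw [indicator_of_mem (show s ∈ Ioc 0 r from ⟨hs, hsr⟩)]
      rw [← circleAverage_Ioo, ← integral_const_mul]
      refine setIntegral_congr_fun measurableSet_Ioo fun θ _ => ?_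
      rw [indicator_of_mem ((hmem s hs θ).2 hsr), circleMap_polar]
    · rw [indicator_of_notMem (fun h : s ∈ Ioc 0 r => hsr h.2)]
      rw [← integral_zero ℝ ℝ (μ := volume.restrict (Ioo (-Real.pi) Real.pi))]
      refine setIntegral_congr_fun measurableSet_Ioo fun θ _ => ?_
      rw [indicator_of_notMem (fun h => hsr ((hmem s hs θ).1 h)), mul_zero]
  have hP' : Integrable (fun p : ℝ × ℝ => p.1 * (closedBall z r).indicator g
      (z + Complex.polarCoord.symm p))
      ((volume.restrict (Ioi (0 : ℝ))).prod (volume.restrict (Ioo (-Real.pi) Real.pi))) := by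
    rw [Measure.prod_restrict]
    exact hP
  have hs := hP'.integral_prod_left
  have hcongr : (fun s : ℝ => ∫ θ in Ioo (-Real.pi) Real.pi,
      s * (closedBall z r).indicator g (z + Complex.polarCoord.symm (s, θ)))
      =ᵐ[volume.restrict (Ioi (0 : ℝ))]
      (Ioc 0 r).indicator (fun s => s * (2 * Real.pi * Real.circleAverage g z s)) :=
    (ae_restrict_iff' measurableSet_Ioi).2 (Eventually.of_forall fun s hs => hval s hs)
  have hs' := hs.congr hcongr
  have hsub : (Ioc (0 : ℝ) r) ∩ Ioi 0 = Ioc 0 r := inter_eq_left.2 fun s hs => hs.1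
  refine ⟨?_, ?_⟩
  · rw [integrable_indicator_iff measurableSet_Ioc, IntegrableOn,
      Measure.restrict_restrict measurableSet_Ioc, hsub] at hs'
    exact hs'
  · rw [hI]
    have e1 : ∫ p in polarCoord.target,
        p.1 * (closedBall z r).indicator g (z + Complex.polarCoord.symm p)
        = ∫ s in Ioi (0 : ℝ), ∫ θ in Ioo (-Real.pi) Real.pi,
          s * (closedBall z r).indicator g (z + Complex.polarCoord.symm (s, θ)) := by
      have := integral_prod _ hP'
      rw [Measure.prod_restrict] at this
      exact this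
    rw [e1, integral_congr_ae hcongr, integral_indicator measurableSet_Ioc,
      Measure.restrict_restrict measurableSet_Ioc, hsub]

theorem int_const {r a : ℝ} (hr : 0 < r) :
    ∫ s in Ioc 0 r, s * (2 * Real.pi * a) = Real.pi * r ^ 2 * a := by
  rw [integral_mul_const, ← intervalIntegral.integral_of_le hr.le, integral_id]
  ring

/-- area sub-mean value inequality -/
theorem area_submean {Y : ℂ → ℂ} {z : ℂ} {r : ℝ} (hr : 0 < r)
    (hY : AnalyticOnNhd ℂ Y (closedBall z r)) (h0 : Y z ≠ 0) :
    Real.pi * r ^ 2 * Real.log ‖Y z‖ ≤ ∫ w in closedBall z r, Real.log ‖Y w‖ := by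
  obtain ⟨hi, he⟩ := polar_ball (g := fun w => Real.log ‖Y w‖) (integrableOn_log_mer hY.meromorphicOn)
  rw [he, ← int_const hr]
  have hpi := Real.pi_pos
  refine setIntegral_mono_on ?_ hi measurableSet_Ioc fun s hs => ?_
  · exact (Continuous.integrableOn_Icc (by fun_prop)).mono_set Ioc_subset_Icc_self
  · refine mul_le_mul_of_nonneg_left ?_ hs.1.le
    refine mul_le_mul_of_nonneg_left ?_ (by positivity)
    exact DW24.submean_log hs.1 (hY.mono (closedBall_subset_closedBall hs.2)) h0

/-- area mean value equality for zero free functions -/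
theorem area_mean {Y : ℂ → ℂ} {z : ℂ} {r : ℝ} (hr : 0 < r)
    (hY : AnalyticOnNhd ℂ Y (closedBall z r)) (h0 : ∀ w ∈ closedBall z r, Y w ≠ 0) :
    ∫ w in closedBall z r, Real.log ‖Y w‖ = Real.pi * r ^ 2 * Real.log ‖Y z‖ := by
  obtain ⟨-, he⟩ := polar_ball (g := fun w => Real.log ‖Y w‖) (integrableOn_log_mer hY.meromorphicOn)
  rw [he, ← int_const hr]
  refine setIntegral_congr_fun measurableSet_Ioc fun s hs => ?_
  have hsub : closedBall z |s| ⊆ closedBall z r := by
    rw [abs_of_pos hs.1]
    exact closedBall_subset_closedBall hs.2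
  rw [AnalyticOnNhd.circleAverage_log_norm_of_ne_zero (hY.mono hsub) fun w hw => h0 w (hsub hw)]

end BD46
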