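import Pool.Agent.BD46.Area

/-!
The rotated logarithmic chart `lc f r α ζ = f (r e^{iα} e^ζ)`.
-/

set_option autoImplicit false

open MeasureTheory Filter Topology Set Metric ValueDistribution

namespace BD46

open DW24 (near)

/-- the rotated logarithmic chart -/
noncomputable def lc (f : ℂ → ℂ) (r α : ℝ) (ζ : ℂ) : ℂ := f ((r : ℂ) * Complex.exp (α * Complex.I) * Complex.exp ζ)

theorem chart_analyticAt (r α : ℝ) (ζ : ℂ) :
    AnalyticAt ℂ (fun ζ : ℂ => (r : ℂ) * Complex.exp (α * Complex.I) * Complex.exp ζ) ζ := by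
  have h : Differentiable ℂ (fun ζ : ℂ => (r : ℂ) * Complex.exp (α * Complex.I) * Complex.exp ζ) := by
    fun_prop
  exact h.analyticAt ζ

theorem chart_deriv_ne {r : ℝ} (hr : 0 < r) (α : ℝ) (ζ : ℂ) :
    deriv (fun ζ : ℂ => (r : ℂ) * Complex.exp (α * Complex.I) * Complex.exp ζ) ζ ≠ 0 := by
  have h : HasDerivAt (fun ζ : ℂ => (r : ℂ) * Complex.exp (α * Complex.I) * Complex.exp ζ)
      ((r : ℂ) * Complex.exp (α * Complex.I) * Complex.exp ζ) ζ :=
    (Complex.hasDerivAt_exp ζ).const_mul _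
  rw [h.deriv]
  have h1 : (r : ℂ) ≠ 0 := by exact_mod_cast hr.ne'
  exact mul_ne_zero (mul_ne_zero h1 (Complex.exp_ne_zero _)) (Complex.exp_ne_zero _)

theorem lc_mer {f : ℂ → ℂ} (hf : Meromorphic f) (r α : ℝ) : Meromorphic (lc f r α) := fun ζ =>
  (hf _).comp_analyticAt (chart_analyticAt r α ζ)

/-- multiplicities in the chart -/
theorem mult_lc {f : ℂ → ℂ} (_hf : Meromorphic f) {r : ℝ} (hr : 0 < r) (α : ℝ) (c : WithTop ℂ) (ζ : ℂ) :
    mult (lc f r α) c ζ = mult f c ((r : ℂ) * Complex.exp (α * Complex.I) * Complex.exp ζ) := by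
  cases c with
  | top =>
    rw [mult_top, mult_top]
    have h := meromorphicOrderAt_comp_of_deriv_ne_zero (f := f) (chart_analyticAt r α ζ)
      (chart_deriv_ne hr α ζ)
    have e : (f ∘ fun ζ : ℂ => (r : ℂ) * Complex.exp (α * Complex.I) * Complex.exp ζ) = lc f r α := rfl
    rw [e] at h
    rw [h]
  | coe c =>
    rw [mult_coe, mult_coe]
    have h := meromorphicOrderAt_comp_of_deriv_ne_zero (f := fun w => f w - c) (chart_analyticAt r α ζ)
      (chart_deriv_ne hr α ζ)
    have e : ((fun w => f w - c) ∘ fun ζ : ℂ => (r : ℂ) * Complex.exp (α * Complex.I) * Complex.exp ζ)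
      = fun w => lc f r α w - c := rfl
    rw [e] at h
    rw [h]

theorem chart_inj {r : ℝ} (hr : 0 < r) (α : ℝ) {z₀ : ℂ} {R : ℝ} (hR : R < Real.pi) {z w : ℂ}
    (hz : z ∈ closedBall z₀ R) (hw : w ∈ closedBall z₀ R)
    (h : (r : ℂ) * Complex.exp (α * Complex.I) * Complex.exp z
      = (r : ℂ) * Complex.exp (α * Complex.I) * Complex.exp w) : z = w := by
  have h1 : (r : ℂ) ≠ 0 := by exact_mod_cast hr.ne'
  have h2 := mul_left_cancel₀ (mul_ne_zero h1 (Complex.exp_ne_zero _)) h
  obtain ⟨n, hn⟩ := Complex.exp_eq_exp_iff_exists_int.1 h2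
  have h3 : ‖z - w‖ < 2 * Real.pi := by
    have e1 : ‖z - z₀‖ ≤ R := by rwa [mem_closedBall, dist_eq_norm] at hz
    have e2 : ‖z₀ - w‖ ≤ R := by rwa [mem_closedBall, dist_eq_norm, norm_sub_rev] at hw
    have e3 := norm_add_le (z - z₀) (z₀ - w)
    rw [sub_add_sub_cancel] at e3
    linarith
  have h4 : z - w = n * (2 * Real.pi * Complex.I) := by rw [hn]; ring
  have hpi := Real.pi_pos
  have h5 : ‖z - w‖ = |(n : ℝ)| * (2 * Real.pi) := by
    rw [h4, norm_mul, norm_mul, norm_mul, Complex.norm_I, mul_one, Complex.norm_real,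
      Real.norm_of_nonneg hpi.le, Complex.norm_ofNat]
    congr 1
    rw [← Complex.norm_intCast]
  rw [h5] at h3
  have h6 : |(n : ℝ)| < 1 := by
    by_contra hcon
    push Not at hcon
    nlinarith
  have h7 : n = 0 := by
    have : |n| < 1 := by exact_mod_cast h6
    exact Int.abs_lt_one_iff.1 this
  rw [hn, h7]
  simp

/-- number of `c`-points in the chart -/
theorem cnt_lc_le {f : ℂ → ℂ} (hf : Meromorphic f) {r : ℝ} (hr : 0 < r) (α : ℝ) (c : WithTop ℂ)
    {z₀ : ℂ} {R : ℝ} (hR : R < Real.pi) {E : Set ℂ}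
    (hE : ∀ ζ ∈ closedBall z₀ R, (r : ℂ) * Complex.exp (α * Complex.I) * Complex.exp ζ ∈ E) :
    cnt (lc f r α) c (closedBall z₀ R) ≤ cnt f c E := by
  unfold cnt
  have hinj : Function.Injective (fun z : closedBall z₀ R =>
      (⟨(r : ℂ) * Complex.exp (α * Complex.I) * Complex.exp z, hE z z.2⟩ : E)) := by
    rintro ⟨z, hz⟩ ⟨w, hw⟩ h
    simp only [Subtype.mk.injEq] at h
    exact Subtype.ext (chart_inj hr α hR hz hw h)
  have h2 := ENNReal.tsum_comp_le_tsum_of_injective hinj (fun w : E => (mult f c w : ENNReal))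
  refine le_trans (le_of_eq ?_) h2
  refine tsum_congr fun z => ?_
  rw [mult_lc hf hr]

theorem near_lc (f : ℂ → ℂ) {r : ℝ} (hr : 0 < r) (α : ℝ) (c : WithTop ℂ) (z : ℂ) :
    near (lc f r α) c z = near f c (DW24.pt (Real.log r + z.re) (α + z.im)) := by
  have e : (r : ℂ) * Complex.exp (α * Complex.I) * Complex.exp z
      = DW24.pt (Real.log r + z.re) (α + z.im) := by
    unfold DW24.pt
    have h1 : (r : ℂ) = Complex.exp (Real.log r) := by
      rw [← Complex.ofReal_exp, Real.exp_log hr]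
    conv_lhs => rw [h1, ← Complex.exp_add, ← Complex.exp_add]
    congr 1
    conv_lhs => rw [← Complex.re_add_im z]
    push_cast
    ring
  cases c with
  | top => rw [DW24.near_top, DW24.near_top, lc, e]
  | coe c => rw [DW24.near_coe, DW24.near_coe, lc, e]

theorem mass_aux {f : ℂ → ℂ} (hf : Meromorphic f) (c : WithTop ℂ) {r : ℝ} (hr : 0 < r) (α : ℝ)
    (z₀ : ℂ) {R : ℝ} (hRπ : R < Real.pi) {B : ℝ}
    (hB : ∀ x ∈ Ioo (Real.log r + z₀.re - Real.pi) (Real.log r + z₀.re + Real.pi),
      proximity f c (Real.exp x) ≤ B) :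
    ∫ z in closedBall z₀ R, near (lc f r α) c z ≤ 2 * Real.pi * B * (2 * Real.pi) := by
  have hpi := Real.pi_pos
  set a : ℝ := Real.log r + z₀.re with ha
  set b : ℝ := α + z₀.im with hb
  set G : ℝ × ℝ → ℝ := fun p => near f c (DW24.pt p.1 p.2) with hG
  set W : ℂ → ℝ × ℝ := fun z => Complex.measurableEquivRealProd z + (Real.log r, α) with hW
  have hWmp : MeasurePreserving W volume volume :=
    (measurePreserving_add_right (volume : Measure (ℝ × ℝ)) (Real.log r, α)).comp
      Complex.volume_preserving_equiv_real_prod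
  have hWme : MeasurableEmbedding W :=
    (MeasurableEquiv.addRight ((Real.log r, α) : ℝ × ℝ)).measurableEmbedding.comp
      Complex.measurableEquivRealProd.measurableEmbedding
  have hWv : ∀ z, W z = (Real.log r + z.re, α + z.im) := by
    intro z
    simp only [hW, Complex.measurableEquivRealProd_apply, Prod.mk_add_mk]
    rw [add_comm z.re, add_comm z.im]
  have hGW : ∀ z, near (lc f r α) c z = G (W z) := by
    intro z
    rw [hWv, near_lc f hr]
  set S : Set (ℝ × ℝ) := Ioo (a - Real.pi) (a + Real.pi) ×ˢ Ioo (b - Real.pi) (b + Real.pi) with hS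
  have hGi : IntegrableOn G S := DW24.strip_near hf c _ _ _ _
  have hsub : closedBall z₀ R ⊆ W ⁻¹' S := by
    intro z hz
    have h1 : ‖z - z₀‖ < Real.pi := by
      have : ‖z - z₀‖ ≤ R := by rwa [mem_closedBall, dist_eq_norm] at hz
      linarith
    have h2 := abs_lt.1 ((Complex.abs_re_le_norm (z - z₀)).trans_lt h1)
    have h3 := abs_lt.1 ((Complex.abs_im_le_norm (z - z₀)).trans_lt h1)
    rw [Complex.sub_re] at h2
    rw [Complex.sub_im] at h3
    rw [mem_preimage, hWv, hS, mem_prod]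
    refine ⟨⟨?_, ?_⟩, ⟨?_, ?_⟩⟩ <;> simp only [ha, hb] <;> linarith [h2.1, h2.2, h3.1, h3.2]
  have hGWi : IntegrableOn (fun z => G (W z)) (W ⁻¹' S) :=
    (hWmp.integrableOn_comp_preimage hWme).2 hGi
  have e1 : ∫ z in closedBall z₀ R, near (lc f r α) c z ≤ ∫ p in S, G p := by
    rw [← hWmp.setIntegral_preimage_emb hWme G S]
    simp only [hGW]
    exact setIntegral_mono_set hGWi (Eventually.of_forall fun z => DW24.near_nonneg _ _ _)
      (LE.le.eventuallyLE hsub)
  refine e1.trans ?_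
  have e2 : ∫ p in S, G p = ∫ x in Ioo (a - Real.pi) (a + Real.pi),
      ∫ θ in Ioo (b - Real.pi) (b + Real.pi), near f c (DW24.pt x θ) :=
    setIntegral_prod G hGi
  have e3 : ∀ x : ℝ, ∫ θ in Ioo (b - Real.pi) (b + Real.pi), near f c (DW24.pt x θ)
      = 2 * Real.pi * proximity f c (Real.exp x) := by
    intro x
    rw [← integral_Ioc_eq_integral_Ioo, ← intervalIntegral.integral_of_le (by linarith),
      DW24.proximity_eq, ← DW24.int_pt]
    have hper : Function.Periodic (fun θ => near f c (DW24.pt x θ)) (2 * Real.pi) := fun θ => by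
      simp only
      rw [DW24.pt_per x θ]
    have := hper.intervalIntegral_add_eq (b - Real.pi) 0
    rw [zero_add, show b - Real.pi + 2 * Real.pi = b + Real.pi by ring] at this
    exact this
  rw [e2]
  simp only [e3]
  have h4 := norm_setIntegral_le_of_norm_le_const (μ := (volume : Measure ℝ))
    (s := Ioo (a - Real.pi) (a + Real.pi)) (f := fun x => 2 * Real.pi * proximity f c (Real.exp x))
    (C := 2 * Real.pi * B) (by rw [Real.volume_Ioo]; exact ENNReal.ofReal_lt_top) ?_
  · have h5 := (le_abs_self _).trans h4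
    rw [Real.volume_real_Ioo_of_le (by linarith)] at h5
    refine h5.trans (le_of_eq ?_)
    ring
  · intro x hx
    rw [Real.norm_of_nonneg (mul_nonneg (by positivity) (proximity_nonneg _))]
    exact mul_le_mul_of_nonneg_left (hB x hx) (by positivity)

/-- the mass of `near` over a ball in the chart is `O(T)` near peaks -/
theorem mass_lc_le {f : ℂ → ℂ} (hf : Meromorphic f) {ρ : ℝ} (hρ : 0 < ρ) {r : ℕ → ℝ}
    (hr : DW24.Peaks (characteristic f ⊤) ρ r) (α : ℕ → ℝ) (c : WithTop ℂ) (z₀ : ℂ) {R : ℝ}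
    (_hR : 0 < R) (hRπ : R < Real.pi) :
    ∃ C : ℝ, ∀ᶠ n in atTop, ∫ z in closedBall z₀ R, near (lc f (r n) (α n)) c z
      ≤ C * characteristic f ⊤ (r n) := by
  have hT := DW24.T_tendsto_of_peaks hf hρ hr
  obtain ⟨hr1, hr2, C, hC⟩ := hr
  obtain ⟨C₀, hC₀, hprox⟩ := DW24.proximity_le hf c
  have hmono := DW24.mono_T' hf
  set L : ℝ := |z₀.re| + Real.pi with hL
  have hL0 : 0 ≤ L := by have := Real.pi_pos; positivity
  refine ⟨2 * Real.pi * (C * Real.exp (ρ * L) + C₀) * (2 * Real.pi), ?_⟩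
  filter_upwards [hC (Real.exp L) (Real.one_le_exp hL0), hr1.eventually_gt_atTop 0,
    hr1.eventually_ge_atTop (Real.exp L), (hT.comp hr1).eventually_ge_atTop 1] with n h1 h2 h3 h4
  simp only [Function.comp] at h4
  have hlog : L ≤ Real.log (r n) := by
    rw [Real.le_log_iff_exp_le h2]; exact h3
  have h5 := mass_aux hf c h2 (α n) z₀ hRπ (B := (C * Real.exp (ρ * L) + C₀) * characteristic f ⊤ (r n)) ?_
  · refine h5.trans (le_of_eq ?_)
    ring
  · intro x hx
    have h6 : 0 ≤ x := by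
      have := neg_abs_le z₀.re
      have := hx.1
      linarith
    have h7 : x ≤ Real.log (r n) + L := by
      have := le_abs_self z₀.re
      have := hx.2
      linarith
    have h8 := hprox (Real.exp x) (Real.one_le_exp h6)
    have h9 : characteristic f ⊤ (Real.exp x) ≤ characteristic f ⊤ (Real.exp (Real.log (r n) + L)) :=
      hmono h7
    have h10 : Real.exp (Real.log (r n) + L) = Real.exp L * r n := by
      rw [Real.exp_add, Real.exp_log h2, mul_comm]
    rw [h10] at h9
    have h11 := h1 (Real.exp L * r n) ⟨by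
      have e1 : r n / Real.exp L ≤ r n := div_le_self h2.le (Real.one_le_exp hL0)
      have e2 : r n ≤ Real.exp L * r n := le_mul_of_one_le_left h2.le (Real.one_le_exp hL0)
      exact e1.trans e2, le_rfl⟩
    have h12 : (Real.exp L * r n / r n) ^ ρ = Real.exp (ρ * L) := by
      rw [mul_div_cancel_right₀ _ h2.ne', ← Real.exp_mul, mul_comm]
    rw [h12] at h11
    nlinarith

end BD46
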