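import Pool.Agent.BD46.Loc3
import Pool.Agent.BD46.Cov

/-!
Spiral sectors, good directions, and the connectedness argument.
-/

set_option autoImplicit false

open MeasureTheory Filter Topology Set Metric ValueDistribution

namespace BD46

open DW24 (near cst vv)

/-- The points `r exp (x + i (α + ψ + s x))` with `|x| < h` and `|ψ - φ| < δ`: the part in
`e^(-h) r < |z| < e^h r` of a sector bounded by logarithmic spirals of pitch `s`, seen from the
frame which is rotated by `α`. -/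
def W (r α s φ δ h : ℝ) : Set ℂ :=
  {z | ∃ x ψ : ℝ, |x| < h ∧ |ψ - φ| < δ ∧ z = circleMap 0 (r * Real.exp x) (α + ψ + s * x)}

/-- Some spiral sector around the direction `φ` contains, near the radii `r n`, only
`o(T (r n))` points at which `f` takes one of three values. -/
def Good (f : ℂ → ℂ) (r α σ : ℕ → ℝ) (φ : ℝ) : Prop :=
  ∃ δ : ℝ, 0 < δ ∧ ∃ A : Fin 3 → WithTop ℂ, Function.Injective A ∧ ∀ j, ∀ h : ℝ, 0 < h →
    Tendsto (fun n => cnt f (A j) (W (r n) (α n) (σ n) φ δ h) /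
      ENNReal.ofReal (characteristic f ⊤ (r n))) atTop (𝓝 0)

/-- the rotated charts -/
noncomputable def Fn (f : ℂ → ℂ) (r α : ℕ → ℝ) (n : ℕ) : ℂ → ℂ :=
  lc f (Real.exp (Real.log (r n))) (α n)

lemma W_mono {r α s φ φ' δ δ' h : ℝ} (hd : |φ' - φ| + δ' ≤ δ) : W r α s φ' δ' h ⊆ W r α s φ δ h := by
  rintro z ⟨t, ψ, h1, h3, h4⟩
  refine ⟨t, ψ, h1, ?_, h4⟩
  have : |ψ - φ| ≤ |ψ - φ'| + |φ' - φ| := by
    have := abs_add_le (ψ - φ') (φ' - φ)
    rwa [sub_add_sub_cancel] at this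
  linarith

lemma cnt_mono {f : ℂ → ℂ} {a : WithTop ℂ} {E E' : Set ℂ} (h : E ⊆ E') : cnt f a E ≤ cnt f a E' := by
  unfold cnt
  exact ENNReal.tsum_mono_subtype (fun z => (mult f a z : ENNReal)) h

lemma good_open {f : ℂ → ℂ} {r α σ : ℕ → ℝ} {φ : ℝ} (h : Good f r α σ φ) :
    ∃ δ : ℝ, 0 < δ ∧ ∀ φ' : ℝ, |φ' - φ| ≤ δ → Good f r α σ φ' := by
  obtain ⟨δ, hδ, A, hA, h1⟩ := h
  refine ⟨δ / 2, half_pos hδ, fun φ' hφ' => ⟨δ / 2, half_pos hδ, A, hA, fun j R hR => ?_⟩⟩
  refine tendsto_of_tendsto_of_tendsto_of_le_of_le tendsto_const_nhds (h1 j R hR)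
    (fun _ => zero_le) (fun n => ?_)
  exact ENNReal.div_le_div_right (cnt_mono (W_mono (by linarith))) _

lemma isOpen_good (f : ℂ → ℂ) (r α σ : ℕ → ℝ) : IsOpen {φ | Good f r α σ φ} := by
  rw [Metric.isOpen_iff]
  intro φ hφ
  obtain ⟨δ, hδ, h⟩ := good_open hφ
  exact ⟨δ, hδ, fun φ' hφ' => h φ' (by
    have := mem_ball.1 hφ'
    rw [Real.dist_eq] at this
    exact this.le)⟩

lemma Fn_mer {f : ℂ → ℂ} (hf : Meromorphic f) (r α : ℕ → ℝ) (n : ℕ) : Meromorphic (Fn f r α n) :=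
  lc_mer hf _ _

lemma lc_ne {f : ℂ → ℂ} (hf : Meromorphic f) (hne : ∀ c : ℂ, ∀ᶠ z in codiscrete ℂ, f z ≠ c)
    {r : ℝ} (hr : 0 < r) (α : ℝ) (c : ℂ) : ∀ᶠ z in codiscrete ℂ, lc f r α z ≠ c := by
  have hg : Meromorphic (fun z => lc f r α z - c) := (lc_mer hf r α).sub (Meromorphic.const c)
  have hgU : MeromorphicOn (fun z => lc f r α z - c) univ := fun z _ => hg z
  have h1 : ∀ u ∈ (univ : Set ℂ), meromorphicOrderAt (fun z => lc f r α z - c) u ≠ ⊤ := by
    intro u _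
    have e : (fun z => lc f r α z - c) = (fun w => f w - c) ∘
        (fun ζ : ℂ => (r : ℂ) * Complex.exp (α * Complex.I) * Complex.exp ζ) := by
      funext z; rfl
    rw [e, meromorphicOrderAt_comp_of_deriv_ne_zero (chart_analyticAt r α u) (chart_deriv_ne hr α u)]
    exact order_ne_top hne c _
  have := hgU.eventually_codiscreteWithin_apply_ne_zero h1
  filter_upwards [this] with z hz
  exact fun he => hz (by rw [he, sub_self])

/-- near a good direction the local lemma applies -/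
theorem local_at {f : ℂ → ℂ} (hf : Meromorphic f) {ρ : ℝ} (hρ : 0 < ρ) {r : ℕ → ℝ}
    (hr : DW24.Peaks (characteristic f ⊤) ρ r) (α σ : ℕ → ℝ) (𝒰 : Ultrafilter ℕ)
    (h𝒰 : (𝒰 : Filter ℕ) ≤ atTop) {s : ℝ} (hs : Tendsto σ 𝒰 (𝓝 s))
    {z : ℂ} (hz : Good f r α σ (z.im - s * z.re)) :
    ∃ u : ℝ, 0 < u ∧
      (∀ c, ¬ Zero 𝒰 (Fn f r α) (fun n => characteristic f ⊤ (r n)) c (closedBall z u) →
        ∀ z' ∈ ball z u, ∀ ρ' : ℝ, 0 < ρ' →
          ¬ Zero 𝒰 (Fn f r α) (fun n => characteristic f ⊤ (r n)) c (closedBall z' ρ')) ∧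
      (∀ c c' : WithTop ℂ, c ≠ c' →
        Zero 𝒰 (Fn f r α) (fun n => characteristic f ⊤ (r n)) c (closedBall z u) ∨
          Zero 𝒰 (Fn f r α) (fun n => characteristic f ⊤ (r n)) c' (closedBall z u)) := by
  have hT := DW24.T_tendsto_of_peaks hf hρ hr
  have hne := DW24.ne_codiscrete hf hT
  obtain ⟨δ, hδ, A, hA, h1⟩ := hz
  set R : ℝ := min 1 (δ / (2 * (1 + |s|))) with hR
  have hs0 : 0 < 1 + |s| := by positivity
  have hR0 : 0 < R := lt_min one_pos (by positivity)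
  have hR1 : R ≤ 1 := min_le_left _ _
  have hRπ : R < Real.pi := by linarith [Real.pi_gt_three]
  have hRδ : (1 + |s|) * R ≤ δ / 2 := by
    have h2 : R ≤ δ / (2 * (1 + |s|)) := min_le_right _ _
    rw [le_div_iff₀ (by positivity)] at h2
    linarith
  set h' : ℝ := |z.re| + R + 1 with hh'
  have hh'0 : 0 < h' := by positivity
  have hrpos : ∀ᶠ n in (𝒰 : Filter ℕ), 0 < r n := h𝒰 (hr.1.eventually_gt_atTop 0)
  have hσ : ∀ᶠ n in (𝒰 : Filter ℕ), |σ n - s| < δ / 2 / h' := by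
    have := (Metric.tendsto_nhds.1 hs) (δ / 2 / h') (by positivity)
    filter_upwards [this] with n hn
    rwa [Real.dist_eq] at hn
  refine ⟨R / 8, by linarith, ?_⟩
  refine local_lemma hR0 𝒰 (Fn f r α) (Fn_mer hf r α) (fun n c => lc_ne hf hne (Real.exp_pos _) _ c)
    (fun n => characteristic f ⊤ (r n)) ((hT.comp hr.1).mono_left h𝒰) A hA ?_ ?_
  · intro j
    obtain ⟨C, hC⟩ := mass_lc_le hf hρ hr α (A j) z hR0 hRπ
    refine ⟨C, ?_⟩
    filter_upwards [h𝒰 hC, hrpos] with n hn hn2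
    unfold Fn
    rw [Real.exp_log hn2]
    exact hn
  · intro j
    refine tendsto_of_tendsto_of_tendsto_of_le_of_le' tendsto_const_nhds ((h1 j h' hh'0).mono_left h𝒰)
      (Eventually.of_forall fun _ => zero_le) ?_
    filter_upwards [hrpos, hσ] with n hn hnσ
    refine ENNReal.div_le_div_right ?_ _
    unfold Fn
    refine cnt_lc_le hf (Real.exp_pos _) _ _ hRπ ?_
    intro ζ hζ
    rw [Real.exp_log hn]
    have hd : ‖ζ - z‖ ≤ R := by
      rw [← dist_eq_norm]; exact hζ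
    have hre : |ζ.re - z.re| ≤ R := by
      have := Complex.abs_re_le_norm (ζ - z)
      rw [Complex.sub_re] at this
      linarith
    have him : |ζ.im - z.im| ≤ R := by
      have := Complex.abs_im_le_norm (ζ - z)
      rw [Complex.sub_im] at this
      linarith
    have hx : |ζ.re| < h' := by
      have := abs_add_le (ζ.re - z.re) z.re
      rw [sub_add_cancel] at this
      linarith
    refine ⟨ζ.re, ζ.im - σ n * ζ.re, hx, ?_, ?_⟩
    · have e : ζ.im - σ n * ζ.re - (z.im - s * z.re)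
          = (ζ.im - z.im) - s * (ζ.re - z.re) - (σ n - s) * ζ.re := by ring
      rw [e]
      have a1 : |(ζ.im - z.im) - s * (ζ.re - z.re)| ≤ R + |s| * R := by
        refine (abs_sub _ _).trans (add_le_add him ?_)
        rw [abs_mul]
        exact mul_le_mul_of_nonneg_left hre (abs_nonneg s)
      have a2 : |(σ n - s) * ζ.re| < δ / 2 := by
        rw [abs_mul]
        have h3 : |σ n - s| * h' < δ / 2 := by rwa [lt_div_iff₀ hh'0] at hnσ
        have h4 : |σ n - s| * |ζ.re| ≤ |σ n - s| * h' := mul_le_mul_of_nonneg_left hx.le (abs_nonneg _)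
        linarith
      refine lt_of_le_of_lt (abs_sub _ _) ?_
      linarith
    · rw [circleMap, zero_add]
      push_cast
      rw [mul_assoc ((r n : ℝ) : ℂ), mul_assoc ((r n : ℝ) : ℂ), ← Complex.exp_add, ← Complex.exp_add]
      congr 2
      conv_lhs => rw [show ζ = (ζ.re : ℂ) + ζ.im * Complex.I from (Complex.re_add_im ζ).symm]
      ring

lemma Zero.mono {f : ℂ → ℂ} (hf : Meromorphic f) {r α : ℕ → ℝ} {𝒰 : Filter ℕ} {T : ℕ → ℝ}
    (hT : ∀ᶠ n in 𝒰, 0 < T n) {c : WithTop ℂ} {z z' : ℂ} {u u' : ℝ}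
    (h : Zero 𝒰 (Fn f r α) T c (closedBall z u)) (hsub : closedBall z' u' ⊆ closedBall z u) :
    Zero 𝒰 (Fn f r α) T c (closedBall z' u') := by
  refine tendsto_of_tendsto_of_tendsto_of_le_of_le' tendsto_const_nhds h ?_ ?_
  · filter_upwards [hT] with n hn
    exact div_nonneg (integral_nonneg fun z => DW24.near_nonneg _ _ _) hn.le
  · filter_upwards [hT] with n hn
    refine div_le_div_of_nonneg_right (setIntegral_mono_set (near_integrableOn (fun z _ => Fn_mer hf r α n z) c)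
      (Eventually.of_forall fun z => DW24.near_nonneg _ _ _) (LE.le.eventuallyLE hsub)) hn.le

/-- the connectedness argument -/
theorem dichotomy {f : ℂ → ℂ} (hf : Meromorphic f) {ρ : ℝ} (hρ : 0 < ρ) {r : ℕ → ℝ}
    (hr : DW24.Peaks (characteristic f ⊤) ρ r) (α σ : ℕ → ℝ) (𝒰 : Ultrafilter ℕ)
    (h𝒰 : (𝒰 : Filter ℕ) ≤ atTop) {s : ℝ} (hs : Tendsto σ 𝒰 (𝓝 s))
    {p q : ℝ} (hJ : ∀ φ ∈ Icc p q, Good f r α σ φ) {a b : WithTop ℂ} (hab : a ≠ b) :
    (∀ z : ℂ, z.im - s * z.re ∈ Icc p q → ∃ u : ℝ, 0 < u ∧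
      Zero 𝒰 (Fn f r α) (fun n => characteristic f ⊤ (r n)) a (closedBall z u)) ∨
    (∀ z : ℂ, z.im - s * z.re ∈ Icc p q → ∃ u : ℝ, 0 < u ∧
      Zero 𝒰 (Fn f r α) (fun n => characteristic f ⊤ (r n)) b (closedBall z u)) := by
  set T : ℕ → ℝ := fun n => characteristic f ⊤ (r n) with hTd
  set Ω : Set ℂ := {z : ℂ | z.im - s * z.re ∈ Icc p q} with hΩ
  have hTpos : ∀ᶠ n in (𝒰 : Filter ℕ), 0 < T n := Eventually.of_forall hr.2.1
  have hΩc : IsPreconnected Ω := by
    refine Convex.isPreconnected ?_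
    intro z hz w hw a' b' hα hβ hαβ
    simp only [hΩ, Set.mem_ofPred_eq, mem_Icc, Complex.add_im, Complex.add_re, Complex.real_smul,
      Complex.mul_im, Complex.mul_re, Complex.ofReal_re, Complex.ofReal_im, zero_mul, add_zero,
      sub_zero] at hz hw ⊢
    constructor
    · have h1 := mul_le_mul_of_nonneg_left hz.1 hα
      have h2 := mul_le_mul_of_nonneg_left hw.1 hβ
      have h3 : p = a' * p + b' * p := by rw [← add_mul, hαβ, one_mul]
      nlinarith
    · have h1 := mul_le_mul_of_nonneg_left hz.2 hα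
      have h2 := mul_le_mul_of_nonneg_left hw.2 hβ
      have h3 : q = a' * q + b' * q := by rw [← add_mul, hαβ, one_mul]
      nlinarith
  set Pos : WithTop ℂ → ℂ → Prop := fun c z => ∀ u : ℝ, 0 < u → ¬ Zero 𝒰 (Fn f r α) T c (closedBall z u)
    with hPos
  have hconst : ∀ c : WithTop ℂ, ∀ z ∈ Ω, ∀ w ∈ Ω, (Pos c z ↔ Pos c w) := by
    intro c z hz w hw
    refine hΩc.induction₂ (fun z w => (Pos c z ↔ Pos c w)) ?_ (fun x y z _ _ _ h1 h2 => h1.trans h2)
      (fun x y _ _ h => h.symm) hz hw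
    intro x hx
    obtain ⟨u, hu, h1, -⟩ := local_at hf hρ hr α σ 𝒰 h𝒰 hs (hJ _ hx)
    have key : ∀ y ∈ ball x u, (Pos c y ↔ ¬ Zero 𝒰 (Fn f r α) T c (closedBall x u)) := by
      intro y hy
      constructor
      · intro h2 h3
        have hd : dist y x < u := hy
        refine h2 (u - dist y x) (by linarith) (h3.mono hf hTpos (closedBall_subset_closedBall' (by linarith)))
      · intro h2
        exact h1 c h2 y hy
    filter_upwards [mem_nhdsWithin_of_mem_nhds (ball_mem_nhds x hu)] with y hy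
    rw [key x (mem_ball_self hu), key y hy]
  by_contra hcon
  push Not at hcon
  obtain ⟨⟨z, hz, h1⟩, ⟨w, hw, h2⟩⟩ := hcon
  have h3 : Pos a w := (hconst a z hz w hw).1 h1
  obtain ⟨u, hu, -, h4⟩ := local_at hf hρ hr α σ 𝒰 h𝒰 hs (hJ _ hw)
  rcases h4 a b hab with h5 | h5
  · exact h3 u hu h5
  · exact h2 u hu h5

end BD46
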