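import Pool.Agent.DW24.FinalP

/-!
Definitions for the theorem on Borel directions (MP_24b0ce_an).
`mult f a z`: the multiplicity of `z` as a solution of `f z = a`; `cnt f a E`: the number of
solutions of `f z = a` in `E`; `Y X Q a`: the function `X - a Q` (`Q` for `a = ∞`); `IsLift F X Q K`:
`F = X / Q` on `K` with `X`, `Q` analytic and without common zeros; `Zero`: `∫_B near (F n) c`
is `o(T n)` along a filter.
-/

set_option autoImplicit false

open MeasureTheory Filter Topology Set Metric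

namespace BD46

open DW24 (near)

/-- The multiplicity of `z` as a solution of `f z = a`. -/
noncomputable def mult (f : ℂ → ℂ) : WithTop ℂ → ℂ → ℕ
  | ⊤, z => (-(meromorphicOrderAt f z).untop₀).toNat
  | (a : ℂ), z => ((meromorphicOrderAt (fun w => f w - a) z).untop₀).toNat

/-- The number of solutions of `f z = a` in `E`, with multiplicities. -/
noncomputable def cnt (f : ℂ → ℂ) (a : WithTop ℂ) (E : Set ℂ) : ENNReal :=
  ∑' z : E, (mult f a z : ENNReal)

/-- `X - a Q`, or `Q` for `a = ∞`. -/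
noncomputable def Y (X Q : ℂ → ℂ) : WithTop ℂ → ℂ → ℂ
  | ⊤, z => Q z
  | (a : ℂ), z => X z - a * Q z

/-- `F = X / Q` on `K`, with `X` and `Q` analytic and without common zeros. -/
structure IsLift (F X Q : ℂ → ℂ) (K : Set ℂ) : Prop where
  aX : AnalyticOnNhd ℂ X K
  aQ : AnalyticOnNhd ℂ Q K
  nc : ∀ z ∈ K, ¬ (X z = 0 ∧ Q z = 0)
  eq : ∀ z ∈ K, ∀ᶠ w in 𝓝[≠] z, Q w ≠ 0 ∧ F w = X w / Q w

/-- `∫_B near (F n) c = o(T n)` along `𝒰`. -/
def Zero (𝒰 : Filter ℕ) (F : ℕ → ℂ → ℂ) (T : ℕ → ℝ) (c : WithTop ℂ) (B : Set ℂ) : Prop :=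
  Tendsto (fun n => (∫ z in B, near (F n) c z) / T n) 𝒰 (𝓝 0)

lemma mult_top (f : ℂ → ℂ) (z : ℂ) : mult f ⊤ z = (-(meromorphicOrderAt f z).untop₀).toNat := rfl
lemma mult_coe (f : ℂ → ℂ) (a z : ℂ) :
    mult f (a : WithTop ℂ) z = ((meromorphicOrderAt (fun w => f w - a) z).untop₀).toNat := rfl
lemma Y_top (X Q : ℂ → ℂ) (z : ℂ) : Y X Q ⊤ z = Q z := rfl
lemma Y_coe (X Q : ℂ → ℂ) (a z : ℂ) : Y X Q (a : WithTop ℂ) z = X z - a * Q z := rfl

end BD46
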