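import Pool.Agent.BD46.Defs

/-!
Polya peaks of order `ρ` (the exact order of growth) at which the characteristic is large.
-/

set_option autoImplicit false

open MeasureTheory Filter Topology Set Metric ValueDistribution

namespace BD46

open DW24 (near T_tendsto mono_T' liminf_comp_exp limsup_comp_exp Peaks)

/-- one peak, at which `τ` is large -/
theorem peak_large {τ : ℝ → ℝ} {x₀ ρ : ℝ} (hmono : Monotone τ) (hpos : ∀ x, x₀ ≤ x → 0 < τ x)
    (hρ : 0 < ρ)
    (hlow : ∀ ε : ℝ, 0 < ε → ∃ᶠ x : ℝ in atTop, Real.log (τ x) ≤ (ρ + ε) * x)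
    (hupp : ∀ ε : ℝ, 0 < ε → ∃ᶠ x : ℝ in atTop, (ρ - ε) * x ≤ Real.log (τ x))
    {δ R η : ℝ} (hδ : 0 < δ) (hR : 0 < R) (hη : 0 < η) (X : ℝ) :
    ∃ x, X ≤ x ∧ 0 < τ x ∧ (ρ - η) * x ≤ Real.log (τ x) ∧ ∀ y, |y - x| ≤ R → τ y ≤ (1 + δ) * Real.exp (ρ * (y - x)) * τ x := by
  set δ₁ : ℝ := min 1 (δ / 3) with hδ₁
  have hδ₁0 : 0 < δ₁ := lt_min one_pos (by positivity)
  have hδ₁1 : δ₁ ≤ 1 := min_le_left _ _
  have hδ₁3 : 3 * δ₁ ≤ δ := by have := min_le_right 1 (δ / 3); linarith
  set c : ℝ := min (Real.log (1 + δ₁) / R) η with hc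
  have hc0 : 0 < c := lt_min (div_pos (Real.log_pos (by linarith)) hR) hη
  have hcη : c ≤ η := min_le_right _ _
  have hcR : Real.exp (c * R) ≤ 1 + δ₁ := by
    have h1 : c * R ≤ Real.log (1 + δ₁) := by
      have := min_le_left (Real.log (1 + δ₁) / R) η
      rwa [← hc, le_div_iff₀ hR] at this
    have h2 := Real.exp_le_exp.2 h1
    rwa [Real.exp_log (by linarith)] at h2
  set X' : ℝ := max X (max x₀ 0) with hX'
  have hX1 : X ≤ X' := le_max_left _ _
  have hX2 : x₀ ≤ X' := (le_max_left _ _).trans (le_max_right _ _)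
  have hX3 : 0 ≤ X' := (le_max_right _ _).trans (le_max_right _ _)
  have hτ0 : ∀ x, X' ≤ x → 0 < τ x := fun x hx => hpos x (hX2.trans hx)
  set D₀ : ℝ := τ (X' + R) * Real.exp (|c - ρ| * (X' + R)) with hD₀
  have hD₀0 : 0 < D₀ := mul_pos (hτ0 _ (by linarith)) (Real.exp_pos _)
  -- the point p
  have hev1 : ∀ᶠ x : ℝ in atTop, D₀ < Real.exp (c / 2 * x) :=
    (Real.tendsto_exp_atTop.comp (tendsto_id.const_mul_atTop (by positivity))).eventually_gt_atTop D₀
  obtain ⟨p, hp1, hp2, hp3⟩ := ((hupp (c / 2) (by positivity)).and_eventually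
    (hev1.and (eventually_ge_atTop (X' + R + 1)))).exists
  have hτp : 0 < τ p := hτ0 p (by linarith)
  have hdp : D₀ < τ p * Real.exp ((c - ρ) * p) := by
    refine hp2.trans_le ?_
    have h1 : Real.exp ((ρ - c / 2) * p) ≤ τ p := (Real.le_log_iff_exp_le hτp).1 hp1
    calc Real.exp (c / 2 * p) = Real.exp ((ρ - c / 2) * p) * Real.exp ((c - ρ) * p) := by
          rw [← Real.exp_add]; congr 1; ring
      _ ≤ _ := mul_le_mul_of_nonneg_right h1 (Real.exp_pos _).le
  -- the point Z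
  have hbp : 0 < τ p * Real.exp (-(ρ + c) * p) := mul_pos hτp (Real.exp_pos _)
  have hev2 : ∀ᶠ x : ℝ in atTop, Real.exp (-(c / 2 * x)) * Real.exp ((ρ + c) * R)
      < τ p * Real.exp (-(ρ + c) * p) := by
    have h1 : Tendsto (fun x : ℝ => Real.exp (-(c / 2 * x)) * Real.exp ((ρ + c) * R)) atTop (𝓝 0) := by
      have h2 : Tendsto (fun x : ℝ => Real.exp (-(c / 2 * x))) atTop (𝓝 0) :=
        Real.tendsto_exp_neg_atTop_nhds_zero.comp (tendsto_id.const_mul_atTop (by positivity : 0 < c / 2))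
      simpa using h2.mul_const (Real.exp ((ρ + c) * R))
    exact h1.eventually_lt_const hbp
  obtain ⟨Z, hZ1, hZ2, hZ3⟩ := ((hlow (c / 2) (by positivity)).and_eventually
    (hev2.and (eventually_ge_atTop (p + R + 1)))).exists
  have hτZ : 0 < τ Z := hτ0 Z (by linarith)
  have hbZ : τ Z * Real.exp (-(ρ + c) * (Z - R)) < τ p * Real.exp (-(ρ + c) * p) := by
    refine lt_of_le_of_lt ?_ hZ2
    have h1 : τ Z ≤ Real.exp ((ρ + c / 2) * Z) := (Real.log_le_iff_le_exp hτZ).1 hZ1
    calc τ Z * Real.exp (-(ρ + c) * (Z - R))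
        ≤ Real.exp ((ρ + c / 2) * Z) * Real.exp (-(ρ + c) * (Z - R)) :=
          mul_le_mul_of_nonneg_right h1 (Real.exp_pos _).le
      _ = _ := by rw [← Real.exp_add, ← Real.exp_add]; congr 1; ring
  set F : ℝ → ℝ := fun t => τ t * Real.exp (-(ρ * t) - c * |t - p|) with hF
  have hFp : F p = τ p * Real.exp (-(ρ * p)) := by simp only [hF]; simp
  have hFp0 : 0 < F p := by rw [hFp]; exact mul_pos hτp (Real.exp_pos _)
  have hpZ : p ∈ Icc X' Z := ⟨by linarith, by linarith⟩
  have hbdd : BddAbove (F '' Icc X' Z) := by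
    refine ⟨τ Z, ?_⟩
    rintro _ ⟨t, ht, rfl⟩
    simp only [hF]
    have h1 : τ t ≤ τ Z := hmono ht.2
    have h2 : Real.exp (-(ρ * t) - c * |t - p|) ≤ 1 := by
      rw [Real.exp_le_one_iff]
      have h3 : 0 ≤ ρ * t := mul_nonneg hρ.le (hX3.trans ht.1)
      have h4 : 0 ≤ c * |t - p| := mul_nonneg hc0.le (abs_nonneg _)
      linarith
    calc τ t * Real.exp (-(ρ * t) - c * |t - p|) ≤ τ Z * 1 :=
          mul_le_mul h1 h2 (Real.exp_pos _).le hτZ.le
      _ = τ Z := mul_one _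
  set S : ℝ := sSup (F '' Icc X' Z) with hS
  have hle : ∀ t ∈ Icc X' Z, F t ≤ S := fun t ht => le_csSup hbdd ⟨t, ht, rfl⟩
  obtain ⟨x, hx, hx1, hx2⟩ : ∃ x ∈ Icc X' Z, F p ≤ F x ∧ S ≤ (1 + δ₁) * F x := by
    by_cases h : S ≤ (1 + δ₁) * F p
    · exact ⟨p, hpZ, le_rfl, h⟩
    · push Not at h
      have h1 : S / (1 + δ₁) < S := by
        rw [div_lt_iff₀ (by linarith)]
        have : 0 < S := lt_trans (mul_pos (by linarith) hFp0) h
        nlinarith
      obtain ⟨_, ⟨y, hy, rfl⟩, hy2⟩ := exists_lt_of_lt_csSup (Set.Nonempty.image F ⟨p, hpZ⟩) h1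
      rw [div_lt_iff₀ (by linarith)] at hy2
      refine ⟨y, hy, ?_, by linarith⟩
      have h3 : (1 + δ₁) * F p < F y * (1 + δ₁) := h.trans hy2
      rw [mul_comm] at h3
      exact (lt_of_mul_lt_mul_right h3 (by linarith)).le
  have hxX : X' + R < x := by
    by_contra hcon
    push Not at hcon
    have h1 : F x ≤ D₀ * Real.exp (-(c * p)) := by
      simp only [hF]
      rw [abs_of_nonpos (by linarith : x - p ≤ 0)]
      have h2 : τ x ≤ τ (X' + R) := hmono hcon
      have h3 : Real.exp (-(ρ * x) - c * -(x - p)) ≤ Real.exp (|c - ρ| * (X' + R)) * Real.exp (-(c * p)) := by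
        rw [← Real.exp_add]
        refine Real.exp_le_exp.2 ?_
        have h4 : (c - ρ) * x ≤ |c - ρ| * (X' + R) := by
          have h5 : (c - ρ) * x ≤ |c - ρ| * x :=
            mul_le_mul_of_nonneg_right (le_abs_self _) (hX3.trans hx.1)
          have h6 : |c - ρ| * x ≤ |c - ρ| * (X' + R) := mul_le_mul_of_nonneg_left hcon (abs_nonneg _)
          exact h5.trans h6
        linarith
      calc τ x * Real.exp (-(ρ * x) - c * -(x - p))
          ≤ τ (X' + R) * (Real.exp (|c - ρ| * (X' + R)) * Real.exp (-(c * p))) :=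
            mul_le_mul h2 h3 (Real.exp_pos _).le (hτ0 _ (by linarith)).le
        _ = D₀ * Real.exp (-(c * p)) := by rw [hD₀]; ring
    have h2 : D₀ * Real.exp (-(c * p)) < F p := by
      have h3 := mul_lt_mul_of_pos_right hdp (Real.exp_pos (-(c * p)))
      refine h3.trans_le (le_of_eq ?_)
      rw [hFp, mul_assoc, ← Real.exp_add]
      congr 2; ring
    linarith
  have hxZ : x < Z - R := by
    by_contra hcon
    push Not at hcon
    have h1 : F x ≤ τ Z * Real.exp (-(ρ + c) * (Z - R)) * Real.exp (c * p) := by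
      simp only [hF]
      rw [abs_of_nonneg (by linarith : 0 ≤ x - p)]
      have h2 : τ x ≤ τ Z := hmono hx.2
      have h3 : Real.exp (-(ρ * x) - c * (x - p)) ≤ Real.exp (-(ρ + c) * (Z - R)) * Real.exp (c * p) := by
        rw [← Real.exp_add]
        refine Real.exp_le_exp.2 ?_
        have h4 : (ρ + c) * (Z - R) ≤ (ρ + c) * x := mul_le_mul_of_nonneg_left hcon (by positivity)
        linarith
      calc τ x * Real.exp (-(ρ * x) - c * (x - p))
          ≤ τ Z * (Real.exp (-(ρ + c) * (Z - R)) * Real.exp (c * p)) :=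
            mul_le_mul h2 h3 (Real.exp_pos _).le hτZ.le
        _ = _ := by ring
    have h2 : τ Z * Real.exp (-(ρ + c) * (Z - R)) * Real.exp (c * p) < F p := by
      have h3 := mul_lt_mul_of_pos_right hbZ (Real.exp_pos (c * p))
      refine h3.trans_le (le_of_eq ?_)
      rw [hFp, mul_assoc, ← Real.exp_add]
      congr 2; ring
    linarith
  have hτx : 0 < τ x := hτ0 x hx.1
  have hlarge : (ρ - η) * x ≤ Real.log (τ x) := by
    have h1 : Real.log (F p) ≤ Real.log (F x) := Real.log_le_log hFp0 hx1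
    have h2 : Real.log (F p) = Real.log (τ p) - ρ * p := by
      rw [hFp, Real.log_mul hτp.ne' (Real.exp_pos _).ne', Real.log_exp]
      ring
    have h3 : Real.log (F x) = Real.log (τ x) - ρ * x - c * |x - p| := by
      simp only [hF]
      rw [Real.log_mul hτx.ne' (Real.exp_pos _).ne', Real.log_exp]
      ring
    rw [h2, h3] at h1
    have hx0 : 0 ≤ x := hX3.trans hx.1
    have h4 : (ρ - c / 2) * x ≤ Real.log (τ x) := by
      rcases le_total p x with hpx | hpx
      · rw [abs_of_nonneg (by linarith : 0 ≤ x - p)] at h1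
        nlinarith
      · rw [abs_of_nonpos (by linarith : x - p ≤ 0)] at h1
        nlinarith
    nlinarith
  refine ⟨x, hX1.trans hx.1, hτx, hlarge, fun y hy => ?_⟩
  rw [abs_le] at hy
  have hyI : y ∈ Icc X' Z := ⟨by linarith [hy.1], by linarith [hy.2]⟩
  have h1 := (hle y hyI).trans hx2
  simp only [hF] at h1
  have h2 : c * |y - p| ≤ c * |x - p| + c * R := by
    have h3 : |y - p| ≤ |x - p| + |y - x| := by
      have := abs_add_le (x - p) (y - x)
      rwa [show x - p + (y - x) = y - p by ring] at this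
    have h4 : |y - x| ≤ R := abs_le.2 hy
    have h5 := mul_le_mul_of_nonneg_left (h3.trans (add_le_add le_rfl h4)) hc0.le
    linarith
  have h6 : τ y ≤ (1 + δ₁) * (τ x * Real.exp (-(ρ * x) - c * |x - p|)) * Real.exp (ρ * y + c * |y - p|) := by
    have h7 := mul_le_mul_of_nonneg_right h1 (Real.exp_pos (ρ * y + c * |y - p|)).le
    have h8 : τ y * Real.exp (-(ρ * y) - c * |y - p|) * Real.exp (ρ * y + c * |y - p|) = τ y := by
      rw [mul_assoc, ← Real.exp_add, show -(ρ * y) - c * |y - p| + (ρ * y + c * |y - p|) = 0 by ring,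
        Real.exp_zero, mul_one]
    rw [h8] at h7
    exact h7
  refine h6.trans ?_
  have h9 : (1 + δ₁) * (τ x * Real.exp (-(ρ * x) - c * |x - p|)) * Real.exp (ρ * y + c * |y - p|)
      = (1 + δ₁) * τ x * Real.exp (ρ * (y - x) + (c * |y - p| - c * |x - p|)) := by
    rw [mul_assoc (1 + δ₁), mul_assoc (τ x), ← Real.exp_add, ← mul_assoc]
    congr 2; ring
  rw [h9]
  have h10 : Real.exp (ρ * (y - x) + (c * |y - p| - c * |x - p|)) ≤ Real.exp (ρ * (y - x)) * (1 + δ₁) := by
    refine le_trans ?_ (mul_le_mul_of_nonneg_left hcR (Real.exp_pos _).le)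
    rw [← Real.exp_add]
    exact Real.exp_le_exp.2 (by linarith)
  calc (1 + δ₁) * τ x * Real.exp (ρ * (y - x) + (c * |y - p| - c * |x - p|))
      ≤ (1 + δ₁) * τ x * (Real.exp (ρ * (y - x)) * (1 + δ₁)) :=
        mul_le_mul_of_nonneg_left h10 (by positivity)
    _ = ((1 + δ₁) * (1 + δ₁)) * (Real.exp (ρ * (y - x)) * τ x) := by ring
    _ ≤ (1 + δ) * (Real.exp (ρ * (y - x)) * τ x) := by
        refine mul_le_mul_of_nonneg_right ?_ (by positivity)
        nlinarith
    _ = _ := by ring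

/-- Polya peaks of order `ρ` (the exact order) at which `T` is large -/
theorem exists_peaks_large {f : ℂ → ℂ} (hf : Meromorphic f) {ρ : ℝ} (hρ : 0 < ρ)
    (hord : limsup (fun r : ℝ => ((Real.log (characteristic f ⊤ r) / Real.log r : ℝ) : EReal)) atTop = ρ) :
    ∃ r : ℕ → ℝ, DW24.Peaks (characteristic f ⊤) ρ r ∧
      ∀ lam : ℝ, lam < ρ → ∀ᶠ n in atTop, r n ^ lam ≤ characteristic f ⊤ (r n) := by
  have hupp : (ρ : EReal) ≤ limsup (fun r : ℝ => ((Real.log (characteristic f ⊤ r) / Real.log r : ℝ) : EReal)) atTop :=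
    hord.ge
  have hlow : liminf (fun r : ℝ => ((Real.log (characteristic f ⊤ r) / Real.log r : ℝ) : EReal)) atTop ≤ ρ :=
    (liminf_le_limsup).trans hord.le
  have hT := T_tendsto hf hρ hupp
  set τ : ℝ → ℝ := fun x => characteristic f ⊤ (Real.exp x) with hτ
  have hmono : Monotone τ := mono_T' hf
  have hτT : Tendsto τ atTop atTop := hT.comp Real.tendsto_exp_atTop
  obtain ⟨x₀, hx₀⟩ := (tendsto_atTop.mp hτT 1).exists_forall_of_atTop
  have hpos : ∀ x, x₀ ≤ x → 0 < τ x := fun x hx => lt_of_lt_of_le one_pos (hx₀ x hx)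
  have h1 := liminf_comp_exp
    (fun r : ℝ => ((Real.log (characteristic f ⊤ r) / Real.log r : ℝ) : EReal))
  have h2 := limsup_comp_exp
    (fun r : ℝ => ((Real.log (characteristic f ⊤ r) / Real.log r : ℝ) : EReal))
  simp only [Real.log_exp] at h1 h2
  have hl : ∀ ε : ℝ, 0 < ε → ∃ᶠ x : ℝ in atTop, Real.log (τ x) ≤ (ρ + ε) * x := by
    intro ε hε
    have h3 : liminf (fun x : ℝ => ((Real.log (τ x) / x : ℝ) : EReal)) atTop < ((ρ + ε : ℝ) : EReal) :=
      (h1.trans_le hlow).trans_lt (EReal.coe_lt_coe_iff.2 (by linarith))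
    refine ((frequently_lt_of_liminf_lt (h := h3)).and_eventually (eventually_gt_atTop 0)).mono ?_
    rintro x ⟨h4, h5⟩
    rw [EReal.coe_lt_coe_iff, div_lt_iff₀ h5] at h4
    exact h4.le
  have hu : ∀ ε : ℝ, 0 < ε → ∃ᶠ x : ℝ in atTop, (ρ - ε) * x ≤ Real.log (τ x) := by
    intro ε hε
    have h3 : ((ρ - ε : ℝ) : EReal) < limsup (fun x : ℝ => ((Real.log (τ x) / x : ℝ) : EReal)) atTop :=
      (EReal.coe_lt_coe_iff.2 (by linarith)).trans_le (h2.symm ▸ hupp)
    refine ((frequently_lt_of_lt_limsup (h := h3)).and_eventually (eventually_gt_atTop 0)).mono ?_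
    rintro x ⟨h4, h5⟩
    rw [EReal.coe_lt_coe_iff, lt_div_iff₀ h5] at h4
    exact h4.le
  choose x hx1 hx2 hx4 hx3 using fun n : ℕ => peak_large (x₀ := x₀) hmono hpos hρ hl hu
    (δ := 1 / ((n : ℝ) + 1)) (R := (n : ℝ) + 1) (η := 1 / ((n : ℝ) + 1))
    (by positivity) (by positivity) (by positivity) (n : ℝ)
  refine ⟨fun n => Real.exp (x n), ⟨?_, hx2, 2, ?_⟩, ?_⟩
  · refine Real.tendsto_exp_atTop.comp ?_
    exact tendsto_atTop_mono hx1 tendsto_natCast_atTop_atTop
  · intro R hR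
    have e2 : ∀ᶠ n : ℕ in atTop, Real.log R ≤ (n : ℝ) :=
      tendsto_natCast_atTop_atTop.eventually_ge_atTop _
    filter_upwards [e2] with n hn2 t ht
    have hR0 : 0 < R := by linarith
    have hr0 : 0 < Real.exp (x n) := Real.exp_pos _
    have ht0 : 0 < t := lt_of_lt_of_le (by positivity) ht.1
    have h4 : |Real.log t - x n| ≤ (n : ℝ) + 1 := by
      have h5 : Real.log (Real.exp (x n) / R) ≤ Real.log t := Real.log_le_log (by positivity) ht.1
      have h6 : Real.log t ≤ Real.log (R * Real.exp (x n)) := Real.log_le_log ht0 ht.2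
      rw [Real.log_div hr0.ne' hR0.ne', Real.log_exp] at h5
      rw [Real.log_mul hR0.ne' hr0.ne', Real.log_exp] at h6
      rw [abs_le]
      constructor <;> linarith
    have h5 := hx3 n (Real.log t) h4
    simp only [hτ] at h5
    rw [Real.exp_log ht0] at h5
    have h6 : (t / Real.exp (x n)) ^ ρ = Real.exp (ρ * (Real.log t - x n)) := by
      rw [Real.rpow_def_of_pos (by positivity), Real.log_div ht0.ne' hr0.ne', Real.log_exp, mul_comm]
    rw [h6]
    refine h5.trans ?_
    have h7 : 0 ≤ Real.exp (ρ * (Real.log t - x n)) * characteristic f ⊤ (Real.exp (x n)) :=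
      mul_nonneg (Real.exp_pos _).le (hx2 n).le
    have h8 : 1 / ((n : ℝ) + 1) ≤ 1 := by
      rw [div_le_one (by positivity)]
      have : (0 : ℝ) ≤ n := Nat.cast_nonneg _
      linarith
    rw [mul_assoc, mul_assoc]
    exact mul_le_mul_of_nonneg_right (by linarith) h7
  · intro lam hlam
    have e1 : ∀ᶠ n : ℕ in atTop, 1 / ((n : ℝ) + 1) < ρ - lam :=
      tendsto_one_div_add_atTop_nhds_zero_nat.eventually_lt_const (by linarith)
    filter_upwards [e1] with n hn
    have hx0 : 0 ≤ x n := (Nat.cast_nonneg n).trans (hx1 n)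
    have h3 : lam * x n ≤ Real.log (τ (x n)) := by
      refine le_trans ?_ (hx4 n)
      exact mul_le_mul_of_nonneg_right (by linarith) hx0
    rw [← Real.exp_mul, mul_comm]
    exact (Real.le_log_iff_exp_le (hx2 n)).1 h3

end BD46
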