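import Pool.Agent.BD46.SepG
import Pool.Agent.BD46.PeakPow

/-!
The deduction of the theorem on Borel directions, and the version near Polya peaks.
-/

set_option autoImplicit false

open MeasureTheory Filter Topology Set Metric ValueDistribution

namespace BD46

open DW24 (near cst vv)

/-- The part in `1 ≤ |z| ≤ R` of the sector between the spirals `arg z = φ ± δ + s log |z|`. -/
def Sec (s φ δ R : ℝ) : Set ℂ :=
  {z | ∃ t ψ : ℝ, 1 ≤ t ∧ t ≤ R ∧ |ψ - φ| < δ ∧ z = circleMap 0 t (ψ + s * Real.log t)}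

/-- `f` stays away from `a` along the spiral `arg z = φ + s log |z|`. -/
def Aw (f : ℂ → ℂ) (s φ : ℝ) (a : WithTop ℂ) : Prop :=
  Tendsto (fun r => near f a (circleMap 0 r (φ + s * Real.log r)) / characteristic f ⊤ r) atTop (𝓝 0)

lemma W_subset {r s φ δ h : ℝ} (a3 : 0 < r) (a4 : Real.exp h ≤ r) :
    W r (s * Real.log r) s φ δ h ⊆ Sec s φ δ (Real.exp h * r) := by
  rintro z ⟨x, ψ, b1, b2, b3⟩
  rw [abs_lt] at b1
  refine ⟨r * Real.exp x, ψ, ?_, ?_, b2, ?_⟩
  · calc (1 : ℝ) = Real.exp h * Real.exp (-h) := by rw [← Real.exp_add]; simp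
      _ ≤ r * Real.exp x := mul_le_mul a4 (Real.exp_le_exp.2 b1.1.le) (Real.exp_pos _).le a3.le
  · rw [mul_comm (Real.exp h)]
    exact mul_le_mul_of_nonneg_left (Real.exp_le_exp.2 b1.2.le) a3.le
  · rw [b3, Real.log_mul a3.ne' (Real.exp_pos x).ne', Real.log_exp]
    congr 1
    ring

/-- a sector with `o(T(2R))` points is thin near all peaks -/
lemma good_of_dense {f : ℂ → ℂ} (hf : Meromorphic f) {ρ s φ δ : ℝ} {r : ℕ → ℝ}
    (hr : DW24.Peaks (characteristic f ⊤) ρ r) (hδ : 0 < δ) {A : Fin 3 → WithTop ℂ}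
    (hA : Function.Injective A)
    (h1 : ∀ j, Tendsto (fun R => cnt f (A j) (Sec s φ δ R) /
      ENNReal.ofReal (characteristic f ⊤ (2 * R))) atTop (𝓝 0)) :
    Good f r (fun n => s * Real.log (r n)) (fun _ => s) φ := by
  obtain ⟨hr1, hr2, C, hC⟩ := hr
  refine ⟨δ, hδ, A, hA, fun j h hh => ?_⟩
  set R : ℝ := 2 * Real.exp h with hR
  have hR1 : 1 ≤ R := by
    have := Real.one_le_exp hh.le
    linarith
  have hR' : Tendsto (fun n => Real.exp h * r n) atTop atTop := hr1.const_mul_atTop (Real.exp_pos h)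
  have h2 : Tendsto (fun n => ENNReal.ofReal (C * R ^ ρ) *
      (cnt f (A j) (Sec s φ δ (Real.exp h * r n)) /
      ENNReal.ofReal (characteristic f ⊤ (2 * (Real.exp h * r n))))) atTop (𝓝 0) := by
    have h3 := ENNReal.Tendsto.const_mul ((h1 j).comp hR') (Or.inr (ENNReal.ofReal_ne_top (r := C * R ^ ρ)))
    rw [mul_zero] at h3
    exact h3
  refine tendsto_of_tendsto_of_tendsto_of_le_of_le' tendsto_const_nhds h2
    (Eventually.of_forall fun _ => zero_le) ?_
  filter_upwards [hC R hR1, hr1.eventually_gt_atTop 0, hr1.eventually_ge_atTop (Real.exp h)] with n a1 a3 a4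
  have hT := a1 (R * r n) ⟨by
    rw [div_le_iff₀ (by linarith)]
    nlinarith [mul_pos (by linarith : (0 : ℝ) < R) a3], le_rfl⟩
  rw [mul_div_assoc, div_self a3.ne', mul_one] at hT
  have e1 : 2 * (Real.exp h * r n) = R * r n := by rw [hR]; ring
  have hc : cnt f (A j) (W (r n) (s * Real.log (r n)) s φ δ h)
      ≤ cnt f (A j) (Sec s φ δ (Real.exp h * r n)) := cnt_mono (W_subset a3 a4)
  have hTn := hr2 n
  rw [e1]
  have hK : ENNReal.ofReal (characteristic f ⊤ (R * r n))
      ≤ ENNReal.ofReal (C * R ^ ρ) * ENNReal.ofReal (characteristic f ⊤ (r n)) := by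
    rw [← ENNReal.ofReal_mul' hTn.le]
    exact ENNReal.ofReal_le_ofReal hT
  refine (ENNReal.div_le_div_right hc _).trans ?_
  have hTR : characteristic f ⊤ (r n) ≤ characteristic f ⊤ (R * r n) :=
    characteristic_monotoneOn hf a3 (mul_pos (by linarith) a3) (le_mul_of_one_le_left a3.le hR1)
  have ht0 : ENNReal.ofReal (characteristic f ⊤ (R * r n)) ≠ 0 :=
    (ENNReal.ofReal_pos.2 (hTn.trans_le hTR)).ne'
  rw [ENNReal.div_le_iff_le_mul (Or.inl (ENNReal.ofReal_pos.2 hTn).ne') (Or.inl ENNReal.ofReal_ne_top),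
    mul_assoc]
  calc cnt f (A j) (Sec s φ δ (Real.exp h * r n))
      = cnt f (A j) (Sec s φ δ (Real.exp h * r n)) /
          ENNReal.ofReal (characteristic f ⊤ (R * r n)) *
          ENNReal.ofReal (characteristic f ⊤ (R * r n)) :=
        (ENNReal.div_mul_cancel ht0 ENNReal.ofReal_ne_top).symm
    _ ≤ cnt f (A j) (Sec s φ δ (Real.exp h * r n)) /
          ENNReal.ofReal (characteristic f ⊤ (R * r n)) *
          (ENNReal.ofReal (C * R ^ ρ) *
            ENNReal.ofReal (characteristic f ⊤ (r n))) := mul_le_mul_right hK _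
    _ = _ := by ring

/-- a sector with `O(R^l)` points, `l < ρ`, is thin near peaks at which `T` is large -/
lemma good_of_borel {f : ℂ → ℂ} {ρ s φ δ : ℝ} {r : ℕ → ℝ} (hr : Tendsto r atTop atTop)
    (hbig : ∀ l : ℝ, l < ρ → ∀ᶠ n in atTop, r n ^ l ≤ characteristic f ⊤ (r n))
    (hδ : 0 < δ) {A : Fin 3 → WithTop ℂ} (hA : Function.Injective A)
    (h1 : ∀ j, ∃ l : ℝ, l < ρ ∧ ∀ᶠ R in atTop, cnt f (A j) (Sec s φ δ R) ≤ ENNReal.ofReal (R ^ l)) :
    Good f r (fun n => s * Real.log (r n)) (fun _ => s) φ := by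
  refine ⟨δ, hδ, A, hA, fun j h hh => ?_⟩
  obtain ⟨l, hl, h2⟩ := h1 j
  obtain ⟨l', hl1, hl2⟩ := exists_between hl
  have hR : Tendsto (fun n => Real.exp h * r n) atTop atTop := hr.const_mul_atTop (Real.exp_pos h)
  have hlim : Tendsto (fun n => ENNReal.ofReal (Real.exp h ^ l * r n ^ (-(l' - l)))) atTop (𝓝 0) := by
    have h3 : Tendsto (fun n => Real.exp h ^ l * r n ^ (-(l' - l))) atTop (𝓝 0) := by
      have := ((tendsto_rpow_neg_atTop (sub_pos.2 hl1)).comp hr).const_mul (Real.exp h ^ l)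
      simpa using this
    simpa using ENNReal.tendsto_ofReal h3
  refine tendsto_of_tendsto_of_tendsto_of_le_of_le' tendsto_const_nhds hlim
    (Eventually.of_forall fun _ => zero_le) ?_
  filter_upwards [hR.eventually h2, hbig l' hl2, hr.eventually_gt_atTop 0,
    hr.eventually_ge_atTop (Real.exp h)] with n a1 a2 a3 a4
  have hc : cnt f (A j) (W (r n) (s * Real.log (r n)) s φ δ h)
      ≤ ENNReal.ofReal ((Real.exp h * r n) ^ l) := (cnt_mono (W_subset a3 a4)).trans a1
  have hp : 0 < r n ^ l' := Real.rpow_pos_of_pos a3 _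
  calc cnt f (A j) (W (r n) (s * Real.log (r n)) s φ δ h) /
        ENNReal.ofReal (characteristic f ⊤ (r n))
      ≤ ENNReal.ofReal ((Real.exp h * r n) ^ l) / ENNReal.ofReal (r n ^ l') :=
        ENNReal.div_le_div hc (ENNReal.ofReal_le_ofReal a2)
    _ = ENNReal.ofReal ((Real.exp h * r n) ^ l / r n ^ l') := (ENNReal.ofReal_div_of_pos hp).symm
    _ = ENNReal.ofReal (Real.exp h ^ l * r n ^ (-(l' - l))) := by
        congr 1
        rw [Real.mul_rpow (Real.exp_pos h).le a3.le, neg_sub, Real.rpow_sub a3]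
        ring

/-- the averages over arcs of a spiral along which `f` is away from `c` -/
lemma av_small {f : ℂ → ℂ} (hf : Meromorphic f)
    (hT : Tendsto (fun r => characteristic f ⊤ r) atTop atTop)
    {r : ℕ → ℝ} (hr : Tendsto r atTop atTop) (s φ : ℝ) (c : WithTop ℂ) (hc : Aw f s φ c) {h : ℕ}
    (hh : 1 ≤ h) {ε : ℝ} (hε : 0 < ε) :
    ∀ᶠ n : ℕ in atTop, DW24.AvP f c s h (r n) (φ + s * Real.log (r n)) ≤ ε := by
  have hh' : (1 : ℝ) ≤ h := by exact_mod_cast hh
  have hiT : ∀ x : ℝ, 0 < x → ∀ u v : ℝ,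
      IntervalIntegrable (fun y => characteristic f ⊤ (x * Real.exp y)) volume u v := by
    intro x hx u v
    refine Monotone.intervalIntegrable fun y z hyz => ?_
    exact characteristic_monotoneOn hf (mul_pos hx (Real.exp_pos y))
      (mul_pos hx (Real.exp_pos z)) (mul_le_mul_of_nonneg_left (Real.exp_le_exp.2 hyz) hx.le)
  have hlarge : ∀ r₀ : ℝ, ∀ᶠ n in atTop, 0 < r n ∧ ∀ y ∈ Set.Icc (-(h : ℝ)) h, r₀ ≤ r n * Real.exp y := by
    intro r₀
    filter_upwards [hr.eventually_gt_atTop 0, hr.eventually_ge_atTop (r₀ / Real.exp (-(h : ℝ)))] with n h1 h2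
    refine ⟨h1, fun y hy => ?_⟩
    rw [div_le_iff₀ (Real.exp_pos _)] at h2
    exact h2.trans (mul_le_mul_of_nonneg_left (Real.exp_le_exp.2 hy.1) h1.le)
  have h1 := (hc.eventually_lt_const hε).and (hT.eventually_gt_atTop 0)
  obtain ⟨r₀, hr₀⟩ := eventually_atTop.1 h1
  filter_upwards [hlarge r₀] with n hn
  obtain ⟨hn0, hn1⟩ := hn
  have hT0 : 0 < ∫ y in (-(h : ℝ))..h, characteristic f ⊤ (r n * Real.exp y) := by
    refine intervalIntegral.intervalIntegral_pos_of_pos_on (hiT (r n) hn0 _ _) (fun y hy => ?_)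
      (by linarith)
    exact (hr₀ _ (hn1 y ⟨hy.1.le, hy.2.le⟩)).2
  unfold DW24.AvP
  have e5 : ∀ y : ℝ, φ + s * Real.log (r n) + s * y = φ + s * Real.log (r n * Real.exp y) := fun y => by
    rw [Real.log_mul hn0.ne' (Real.exp_pos y).ne', Real.log_exp]; ring
  simp only [e5]
  rw [div_le_iff₀ hT0, ← intervalIntegral.integral_const_mul]
  by_cases hi : IntervalIntegrable (fun y => near f c (circleMap 0 (r n * Real.exp y)
      (φ + s * Real.log (r n * Real.exp y)))) volume (-(h : ℝ)) h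
  · refine intervalIntegral.integral_mono_on (by linarith) hi
      ((hiT (r n) hn0 _ _).const_mul ε) (fun y hy => ?_)
    obtain ⟨e7, e8⟩ := hr₀ _ (hn1 y hy)
    rw [div_lt_iff₀ e8] at e7
    exact e7.le
  · rw [intervalIntegral.integral_undef hi, intervalIntegral.integral_const_mul]
    exact mul_nonneg hε.le hT0.le

/-- separation, if almost every direction is good or away from one of the two values -/
theorem sepP_of_ae {f : ℂ → ℂ} (hf : Meromorphic f) {ρ : ℝ} (hρ : 0 < ρ) {r : ℕ → ℝ}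
    (hr : DW24.Peaks (characteristic f ⊤) ρ r) (s : ℝ) {a b : WithTop ℂ} (hab : a ≠ b)
    (hφ : ∀ᵐ φ : ℝ, Good f r (fun n => s * Real.log (r n)) (fun _ => s) φ ∨
      Aw f s φ a ∨ Aw f s φ b) :
    DW24.SepP f r (fun _ _ => s) a b := by
  have hT := DW24.T_tendsto_of_peaks hf hρ hr
  refine sepP_of_good hf hρ hr (fun n => s * Real.log (r n)) (fun _ => s) (fun _ => le_rfl) hab
    fun h hh ε hε => ?_
  have hh' : (1 : ℝ) ≤ h := by exact_mod_cast hh
  set E : Set ℝ := {φ : ℝ | ¬ Good f r (fun n => s * Real.log (r n)) (fun _ => s) φ} with hE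
  have hEm : MeasurableSet E :=
    (isOpen_good f r (fun n => s * Real.log (r n)) (fun _ => s)).isClosed_compl.measurableSet
  have hfin : IsFiniteMeasure (volume.restrict (Set.Ioc 0 (2 * Real.pi) ∩ E)) := by
    refine ⟨?_⟩
    rw [Measure.restrict_apply_univ]
    exact lt_of_le_of_lt (measure_mono Set.inter_subset_left) measure_Ioc_lt_top
  have hmeas : ∀ c : WithTop ℂ, ∀ x : ℝ, Measurable (fun φ => DW24.AvP f c s h x φ) := fun c x =>
    DW24.AvP_measurable hf c s h x
  have hnn : ∀ c : WithTop ℂ, ∀ᶠ n : ℕ in atTop, ∀ φ, 0 ≤ DW24.AvP f c s h (r n) φ := by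
    intro c
    filter_upwards [hr.1.eventually_gt_atTop 0, hr.1.eventually_ge_atTop (Real.exp h)] with n h1 h2 φ
    refine div_nonneg (intervalIntegral.integral_nonneg (by linarith) fun y _ => ?_)
      (intervalIntegral.integral_nonneg (by linarith) fun y hy => ?_)
    · exact DW24.near_nonneg _ _ _
    · refine characteristic_nonneg ?_
      calc (1 : ℝ) = Real.exp h * Real.exp (-(h : ℝ)) := by rw [← Real.exp_add]; simp
        _ ≤ r n * Real.exp y := mul_le_mul h2 (Real.exp_le_exp.2 hy.1) (Real.exp_pos _).le h1.le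
  have hmain : TendstoInMeasure (volume.restrict (Set.Ioc 0 (2 * Real.pi) ∩ E))
      (fun (n : ℕ) (φ : ℝ) => min (DW24.AvP f a s h (r n) (φ + s * Real.log (r n)))
        (DW24.AvP f b s h (r n) (φ + s * Real.log (r n)))) atTop (fun _ => 0) := by
    refine tendstoInMeasure_of_tendsto_ae (fun n => ?_) ?_
    · exact (((hmeas a (r n)).comp (measurable_id.add_const (s * Real.log (r n)))).min
        ((hmeas b (r n)).comp (measurable_id.add_const (s * Real.log (r n))))).aestronglyMeasurable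
    filter_upwards [ae_restrict_of_ae hφ, ae_restrict_mem (measurableSet_Ioc.inter hEm)] with φ h1 h2
    rw [Metric.tendsto_atTop]
    intro ε hε
    have h4 : ∀ᶠ n : ℕ in atTop, min (DW24.AvP f a s h (r n) (φ + s * Real.log (r n)))
        (DW24.AvP f b s h (r n) (φ + s * Real.log (r n))) ≤ ε / 2 := by
      rcases h1 with h5 | h5 | h5
      · exact absurd h5 h2.2
      · filter_upwards [av_small hf hT hr.1 s φ a h5 hh (half_pos hε)] with k hk using
          (min_le_left _ _).trans hk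
      · filter_upwards [av_small hf hT hr.1 s φ b h5 hh (half_pos hε)] with k hk using
          (min_le_right _ _).trans hk
    obtain ⟨N, hN⟩ := eventually_atTop.1 (h4.and ((hnn a).and (hnn b)))
    refine ⟨N, fun k hk => ?_⟩
    obtain ⟨h5, h6, h7⟩ := hN k hk
    rw [Real.dist_eq, sub_zero, abs_of_nonneg (le_min (h6 _) (h7 _))]
    linarith
  have h1 := hmain (ENNReal.ofReal ε) (ENNReal.ofReal_pos.2 hε)
  refine tendsto_of_tendsto_of_tendsto_of_le_of_le tendsto_const_nhds h1 (fun _ => zero_le) ?_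
  intro k
  simp only
  rw [Measure.restrict_apply' (measurableSet_Ioc.inter hEm)]
  refine measure_mono ?_
  rintro φ ⟨h2, h3, h4⟩
  refine ⟨?_, h2, h3⟩
  show ENNReal.ofReal ε ≤ edist (min (DW24.AvP f a s h (r k) (φ + s * Real.log (r k)))
    (DW24.AvP f b s h (r k) (φ + s * Real.log (r k)))) 0
  rw [edist_dist, Real.dist_eq, sub_zero]
  exact ENNReal.ofReal_le_ofReal (h4.le.trans (le_abs_self _))

/-- The version near a sequence of Polya peaks, in rotated frames and with bounded pitches. -/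
theorem sum_le_near_peaks {f : ℂ → ℂ} (hf : Meromorphic f) {ρ : ℝ} (hρ : 1 ≤ ρ) {r : ℕ → ℝ}
    (hr : DW24.Peaks (characteristic f ⊤) ρ r) (α σ : ℕ → ℝ) {B : ℝ} (hB : ∀ n, |σ n| ≤ B)
    (S : Finset (WithTop ℂ)) (hG : ∀ᵐ φ : ℝ, Good f r α σ φ) :
    ∑ a ∈ S, DW24.defS f a ≤ ((DW24.Lam ρ : ℝ) : EReal) := by
  refine DW24.sum_def_le_of_sepP hf hρ hr S (fun _ n => σ n) (fun a _ b _ hab _ _ => ?_)
  refine sepP_of_good hf (by linarith) hr α σ hB hab fun h _ ε _ => ?_
  have h0 : ∀ n : ℕ, volume {φ : ℝ | φ ∈ Ioc 0 (2 * Real.pi) ∧ ¬ Good f r α σ φ ∧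
      ε < min (DW24.AvP f a (σ n) h (r n) (φ + α n)) (DW24.AvP f b (σ n) h (r n) (φ + α n))} = 0 := by
    intro n
    refine measure_mono_null ?_ hG
    rintro φ ⟨-, h1, -⟩
    exact h1
  simp only [h0]
  exact tendsto_const_nhds

end BD46
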