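import Pool.Agent.BD46.Defs

/-!
Lifts `F = X / Q`, and the factorization of `X - a Q`.
-/

set_option autoImplicit false

open MeasureTheory Filter Topology Set Metric

namespace BD46

open DW24 (near)

lemma preperfect_ball (z₀ : ℂ) {R : ℝ} (hR : 0 < R) : Preperfect (closedBall z₀ R) := by
  refine IsPreconnected.preperfect_of_nontrivial ?_ (convex_closedBall z₀ R).isPreconnected
  refine ⟨z₀, mem_closedBall_self hR.le, z₀ + R, ?_, ?_⟩
  · rw [mem_closedBall, dist_eq_norm]
    simp [abs_of_pos hR]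
  · intro h
    have : (R : ℂ) = 0 := by
      have := congrArg (fun w => w - z₀) h
      simpa using this.symm
    exact hR.ne' (by exact_mod_cast this)

theorem exists_lift {F : ℂ → ℂ} {z₀ : ℂ} {R : ℝ} (hR : 0 < R)
    (hF : MeromorphicOn F (closedBall z₀ R)) (hne : ∀ z ∈ closedBall z₀ R, meromorphicOrderAt F z ≠ ⊤) :
    ∃ X Q : ℂ → ℂ, IsLift F X Q (closedBall z₀ R) := by
  set K := closedBall z₀ R with hK
  have hfin : (MeromorphicOn.divisor F K).support.Finite :=
    (MeromorphicOn.divisor F K).finiteSupport (isCompact_closedBall z₀ R)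
  obtain ⟨G, hG, hG0, hGe⟩ := hF.extract_zeros_poles (fun u => hne u u.2) hfin
  set D := MeromorphicOn.divisor F K with hD
  set S := hfin.toFinset with hS
  have hprod : (∏ᶠ u, (· - u) ^ D u : ℂ → ℂ) = fun z => ∏ u ∈ S, (z - u) ^ D u := by
    rw [finprod_eq_prod_of_mulSupport_subset (s := S)]
    · funext z
      simp
    · intro u hu
      rw [hS, Set.Finite.coe_toFinset]
      by_contra h
      rw [Function.mem_support, not_not] at h
      apply hu
      simp [h]
  refine ⟨fun z => (∏ u ∈ S, (z - u) ^ (D u).toNat) * G z, fun z => ∏ u ∈ S, (z - u) ^ (-D u).toNat,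
    ?_, ?_, ?_, ?_⟩
  · intro z hz
    refine AnalyticAt.mul ?_ (hG z hz)
    fun_prop
  · intro z hz
    fun_prop
  · rintro z hz ⟨h1, h2⟩
    simp only [Finset.prod_eq_zero_iff] at h2
    obtain ⟨u, hu, hu2⟩ := h2
    have h3 : (-D u).toNat ≠ 0 := by
      intro h; rw [h, pow_zero] at hu2; exact one_ne_zero hu2
    have h4 : z = u := by
      exact sub_eq_zero.1 (pow_eq_zero_iff h3 |>.1 hu2)
    have h5 : ∏ u ∈ S, (z - u) ^ (D u).toNat = 0 := by
      rcases mul_eq_zero.1 h1 with h | h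
      · exact h
      · exact absurd h (hG0 ⟨z, hz⟩)
    rw [Finset.prod_eq_zero_iff] at h5
    obtain ⟨v, hv, hv2⟩ := h5
    have h6 : (D v).toNat ≠ 0 := by
      intro h; rw [h, pow_zero] at hv2; exact one_ne_zero hv2
    have h7 : z = v := by
      exact sub_eq_zero.1 (pow_eq_zero_iff h6 |>.1 hv2)
    rw [← h7, h4] at h6
    omega
  · intro z hz
    have hm : MeromorphicAt ((∏ᶠ u, (· - u) ^ D u : ℂ → ℂ) • G) z := by
      refine MeromorphicAt.smul ?_ (hG z hz).meromorphicAt
      rw [hprod]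
      fun_prop
    have h1 := (hF z hz).eventuallyEq_nhdsNE_of_eventuallyEq_codiscreteWithin_preperfect hm hz
      (preperfect_ball z₀ hR) hGe
    have h2 : ∀ᶠ w in 𝓝[≠] z, w ∉ S := by
      have h3 : ((S : Set ℂ) \ {z})ᶜ ∈ 𝓝 z :=
        (S.finite_toSet.subset Set.sdiff_subset).isClosed.isOpen_compl.mem_nhds (by simp)
      filter_upwards [mem_nhdsWithin_of_mem_nhds h3, self_mem_nhdsWithin] with w hw hw2 hwS
      exact hw ⟨hwS, hw2⟩
    filter_upwards [h1, h2] with w hw1 hw2
    have hne' : ∀ u ∈ S, w - u ≠ 0 := fun u hu h => hw2 (by rw [sub_eq_zero.1 h]; exact hu)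
    refine ⟨Finset.prod_ne_zero_iff.2 fun u hu => pow_ne_zero _ (hne' u hu), ?_⟩
    rw [hw1, hprod]
    simp only [Pi.smul_apply', smul_eq_mul]
    rw [mul_div_right_comm, ← Finset.prod_div_distrib]
    congr 1
    refine Finset.prod_congr rfl fun u hu => ?_
    have e1 : D u = (D u).toNat - (-D u).toNat := by omega
    conv_lhs => rw [e1]
    rw [zpow_sub₀ (hne' u hu), zpow_natCast, zpow_natCast]

lemma Y_analytic {F X Q : ℂ → ℂ} {K : Set ℂ} (h : IsLift F X Q K) (c : WithTop ℂ) :
    AnalyticOnNhd ℂ (Y X Q c) K := by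
  intro z hz
  cases c with
  | top => exact h.aQ z hz
  | coe c => exact (h.aX z hz).sub (analyticAt_const.mul (h.aQ z hz))

/-- scaling of a lift -/
theorem IsLift.scale {F X Q G : ℂ → ℂ} {K : Set ℂ} (h : IsLift F X Q K)
    (hG : AnalyticOnNhd ℂ G K) (hG0 : ∀ z ∈ K, G z ≠ 0) :
    IsLift F (fun z => X z / G z) (fun z => Q z / G z) K := by
  refine ⟨fun z hz => (h.aX z hz).div (hG z hz) (hG0 z hz), fun z hz => (h.aQ z hz).div (hG z hz) (hG0 z hz),
    ?_, ?_⟩
  · rintro z hz ⟨h1, h2⟩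
    rw [div_eq_zero_iff, or_iff_left (hG0 z hz)] at h1 h2
    exact h.nc z hz ⟨h1, h2⟩
  · intro z hz
    have h1 : ∀ᶠ w in 𝓝[≠] z, G w ≠ 0 :=
      eventually_nhdsWithin_of_eventually_nhds ((hG z hz).continuousAt.eventually_ne (hG0 z hz))
    filter_upwards [h.eq z hz, h1] with w hw hw2
    refine ⟨div_ne_zero hw.1 hw2, ?_⟩
    rw [hw.2]
    field_simp

lemma Y_scale (X Q G : ℂ → ℂ) (c : WithTop ℂ) (z : ℂ) :
    Y (fun z => X z / G z) (fun z => Q z / G z) c z = Y X Q c z / G z := by
  cases c with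
  | top => rfl
  | coe c =>
    simp only [Y_coe]
    ring

/-- the zeros of `X - a Q` are the `a`-points of `F` -/
theorem order_Y {F X Q : ℂ → ℂ} {z₀ : ℂ} {R : ℝ} (hR : 0 < R) (h : IsLift F X Q (closedBall z₀ R))
    (c : WithTop ℂ)
    {u : ℂ} (hu : u ∈ closedBall z₀ R) (hne : ∀ c, meromorphicOrderAt (Y X Q c) u ≠ ⊤) :
    (meromorphicOrderAt (Y X Q c) u).untop₀ = mult F c u := by
  have hQm : MeromorphicAt Q u := (h.aQ u hu).meromorphicAt
  have hXm : MeromorphicAt X u := (h.aX u hu).meromorphicAt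
  have hnn : ∀ c, 0 ≤ (meromorphicOrderAt (Y X Q c) u).untop₀ := by
    intro c
    have h1 := (Y_analytic h c u hu).meromorphicOrderAt_nonneg
    rw [← WithTop.coe_untop₀_of_ne_top (hne c)] at h1
    exact_mod_cast h1
  have hz : ∀ c, Y X Q c u ≠ 0 → (meromorphicOrderAt (Y X Q c) u).untop₀ = 0 := by
    intro c hc
    have h1 := (Y_analytic h c u hu).meromorphicOrderAt_eq
    rw [(Y_analytic h c u hu).analyticOrderAt_eq_zero.2 hc] at h1
    rw [h1]; rfl
  have hQ' : (fun z => Y X Q ⊤ z) = Q := rfl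
  have hQ0 := hne ⊤
  have hsub : ∀ a : ℂ, meromorphicOrderAt (fun w => F w - a) u
      = meromorphicOrderAt (Y X Q (a : WithTop ℂ)) u - meromorphicOrderAt Q u := by
    intro a
    rw [← meromorphicOrderAt_div (Y_analytic h a u hu).meromorphicAt hQm]
    refine meromorphicOrderAt_congr ?_
    filter_upwards [h.eq u hu] with w hw
    rw [hw.2, Pi.div_apply, Y_coe]
    have := hw.1
    field_simp
  have hF : meromorphicOrderAt F u = meromorphicOrderAt (Y X Q ((0 : ℂ) : WithTop ℂ)) u - meromorphicOrderAt Q u := by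
    rw [← hsub 0]
    congr 1
    funext w
    rw [sub_zero]
  -- untop forms
  obtain ⟨q, hq⟩ := WithTop.ne_top_iff_exists.1 hQ0
  have hq' : meromorphicOrderAt Q u = (q : WithTop ℤ) := hq.symm
  have hqn : 0 ≤ q := by
    have := hnn ⊤
    rw [← hq] at this
    simpa using this
  by_cases hQu : Q u = 0
  · have hXu : X u ≠ 0 := fun hx => h.nc u hu ⟨hx, hQu⟩
    have hYc : ∀ a : ℂ, Y X Q (a : WithTop ℂ) u ≠ 0 := by
      intro a
      rw [Y_coe, hQu, mul_zero, sub_zero]
      exact hXu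
    have hqpos : 0 < q := by
      rcases hqn.lt_or_eq with h1 | h1
      · exact h1
      · exfalso
        have h2 := (h.aQ u hu).meromorphicOrderAt_eq
        rw [hq', ← h1] at h2
        have h3 : analyticOrderAt Q u = 0 := by
          cases h4 : analyticOrderAt Q u with
          | top => rw [h4] at h2; simp at h2
          | coe n =>
            rw [h4] at h2
            have : (0 : ℤ) = n := by
              have h5 : ((0 : ℤ) : WithTop ℤ) = ((n : ℤ) : WithTop ℤ) := h2
              exact_mod_cast h5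
            have : n = 0 := by omega
            rw [this]; rfl
        exact ((h.aQ u hu).analyticOrderAt_eq_zero.1 h3) hQu
    cases c with
    | top =>
      rw [mult_top, hF, hq']
      obtain ⟨p, hp⟩ := WithTop.ne_top_iff_exists.1 (hne ((0 : ℂ) : WithTop ℂ))
      have hp0 : p = 0 := by
        have := hz _ (hYc 0)
        rw [← hp] at this
        simpa using this
      rw [← hp, hp0]
      have e1 : ((0 : ℤ) : WithTop ℤ) - (q : WithTop ℤ) = ((0 - q : ℤ) : WithTop ℤ) :=
        (WithTop.LinearOrderedAddCommGroup.coe_sub 0 q).symm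
      have e2 : (meromorphicOrderAt (Y X Q ⊤) u).untop₀ = q := by
        rw [← hq]; rfl
      rw [e1, e2, WithTop.untop₀_coe]
      omega
    | coe a =>
      rw [mult_coe, hsub a, hq']
      obtain ⟨p, hp⟩ := WithTop.ne_top_iff_exists.1 (hne (a : WithTop ℂ))
      have hp0 : p = 0 := by
        have := hz _ (hYc a)
        rw [← hp] at this
        simpa using this
      rw [← hp, hp0]
      have e1 : ((0 : ℤ) : WithTop ℤ) - (q : WithTop ℤ) = ((0 - q : ℤ) : WithTop ℤ) :=
        (WithTop.LinearOrderedAddCommGroup.coe_sub 0 q).symm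
      rw [e1, WithTop.untop₀_coe, WithTop.untop₀_coe]
      omega
  · have hq0 : q = 0 := by
      have := hz ⊤ hQu
      rw [← hq] at this
      simpa using this
    cases c with
    | top =>
      rw [mult_top, hF, hq', hq0]
      obtain ⟨p, hp⟩ := WithTop.ne_top_iff_exists.1 (hne ((0 : ℂ) : WithTop ℂ))
      have hpn := hnn ((0 : ℂ) : WithTop ℂ)
      rw [← hp] at hpn ⊢
      rw [WithTop.untop₀_coe] at hpn
      have e1 : (p : WithTop ℤ) - ((0 : ℤ) : WithTop ℤ) = ((p - 0 : ℤ) : WithTop ℤ) :=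
        (WithTop.LinearOrderedAddCommGroup.coe_sub p 0).symm
      have e2 : (meromorphicOrderAt (Y X Q ⊤) u).untop₀ = 0 := hz ⊤ hQu
      rw [e1, e2, WithTop.untop₀_coe]
      omega
    | coe a =>
      rw [mult_coe, hsub a, hq', hq0]
      obtain ⟨p, hp⟩ := WithTop.ne_top_iff_exists.1 (hne (a : WithTop ℂ))
      have hpn := hnn (a : WithTop ℂ)
      rw [← hp] at hpn ⊢
      rw [WithTop.untop₀_coe] at hpn
      have e1 : (p : WithTop ℤ) - ((0 : ℤ) : WithTop ℤ) = ((p - 0 : ℤ) : WithTop ℤ) :=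
        (WithTop.LinearOrderedAddCommGroup.coe_sub p 0).symm
      rw [e1, WithTop.untop₀_coe, WithTop.untop₀_coe]
      omega

end BD46
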