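import Pool.Agent.BD46.Lift
import Pool.Agent.BD46.Area

/-!
The factorization of `X - a Q` on a disc in which it has few zeros.
-/

set_option autoImplicit false

open MeasureTheory Filter Topology Set Metric

namespace BD46

open DW24 (near)

lemma sum_mult_le {F : ℂ → ℂ} {c : WithTop ℂ} {K : Set ℂ} {S : Finset ℂ} (hS : ∀ z ∈ S, z ∈ K)
    {ν : ℝ} (hν0 : 0 ≤ ν) (hν : cnt F c K ≤ ENNReal.ofReal ν) :
    ∑ z ∈ S, (mult F c z : ℝ) ≤ ν := by
  have h1 : cnt F c K = ∑' z, K.indicator (fun z => (mult F c z : ENNReal)) z := by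
    unfold cnt
    rw [tsum_subtype K (fun z => (mult F c z : ENNReal))]
  have h2 : ∑ z ∈ S, (mult F c z : ENNReal) ≤ cnt F c K := by
    rw [h1]
    refine le_trans (le_of_eq ?_) (ENNReal.sum_le_tsum S)
    refine Finset.sum_congr rfl fun z hz => ?_
    rw [Set.indicator_of_mem (hS z hz)]
  have h3 : ((∑ z ∈ S, mult F c z : ℕ) : ENNReal) ≤ ENNReal.ofReal ν := by
    push_cast
    exact h2.trans hν
  rw [← ENNReal.ofReal_natCast, ENNReal.ofReal_le_ofReal_iff hν0] at h3
  exact_mod_cast h3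

theorem lift_factor {F X Q : ℂ → ℂ} {z₀ : ℂ} {R : ℝ} (hR : 0 < R) (h : IsLift F X Q (closedBall z₀ R))
    (hne : ∀ u ∈ closedBall z₀ R, ∀ c, meromorphicOrderAt (Y X Q c) u ≠ ⊤) (c : WithTop ℂ)
    {C : ℝ} (hC0 : 0 ≤ C) (hC : ∀ z u : ℂ, u ∈ closedBall z R →
      ∫ w in closedBall z R, |Real.log ‖w - u‖| ≤ C)
    {ν : ℝ} (hν0 : 0 ≤ ν) (hν : cnt F c (closedBall z₀ R) ≤ ENNReal.ofReal ν) :
    ∃ G : ℂ → ℂ, AnalyticOnNhd ℂ G (closedBall z₀ R) ∧ (∀ z ∈ closedBall z₀ R, G z ≠ 0) ∧
      ∫ w in closedBall z₀ R, |Real.log ‖Y X Q c w‖ - Real.log ‖G w‖| ≤ C * ν := by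
  set K := closedBall z₀ R with hK
  have hY := Y_analytic h c
  have hfin : (MeromorphicOn.divisor (Y X Q c) K).support.Finite :=
    (MeromorphicOn.divisor (Y X Q c) K).finiteSupport (isCompact_closedBall z₀ R)
  obtain ⟨G, hG, hG0, hGe⟩ := hY.meromorphicOn.extract_zeros_poles (fun u => hne u u.2 c) hfin
  refine ⟨G, hG, fun z hz => hG0 ⟨z, hz⟩, ?_⟩
  have hlog := MeromorphicOn.extract_zeros_poles_log hG0 hGe
  set D := MeromorphicOn.divisor (Y X Q c) K with hD
  set S := hfin.toFinset with hS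
  have hSK : ∀ z ∈ S, z ∈ K := by
    intro z hz
    rw [hS, Set.Finite.mem_toFinset] at hz
    exact D.supportWithinDomain hz
  have hDm : ∀ u ∈ S, (D u : ℝ) = mult F c u := by
    intro u hu
    have h1 := order_Y hR h c (hSK u hu) (hne u (hSK u hu))
    rw [hD, MeromorphicOn.divisor_apply hY.meromorphicOn (hSK u hu), h1]
    simp
  have hae : ∀ᵐ w ∂(volume.restrict K), Real.log ‖Y X Q c w‖ - Real.log ‖G w‖
      = ∑ u ∈ S, (D u : ℝ) * Real.log ‖w - u‖ := by
    have h2 := ae_restrict_le_codiscreteWithin (μ := volume) (measurableSet_closedBall (x := z₀) (ε := R)) hlog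
    filter_upwards [h2] with w hw
    have e1 : (∑ᶠ u, fun x : ℂ => (D u : ℝ) * Real.log ‖x - u‖) w
        = ∑ u ∈ S, (D u : ℝ) * Real.log ‖w - u‖ := by
      rw [finsum_eq_sum_of_support_subset (s := S)]
      · simp
      · intro u hu
        rw [hS, Set.Finite.coe_toFinset]
        by_contra h
        rw [Function.mem_support, not_not] at h
        apply hu
        funext x
        simp [h]
    have hw' : Real.log ‖Y X Q c w‖ = (∑ᶠ u, fun x : ℂ => (D u : ℝ) * Real.log ‖x - u‖) w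
        + Real.log ‖G w‖ := hw
    rw [hw', e1]
    ring
  calc ∫ w in K, |Real.log ‖Y X Q c w‖ - Real.log ‖G w‖|
      = ∫ w in K, |∑ u ∈ S, (D u : ℝ) * Real.log ‖w - u‖| := by
        refine integral_congr_ae ?_
        filter_upwards [hae] with w hw
        rw [hw]
    _ ≤ ∫ w in K, ∑ u ∈ S, (mult F c u : ℝ) * |Real.log ‖w - u‖| := by
        refine integral_mono ?_ ?_ ?_
        · refine (integrable_finsetSum S fun u _ => ?_).abs
          exact (integrableOn_log_sub u z₀ R).const_mul _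
        · refine integrable_finsetSum S fun u _ => ?_
          exact (integrableOn_log_sub u z₀ R).abs.const_mul _
        · intro w
          refine (Finset.abs_sum_le_sum_abs _ _).trans (Finset.sum_le_sum fun u hu => ?_)
          rw [abs_mul, hDm u hu, abs_of_nonneg (Nat.cast_nonneg _)]
    _ = ∑ u ∈ S, (mult F c u : ℝ) * ∫ w in K, |Real.log ‖w - u‖| := by
        rw [integral_finsetSum S fun u _ => (integrableOn_log_sub u z₀ R).abs.const_mul _]
        refine Finset.sum_congr rfl fun u _ => ?_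
        rw [integral_const_mul]
    _ ≤ ∑ u ∈ S, (mult F c u : ℝ) * C := by
        refine Finset.sum_le_sum fun u hu => ?_
        exact mul_le_mul_of_nonneg_left (hC z₀ u (hSK u hu)) (Nat.cast_nonneg _)
    _ = C * ∑ u ∈ S, (mult F c u : ℝ) := by rw [← Finset.sum_mul, mul_comm]
    _ ≤ C * ν := mul_le_mul_of_nonneg_left (sum_mult_le hSK hν0 hν) hC0

end BD46
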