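import Pool.Agent.BD46.Area

/-!
Limits of `log ‖G n‖ / T n` along an ultrafilter, for zero free analytic functions `G n`.
-/

set_option autoImplicit false

open MeasureTheory Filter Topology Set Metric ValueDistribution

namespace BD46

open DW24 (near)

lemma abs_log_sub_log_le {a b m : ℝ} (hm : 0 < m) (ha : m ≤ a) (hb : m ≤ b) :
    |Real.log a - Real.log b| ≤ |a - b| / m := by
  have key : ∀ a b : ℝ, m ≤ a → m ≤ b → Real.log a - Real.log b ≤ |a - b| / m := by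
    intro a b ha hb
    have ha0 : 0 < a := hm.trans_le ha
    have hb0 : 0 < b := hm.trans_le hb
    rw [← Real.log_div ha0.ne' hb0.ne']
    have h1 := Real.log_le_sub_one_of_pos (div_pos ha0 hb0)
    have h2 : a / b - 1 = (a - b) / b := by field_simp
    have h3 : (a - b) / b ≤ |a - b| / b := div_le_div_of_nonneg_right (le_abs_self _) hb0.le
    have h4 : |a - b| / b ≤ |a - b| / m := div_le_div_of_nonneg_left (abs_nonneg _) hm hb
    linarith
  rw [abs_le]
  constructor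
  · have := key b a hb ha
    rw [abs_sub_comm] at this
    linarith
  · exact key a b ha hb

/-- pointwise limits of equi-Lipschitz functions are uniform on compact sets -/
lemma unif_of_lip {𝒰 : Filter ℕ} {k : ℕ → ℂ → ℂ} {K : ℂ → ℂ} {S : Set ℂ} (hS : IsCompact S) {L : ℝ}
    (hL : 0 ≤ L) (hk : ∀ᶠ n in 𝒰, ∀ z ∈ S, ∀ w ∈ S, ‖k n z - k n w‖ ≤ L * ‖z - w‖)
    (hK : ∀ z ∈ S, ∀ w ∈ S, ‖K z - K w‖ ≤ L * ‖z - w‖)
    (hlim : ∀ z ∈ S, Tendsto (fun n => k n z) 𝒰 (𝓝 (K z))) :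
    ∀ ε : ℝ, 0 < ε → ∀ᶠ n in 𝒰, ∀ z ∈ S, ‖k n z - K z‖ ≤ ε := by
  intro ε hε
  set δ : ℝ := ε / (3 * (L + 1)) with hδ
  have hδ0 : 0 < δ := by positivity
  have hLδ : L * δ ≤ ε / 3 := by
    rw [hδ, mul_div_assoc', div_le_div_iff₀ (by positivity) (by norm_num)]
    nlinarith
  obtain ⟨t, htS, htf, htc⟩ := hS.finite_cover_balls hδ0
  have h1 : ∀ᶠ n in 𝒰, ∀ w ∈ t, ‖k n w - K w‖ ≤ ε / 3 := by
    rw [Filter.eventually_all_finite htf]
    intro w hw
    have := (hlim w (htS hw)).eventually (Metric.closedBall_mem_nhds (K w) (show 0 < ε / 3 by positivity))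
    filter_upwards [this] with n hn
    rwa [dist_eq_norm] at hn
  filter_upwards [hk, h1] with n hn1 hn2 z hz
  obtain ⟨w, hw, hzw⟩ := mem_iUnion₂.1 (htc hz)
  have hd : ‖z - w‖ < δ := by rwa [mem_ball, dist_eq_norm] at hzw
  have e1 := hn1 z hz w (htS hw)
  have e2 := hn2 w hw
  have e3 := hK w (htS hw) z hz
  rw [norm_sub_rev w z] at e3
  have e4 : L * ‖z - w‖ ≤ ε / 3 := (mul_le_mul_of_nonneg_left hd.le hL).trans hLδ
  have e5 : k n z - K z = (k n z - k n w) + (k n w - K w) + (K w - K z) := by ring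
  rw [e5]
  calc ‖(k n z - k n w) + (k n w - K w) + (K w - K z)‖
      ≤ ‖k n z - k n w‖ + ‖k n w - K w‖ + ‖K w - K z‖ := norm_add₃_le
    _ ≤ ε := by linarith

/-- the root `k` of `G` of order `T` -/
theorem exists_root {z₀ : ℂ} {R : ℝ} (hR : 0 < R) {G : ℂ → ℂ} {T C : ℝ} (hT : 0 < T)
    (hG : AnalyticOnNhd ℂ G (closedBall z₀ R)) (hG0 : ∀ z ∈ closedBall z₀ R, G z ≠ 0)
    (hC : ∫ z in closedBall z₀ R, |Real.log ‖G z‖| ≤ C * T) :
    ∃ k : ℂ → ℂ, AnalyticOnNhd ℂ k (ball z₀ R) ∧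
      (∀ z ∈ ball z₀ R, Real.log ‖k z‖ = Real.log ‖G z‖ / T) ∧
      ∀ z ∈ closedBall z₀ (7 / 8 * R),
        Real.exp (-(C / (Real.pi * (R / 8) ^ 2))) ≤ ‖k z‖ ∧ ‖k z‖ ≤ Real.exp (C / (Real.pi * (R / 8) ^ 2)) := by
  have hpi := Real.pi_pos
  have hharm : InnerProductSpace.HarmonicOnNhd (fun z => T⁻¹ * Real.log ‖G z‖) (ball z₀ R) := by
    intro z hz
    have hz' := ball_subset_closedBall hz
    exact ((hG z hz').harmonicAt_log_norm (hG0 z hz')).const_smul (c := T⁻¹)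
  obtain ⟨F, hF, hFre⟩ := hharm.exists_analyticOnNhd_ball_re_eq
  have hre : ∀ z ∈ ball z₀ R, (F z).re = Real.log ‖G z‖ / T := by
    intro z hz
    have := hFre hz
    simp only at this
    rw [this, div_eq_inv_mul]
  refine ⟨fun z => Complex.exp (F z), fun z hz => (hF z hz).cexp, fun z hz => ?_, fun z hz => ?_⟩
  · rw [Complex.norm_exp, Real.log_exp, hre z hz]
  · have hzb : z ∈ ball z₀ R := by
      rw [mem_closedBall] at hz
      rw [mem_ball]
      linarith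
    have hsub : closedBall z (R / 8) ⊆ closedBall z₀ R := by
      refine closedBall_subset_closedBall' ?_
      rw [mem_closedBall] at hz
      linarith
    have hint : IntegrableOn (fun w => |Real.log ‖G w‖|) (closedBall z₀ R) :=
      (integrableOn_log_mer hG.meromorphicOn).abs
    have h1 := area_mean (show (0 : ℝ) < R / 8 by positivity) (hG.mono hsub) (fun w hw => hG0 w (hsub hw))
    have h2 : |∫ w in closedBall z (R / 8), Real.log ‖G w‖| ≤ C * T := by
      refine le_trans (abs_integral_le_integral_abs) (le_trans ?_ hC)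
      exact setIntegral_mono_set hint (Eventually.of_forall fun _ => abs_nonneg _)
        (LE.le.eventuallyLE hsub)
    rw [h1, abs_mul, abs_of_pos (show 0 < Real.pi * (R / 8) ^ 2 by positivity)] at h2
    have h3 : |Real.log ‖G z‖ / T| ≤ C / (Real.pi * (R / 8) ^ 2) := by
      rw [abs_div, abs_of_pos hT, div_le_div_iff₀ hT (by positivity)]
      linarith
    rw [abs_le] at h3
    rw [Complex.norm_exp, hre z hzb]
    exact ⟨Real.exp_le_exp.2 h3.1, Real.exp_le_exp.2 h3.2⟩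

/-- limits of `log ‖G n‖ / T n` for zero free `G n` -/
theorem log_limit {z₀ : ℂ} {R : ℝ} (hR : 0 < R) (𝒰 : Ultrafilter ℕ) (G : ℕ → ℂ → ℂ) (T : ℕ → ℝ)
    (hT : ∀ᶠ n in (𝒰 : Filter ℕ), 0 < T n)
    (hG : ∀ᶠ n in (𝒰 : Filter ℕ), AnalyticOnNhd ℂ (G n) (closedBall z₀ R) ∧ ∀ z ∈ closedBall z₀ R, G n z ≠ 0)
    (C : ℝ) (hC : ∀ᶠ n in (𝒰 : Filter ℕ), ∫ z in closedBall z₀ R, |Real.log ‖G n z‖| ≤ C * T n) :
    ∃ K : ℂ → ℂ, AnalyticOnNhd ℂ K (ball z₀ (3 / 4 * R)) ∧ (∀ z ∈ ball z₀ (3 / 4 * R), K z ≠ 0) ∧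
      ∀ ε : ℝ, 0 < ε → ∀ᶠ n in (𝒰 : Filter ℕ), ∀ z ∈ closedBall z₀ (R / 2),
        |Real.log ‖G n z‖ / T n - Real.log ‖K z‖| ≤ ε := by
  set B : ℝ := C / (Real.pi * (R / 8) ^ 2) with hB
  -- the roots
  have hex : ∀ n, ∃ k : ℂ → ℂ, (0 < T n ∧ (AnalyticOnNhd ℂ (G n) (closedBall z₀ R) ∧
      ∀ z ∈ closedBall z₀ R, G n z ≠ 0) ∧ ∫ z in closedBall z₀ R, |Real.log ‖G n z‖| ≤ C * T n) →
      AnalyticOnNhd ℂ k (ball z₀ R) ∧
      (∀ z ∈ ball z₀ R, Real.log ‖k z‖ = Real.log ‖G n z‖ / T n) ∧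
      ∀ z ∈ closedBall z₀ (7 / 8 * R), Real.exp (-B) ≤ ‖k z‖ ∧ ‖k z‖ ≤ Real.exp B := by
    intro n
    by_cases h : (0 < T n ∧ (AnalyticOnNhd ℂ (G n) (closedBall z₀ R) ∧
      ∀ z ∈ closedBall z₀ R, G n z ≠ 0) ∧ ∫ z in closedBall z₀ R, |Real.log ‖G n z‖| ≤ C * T n)
    · obtain ⟨k, hk⟩ := exists_root hR h.1 h.2.1.1 h.2.1.2 h.2.2
      exact ⟨k, fun _ => hk⟩
    · exact ⟨fun _ => 0, fun h' => absurd h' h⟩
  choose k hk using hex
  have hk' : ∀ᶠ n in (𝒰 : Filter ℕ), AnalyticOnNhd ℂ (k n) (ball z₀ R) ∧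
      (∀ z ∈ ball z₀ R, Real.log ‖k n z‖ = Real.log ‖G n z‖ / T n) ∧
      ∀ z ∈ closedBall z₀ (7 / 8 * R), Real.exp (-B) ≤ ‖k n z‖ ∧ ‖k n z‖ ≤ Real.exp B := by
    filter_upwards [hT, hG, hC] with n h1 h2 h3 using hk n ⟨h1, h2, h3⟩
  set S : Set ℂ := closedBall z₀ (3 / 4 * R) with hS
  have hS78 : S ⊆ closedBall z₀ (7 / 8 * R) := closedBall_subset_closedBall (by linarith)
  have hSR : S ⊆ ball z₀ R := closedBall_subset_ball (by linarith)
  -- equi-Lipschitz
  set L : ℝ := Real.exp B / (R / 8) with hL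
  have hL0 : 0 ≤ L := by positivity
  have hlip : ∀ᶠ n in (𝒰 : Filter ℕ), ∀ z ∈ S, ∀ w ∈ S, ‖k n z - k n w‖ ≤ L * ‖z - w‖ := by
    filter_upwards [hk'] with n hn z hz w hw
    refine (convex_closedBall z₀ (3 / 4 * R)).norm_image_sub_le_of_norm_deriv_le (𝕜 := ℂ) (f := k n)
      (fun x hx => (hn.1 x (hSR hx)).differentiableAt) (fun x hx => ?_) hw hz
    have hx' : dist x z₀ ≤ 3 / 4 * R := hx
    have hcb : closedBall x (R / 8) ⊆ closedBall z₀ (7 / 8 * R) :=
      closedBall_subset_closedBall' (by linarith)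
    have hcb' : closedBall x (R / 8) ⊆ ball z₀ R :=
      hcb.trans (closedBall_subset_ball (by linarith))
    refine Complex.norm_deriv_le_of_forall_mem_sphere_norm_le (by positivity) ?_ (fun y hy => ?_)
    · refine DifferentiableOn.diffContOnCl ?_
      rw [closure_ball _ (by positivity)]
      exact fun y hy => (hn.1 y (hcb' hy)).differentiableAt.differentiableWithinAt
    · exact (hn.2.2 y (hcb (sphere_subset_closedBall hy))).2
  -- pointwise limits
  have hpt : ∀ z, ∃ y : ℂ, z ∈ S → Tendsto (fun n => k n z) (𝒰 : Filter ℕ) (𝓝 y) := by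
    intro z
    by_cases hz : z ∈ S
    · have h1 : ((𝒰.map (fun n => k n z) : Ultrafilter ℂ) : Filter ℂ) ≤ 𝓟 (closedBall 0 (Real.exp B)) := by
        rw [le_principal_iff, Ultrafilter.coe_map, mem_map]
        filter_upwards [hk'] with n hn
        rw [mem_preimage, mem_closedBall_zero_iff]
        exact (hn.2.2 z (hS78 hz)).2
      obtain ⟨y, -, hy⟩ := (isCompact_closedBall (0 : ℂ) (Real.exp B)).ultrafilter_le_nhds _ h1
      exact ⟨y, fun _ => hy⟩
    · exact ⟨0, fun h => absurd h hz⟩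
  choose K hK using hpt
  have hKlip : ∀ z ∈ S, ∀ w ∈ S, ‖K z - K w‖ ≤ L * ‖z - w‖ := by
    intro z hz w hw
    refine le_of_tendsto ((hK z hz).sub (hK w hw)).norm ?_
    filter_upwards [hlip] with n hn using hn z hz w hw
  have hunif := unif_of_lip (isCompact_closedBall z₀ (3 / 4 * R)) hL0 hlip hKlip hK
  have hKlow : ∀ z ∈ S, Real.exp (-B) ≤ ‖K z‖ := by
    intro z hz
    refine ge_of_tendsto (hK z hz).norm ?_
    filter_upwards [hk'] with n hn using (hn.2.2 z (hS78 hz)).1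
  have htu : TendstoUniformlyOn k K (𝒰 : Filter ℕ) S := by
    rw [Metric.tendstoUniformlyOn_iff]
    intro ε hε
    filter_upwards [hunif (ε / 2) (by positivity)] with n hn z hz
    rw [dist_comm, dist_eq_norm]
    have := hn z hz
    linarith
  have hdiff : DifferentiableOn ℂ K (ball z₀ (3 / 4 * R)) := by
    refine TendstoLocallyUniformlyOn.differentiableOn (F := k) (φ := (𝒰 : Filter ℕ))
      (htu.mono ball_subset_closedBall).tendstoLocallyUniformlyOn ?_ isOpen_ball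
    filter_upwards [hk'] with n hn z hz
    exact (hn.1 z (hSR (ball_subset_closedBall hz))).differentiableAt.differentiableWithinAt
  refine ⟨K, hdiff.analyticOnNhd isOpen_ball, fun z hz h0 => ?_, fun ε hε => ?_⟩
  · have := hKlow z (ball_subset_closedBall hz)
    rw [h0, norm_zero] at this
    exact absurd this (not_le.2 (Real.exp_pos _))
  · filter_upwards [hk', hunif (ε * Real.exp (-B)) (by positivity)] with n hn hn2 z hz
    have hzS : z ∈ S := closedBall_subset_closedBall (by linarith) hz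
    rw [← hn.2.1 z (hSR hzS)]
    refine (abs_log_sub_log_le (Real.exp_pos (-B)) (hn.2.2 z (hS78 hzS)).1 (hKlow z hzS)).trans ?_
    rw [div_le_iff₀ (Real.exp_pos _)]
    exact (abs_norm_sub_norm_le _ _).trans (hn2 z hzS)

end BD46
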