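import Pool.Agent.BD46.Lift2

/-!
Preparations for the local lemma: the function `log max (‖X‖, ‖Q‖)` and its relation to
`near F c` and to `log ‖X - c Q‖`.
-/

set_option autoImplicit false

open MeasureTheory Filter Topology Set Metric

namespace BD46

open DW24 (near cst vv)

/-- `log max (‖X z‖, ‖Q z‖)` -/
noncomputable def Mx (X Q : ℂ → ℂ) (z : ℂ) : ℝ := Real.log (max ‖X z‖ ‖Q z‖)

lemma near_integrableOn {F : ℂ → ℂ} {z : ℂ} {r : ℝ} (hF : MeromorphicOn F (closedBall z r))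
    (c : WithTop ℂ) : IntegrableOn (near F c) (closedBall z r) := by
  cases c with
  | top =>
    have h1 := integrableOn_log_mer hF
    have h2 : near F ⊤ = fun w => max 0 (Real.log ‖F w‖) := by
      funext w; rw [DW24.near_top]; rfl
    rw [h2]
    exact (integrable_zero _ _ _).sup h1
  | coe c =>
    have hm : MeromorphicOn (fun w => F w - c) (closedBall z r) := fun w hw =>
      (hF w hw).sub (MeromorphicAt.const c w)
    have h1 := integrableOn_log_mer hm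
    have h2 : near F (c : WithTop ℂ) = fun w => max 0 (-(Real.log ‖F w - c‖)) := by
      funext w
      rw [DW24.near_coe, Real.posLog, Real.log_inv]
    rw [h2]
    exact (integrable_zero _ _ _).sup h1.neg

/-- codiscrete statements hold almost everywhere -/
lemma ae_of_nhdsNE {p : ℂ → Prop} {z : ℂ} {r : ℝ} (h : ∀ w ∈ closedBall z r, ∀ᶠ v in 𝓝[≠] w, p v) :
    ∀ᵐ w ∂(volume.restrict (closedBall z r)), p w := by
  refine ae_restrict_le_codiscreteWithin (μ := volume) measurableSet_closedBall ?_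
  show {w | p w} ∈ codiscreteWithin (closedBall z r)
  rw [mem_codiscreteWithin]
  intro w hw
  rw [disjoint_principal_right]
  filter_upwards [h w hw] with v hv
  simp only [mem_compl_iff, Set.mem_sdiff, not_and, not_not]
  intro _
  exact hv

lemma Y_ne_zero_ae {F X Q : ℂ → ℂ} {z : ℂ} {r : ℝ} (h : IsLift F X Q (closedBall z r))
    (hne : ∀ u ∈ closedBall z r, ∀ c, meromorphicOrderAt (Y X Q c) u ≠ ⊤) (c : WithTop ℂ) :
    ∀ᵐ w ∂(volume.restrict (closedBall z r)), Y X Q c w ≠ 0 := by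
  refine ae_restrict_le_codiscreteWithin (μ := volume) measurableSet_closedBall ?_
  exact (Y_analytic h c).meromorphicOn.eventually_codiscreteWithin_apply_ne_zero (fun x hx => hne x hx c)

lemma posLog_eq_log_max (x : ℝ) (hx : 0 ≤ x) : Real.posLog x = Real.log (max 1 x) :=
  Real.posLog_eq_log_max_one hx

theorem near_lift {F X Q : ℂ → ℂ} {z : ℂ} {r : ℝ} (h : IsLift F X Q (closedBall z r))
    (hne : ∀ u ∈ closedBall z r, ∀ c, meromorphicOrderAt (Y X Q c) u ≠ ⊤) (c : WithTop ℂ) :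
    ∀ᵐ w ∂(volume.restrict (closedBall z r)),
      |near F c w - (Mx X Q w - Real.log ‖Y X Q c w‖)| ≤ cst c := by
  filter_upwards [ae_of_nhdsNE h.eq, Y_ne_zero_ae h hne c] with w hw hw2
  have hQ : 0 < ‖Q w‖ := norm_pos_iff.2 hw.1
  have e1 : Real.posLog ‖F w‖ = Mx X Q w - Real.log ‖Q w‖ := by
    have hmx : 0 < max ‖X w‖ ‖Q w‖ := lt_of_lt_of_le hQ (le_max_right _ _)
    rw [posLog_eq_log_max _ (norm_nonneg _), hw.2, norm_div, Mx, ← Real.log_div hmx.ne' hQ.ne',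
      ← max_div_div_right hQ.le, div_self hQ.ne', max_comm]
  have e2 : vv F c w = Mx X Q w - Real.log ‖Y X Q c w‖ := by
    cases c with
    | top => rw [DW24.vv_top, e1, Y_top]
    | coe a =>
      rw [DW24.vv_coe, e1, Y_coe]
      have h3 : F w - a = (X w - a * Q w) / Q w := by
        rw [hw.2]
        have := hw.1
        field_simp
      have h4 : ‖X w - a * Q w‖ ≠ 0 := norm_ne_zero_iff.2 hw2
      rw [h3, norm_div, Real.log_div h4 hQ.ne']
      ring
  rw [← e2, abs_sub_comm]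
  exact DW24.abs_vv_sub_near F c w

lemma Y_cmp {c c' : WithTop ℂ} (hcc : c ≠ c') : ∃ D : ℝ, 1 ≤ D ∧ ∀ (X Q : ℂ → ℂ) (z : ℂ),
    max ‖X z‖ ‖Q z‖ ≤ D * max ‖Y X Q c z‖ ‖Y X Q c' z‖ := by
  have key : ∀ a : ℂ, ∀ x q : ℂ, max ‖x‖ ‖q‖ ≤ (1 + ‖a‖) * max ‖q‖ ‖x - a * q‖ := by
    intro a x q
    have h0 : 0 ≤ ‖a‖ := norm_nonneg a
    have h1 : ‖q‖ ≤ max ‖q‖ ‖x - a * q‖ := le_max_left _ _
    have h2 : ‖x - a * q‖ ≤ max ‖q‖ ‖x - a * q‖ := le_max_right _ _
    have h3 : ‖x‖ ≤ ‖x - a * q‖ + ‖a‖ * ‖q‖ := by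
      have := norm_add_le (x - a * q) (a * q)
      rwa [sub_add_cancel, norm_mul] at this
    have h4 : ‖a‖ * ‖q‖ ≤ ‖a‖ * max ‖q‖ ‖x - a * q‖ := mul_le_mul_of_nonneg_left h1 h0
    have h5 : 0 ≤ max ‖q‖ ‖x - a * q‖ := le_max_of_le_left (norm_nonneg _)
    have h6 : 0 ≤ ‖a‖ * max ‖q‖ ‖x - a * q‖ := mul_nonneg h0 h5
    refine max_le ?_ ?_ <;> linarith
  cases c with
  | top =>
    cases c' with
    | top => exact absurd rfl hcc
    | coe a =>
      refine ⟨1 + ‖a‖, by have := norm_nonneg a; linarith, fun X Q z => ?_⟩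
      exact key a (X z) (Q z)
  | coe a =>
    cases c' with
    | top =>
      refine ⟨1 + ‖a‖, by have := norm_nonneg a; linarith, fun X Q z => ?_⟩
      rw [max_comm ‖Y X Q (a : WithTop ℂ) z‖]
      exact key a (X z) (Q z)
    | coe b =>
      have hab : a ≠ b := fun h => hcc (by rw [h])
      have hd : 0 < ‖b - a‖ := norm_pos_iff.2 (sub_ne_zero.2 hab.symm)
      refine ⟨1 + (1 + ‖a‖) * (2 / ‖b - a‖), by
        have := norm_nonneg a
        have : 0 ≤ (1 + ‖a‖) * (2 / ‖b - a‖) := by positivity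
        linarith, fun X Q z => ?_⟩
      simp only [Y_coe]
      set m := max ‖X z - a * Q z‖ ‖X z - b * Q z‖ with hm
      have h1 : ‖X z - a * Q z‖ ≤ m := le_max_left _ _
      have h2 : ‖X z - b * Q z‖ ≤ m := le_max_right _ _
      have hm0 : 0 ≤ m := (norm_nonneg _).trans h1
      have h3 : ‖Q z‖ * ‖b - a‖ ≤ 2 * m := by
        rw [← norm_mul]
        have e : Q z * (b - a) = (X z - a * Q z) - (X z - b * Q z) := by ring
        rw [e]
        exact (norm_sub_le _ _).trans (by linarith)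
      have h4 : ‖Q z‖ ≤ 2 / ‖b - a‖ * m := by
        rw [div_mul_eq_mul_div, le_div_iff₀ hd]
        exact h3
      have h5 : ‖X z‖ ≤ ‖X z - a * Q z‖ + ‖a‖ * ‖Q z‖ := by
        have := norm_add_le (X z - a * Q z) (a * Q z)
        rwa [sub_add_cancel, norm_mul] at this
      have h6 := mul_le_mul_of_nonneg_left h4 (norm_nonneg a)
      have h7 : 0 ≤ 2 / ‖b - a‖ * m := by positivity
      have h8 : 0 ≤ ‖a‖ * (2 / ‖b - a‖ * m) := by positivity
      refine max_le ?_ ?_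
      · nlinarith
      · nlinarith

lemma Y_le (c : WithTop ℂ) : ∃ D : ℝ, 1 ≤ D ∧ ∀ (X Q : ℂ → ℂ) (z : ℂ),
    ‖Y X Q c z‖ ≤ D * max ‖X z‖ ‖Q z‖ := by
  cases c with
  | top =>
    refine ⟨1, le_rfl, fun X Q z => ?_⟩
    rw [Y_top, one_mul]
    exact le_max_right _ _
  | coe a =>
    refine ⟨1 + ‖a‖, by have := norm_nonneg a; linarith, fun X Q z => ?_⟩
    rw [Y_coe]
    have h1 : ‖X z - a * Q z‖ ≤ ‖X z‖ + ‖a‖ * ‖Q z‖ := by
      refine (norm_sub_le _ _).trans (le_of_eq ?_)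
      rw [norm_mul]
    have h2 : ‖a‖ * ‖Q z‖ ≤ ‖a‖ * max ‖X z‖ ‖Q z‖ :=
      mul_le_mul_of_nonneg_left (le_max_right _ _) (norm_nonneg a)
    have h3 := le_max_left ‖X z‖ ‖Q z‖
    linarith

lemma log_max_eq {x y : ℝ} (hx : 0 < x) (hy : 0 < y) : Real.log (max x y) = max (Real.log x) (Real.log y) := by
  rcases le_total x y with h | h
  · rw [max_eq_right h, max_eq_right (Real.log_le_log hx h)]
  · rw [max_eq_left h, max_eq_left (Real.log_le_log hy h)]

/-- `log max (‖X‖, ‖Q‖)` is the maximum of any two `log ‖X - c Q‖`, up to a constant -/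
lemma Mx_cmp {c c' : WithTop ℂ} (hcc : c ≠ c') : ∃ C : ℝ, 0 ≤ C ∧ ∀ (X Q : ℂ → ℂ) (z : ℂ),
    Y X Q c z ≠ 0 → Y X Q c' z ≠ 0 →
    |Mx X Q z - max (Real.log ‖Y X Q c z‖) (Real.log ‖Y X Q c' z‖)| ≤ C := by
  obtain ⟨D, hD, h1⟩ := Y_cmp hcc
  obtain ⟨D₁, hD₁, h2⟩ := Y_le c
  obtain ⟨D₂, hD₂, h3⟩ := Y_le c'
  refine ⟨Real.log D + Real.log D₁ + Real.log D₂, add_nonneg (add_nonneg (Real.log_nonneg hD)
    (Real.log_nonneg hD₁)) (Real.log_nonneg hD₂), fun X Q z hc hc' => ?_⟩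
  have p1 : 0 < ‖Y X Q c z‖ := norm_pos_iff.2 hc
  have p2 : 0 < ‖Y X Q c' z‖ := norm_pos_iff.2 hc'
  have a1 := h1 X Q z
  have a2 := h2 X Q z
  have a3 := h3 X Q z
  have l1 := Real.log_nonneg hD
  have l2 := Real.log_nonneg hD₁
  have l3 := Real.log_nonneg hD₂
  have pm : 0 < max ‖X z‖ ‖Q z‖ := by
    by_contra hcon
    have h4 : max ‖X z‖ ‖Q z‖ ≤ 0 := not_lt.1 hcon
    have : ‖Y X Q c z‖ ≤ D₁ * 0 := a2.trans (mul_le_mul_of_nonneg_left h4 (by linarith))
    linarith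
  have b1 : Mx X Q z ≤ Real.log D + max (Real.log ‖Y X Q c z‖) (Real.log ‖Y X Q c' z‖) := by
    rw [← log_max_eq p1 p2, ← Real.log_mul (by linarith) (lt_of_lt_of_le p1 (le_max_left _ _)).ne', Mx]
    exact Real.log_le_log pm a1
  have b2 : Real.log ‖Y X Q c z‖ ≤ Real.log D₁ + Mx X Q z := by
    rw [Mx, ← Real.log_mul (by linarith) pm.ne']
    exact Real.log_le_log p1 a2
  have b3 : Real.log ‖Y X Q c' z‖ ≤ Real.log D₂ + Mx X Q z := by
    rw [Mx, ← Real.log_mul (by linarith) pm.ne']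
    exact Real.log_le_log p2 a3
  rw [abs_le]
  constructor
  · rw [neg_le_sub_iff_le_add]
    exact max_le (by linarith) (by linarith)
  · linarith

end BD46
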