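import Pool.Agent.BD46.Defs

/-!
If the product of the three real analytic functions `log ‖K‖ - log ‖L‖`, `log ‖K‖`, `log ‖L‖`
vanishes on a disc then one of them vanishes identically.
-/

set_option autoImplicit false

open MeasureTheory Filter Topology Set Metric ValueDistribution

namespace BD46

open DW24 (near)

lemma analytic_log_norm {K : ℂ → ℂ} {z : ℂ} (hK : AnalyticAt ℂ K z) (hK0 : K z ≠ 0) :
    AnalyticAt ℝ (fun z => Real.log ‖K z‖) z :=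
  HarmonicAt.analyticAt (hK.harmonicAt_log_norm hK0)

/-- three real analytic functions with product zero -/
lemma three_zero {f g h : ℂ → ℝ} {U : Set ℂ} (hU : IsOpen U) (hc : IsPreconnected U)
    (hf : AnalyticOnNhd ℝ f U) (hg : AnalyticOnNhd ℝ g U) (hh : AnalyticOnNhd ℝ h U)
    (hz : ∀ z ∈ U, f z = 0 ∨ g z = 0 ∨ h z = 0) :
    (∀ z ∈ U, f z = 0) ∨ (∀ z ∈ U, g z = 0) ∨ (∀ z ∈ U, h z = 0) := by
  by_cases h1 : ∀ z ∈ U, f z = 0
  · exact Or.inl h1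
  by_cases h2 : ∀ z ∈ U, g z = 0
  · exact Or.inr (Or.inl h2)
  right; right
  push Not at h1
  obtain ⟨z₁, hz₁, hf₁⟩ := h1
  have e1 : ∀ᶠ z in 𝓝 z₁, z ∈ U ∧ f z ≠ 0 :=
    Filter.Eventually.and (hU.mem_nhds hz₁) ((hf z₁ hz₁).continuousAt.eventually_ne hf₁)
  have e2 : ∃ᶠ z in 𝓝 z₁, g z ≠ 0 := by
    intro hcon
    apply h2
    have h3 : g =ᶠ[𝓝 z₁] 0 := by
      filter_upwards [hcon] with z hz
      simpa using hz
    exact hg.eqOn_zero_of_preconnected_of_eventuallyEq_zero hc hz₁ h3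
  obtain ⟨z₂, hg₂, hz₂, hf₂⟩ := (e2.and_eventually e1).exists
  have e3 : h =ᶠ[𝓝 z₂] 0 := by
    filter_upwards [hU.mem_nhds hz₂, (hf z₂ hz₂).continuousAt.eventually_ne hf₂,
      (hg z₂ hz₂).continuousAt.eventually_ne hg₂] with z h3 h4 h5
    rcases hz z h3 with h6 | h6 | h6
    · exact absurd h6 h4
    · exact absurd h6 h5
    · exact h6
  exact hh.eqOn_zero_of_preconnected_of_eventuallyEq_zero hc hz₂ e3

theorem three_harmonic {z₀ : ℂ} {R : ℝ} (_hR : 0 < R) {K L : ℂ → ℂ}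
    (hK : AnalyticOnNhd ℂ K (ball z₀ R)) (hK0 : ∀ z ∈ ball z₀ R, K z ≠ 0)
    (hL : AnalyticOnNhd ℂ L (ball z₀ R)) (hL0 : ∀ z ∈ ball z₀ R, L z ≠ 0)
    (h : ∀ z ∈ ball z₀ R, Real.log ‖K z‖ = Real.log ‖L z‖ ∨ Real.log ‖K z‖ = 0 ∨ Real.log ‖L z‖ = 0) :
    (∀ z ∈ ball z₀ R, Real.log ‖K z‖ = Real.log ‖L z‖) ∨ (∀ z ∈ ball z₀ R, Real.log ‖K z‖ = 0) ∨
      (∀ z ∈ ball z₀ R, Real.log ‖L z‖ = 0) := by
  have hf : AnalyticOnNhd ℝ (fun z => Real.log ‖K z‖ - Real.log ‖L z‖) (ball z₀ R) := fun z hz =>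
    (analytic_log_norm (hK z hz) (hK0 z hz)).sub (analytic_log_norm (hL z hz) (hL0 z hz))
  rcases three_zero isOpen_ball (convex_ball z₀ R).isPreconnected hf
    (fun z hz => analytic_log_norm (hK z hz) (hK0 z hz))
    (fun z hz => analytic_log_norm (hL z hz) (hL0 z hz))
    (fun z hz => by
      rcases h z hz with h1 | h1 | h1
      · exact Or.inl (sub_eq_zero.2 h1)
      · exact Or.inr (Or.inl h1)
      · exact Or.inr (Or.inr h1)) with h1 | h1 | h1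
  · exact Or.inl fun z hz => sub_eq_zero.1 (h1 z hz)
  · exact Or.inr (Or.inl h1)
  · exact Or.inr (Or.inr h1)

end BD46
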