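import Pool.Agent.BD46.Loc0
import Pool.Agent.BD46.Lim
import Pool.Agent.BD46.Three

/-!
The limit of `log max (‖X n‖, ‖Q n‖) / T n` is harmonic if `F n = X n / Q n` takes three values
at `o(T n)` points only.
-/

set_option autoImplicit false

open MeasureTheory Filter Topology Set Metric

namespace BD46

open DW24 (near cst vv)

lemma order_ne_top {F : ℂ → ℂ} (hne : ∀ c : ℂ, ∀ᶠ z in codiscrete ℂ, F z ≠ c) (c u : ℂ) :
    meromorphicOrderAt (fun w => F w - c) u ≠ ⊤ := by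
  intro h
  rw [meromorphicOrderAt_eq_top_iff] at h
  have h1 := hne c
  rw [Filter.eventually_iff, mem_codiscrete] at h1
  have h2 := h1 u
  rw [Filter.disjoint_principal_right, compl_compl] at h2
  obtain ⟨w, hw1, hw2⟩ := (h.and h2).exists
  exact hw2 (sub_eq_zero.1 hw1)

lemma order_ne_top' {F : ℂ → ℂ} (hne : ∀ c : ℂ, ∀ᶠ z in codiscrete ℂ, F z ≠ c) (u : ℂ) :
    meromorphicOrderAt F u ≠ ⊤ := by
  have h := order_ne_top hne 0 u
  simpa using h

lemma lift_order {F X Q : ℂ → ℂ} {K : Set ℂ} (h : IsLift F X Q K)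
    (hne : ∀ c : ℂ, ∀ᶠ z in codiscrete ℂ, F z ≠ c) :
    ∀ u ∈ K, ∀ c, meromorphicOrderAt (Y X Q c) u ≠ ⊤ := by
  intro u hu c htop
  rw [meromorphicOrderAt_eq_top_iff] at htop
  cases c with
  | top =>
    obtain ⟨w, hw1, hw2⟩ := (htop.and (h.eq u hu)).exists
    exact hw2.1 hw1
  | coe a =>
    apply order_ne_top hne a u
    rw [meromorphicOrderAt_eq_top_iff]
    filter_upwards [htop, h.eq u hu] with w hw1 hw2
    rw [Y_coe] at hw1
    rw [hw2.2, sub_eq_zero.1 hw1, mul_div_assoc, div_self hw2.1, mul_one, sub_self]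

lemma exists_lift_norm {F : ℂ → ℂ} {z₀ : ℂ} {R : ℝ} (hR : 0 < R) (hF : Meromorphic F)
    (hne : ∀ c : ℂ, ∀ᶠ z in codiscrete ℂ, F z ≠ c) (c : WithTop ℂ)
    {C : ℝ} (hC0 : 0 ≤ C) (hC : ∀ z u : ℂ, u ∈ closedBall z R →
      ∫ w in closedBall z R, |Real.log ‖w - u‖| ≤ C)
    {ν : ℝ} (hν0 : 0 ≤ ν) :
    ∃ X Q : ℂ → ℂ, IsLift F X Q (closedBall z₀ R) ∧
      (cnt F c (closedBall z₀ R) ≤ ENNReal.ofReal ν →
        ∫ w in closedBall z₀ R, |Real.log ‖Y X Q c w‖| ≤ C * ν) := by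
  obtain ⟨X, Q, hL⟩ := exists_lift hR (fun z _ => hF z) (z₀ := z₀) (fun z _ => order_ne_top' hne z)
  by_cases hν : cnt F c (closedBall z₀ R) ≤ ENNReal.ofReal ν
  · obtain ⟨G, hG, hG0, hGi⟩ := lift_factor hR hL (lift_order hL hne) c hC0 hC hν0 hν
    refine ⟨_, _, hL.scale hG hG0, fun _ => ?_⟩
    refine le_trans (le_of_eq ?_) hGi
    refine integral_congr_ae ?_
    filter_upwards [Y_ne_zero_ae hL (lift_order hL hne) c, ae_restrict_mem measurableSet_closedBall] with w hw hw2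
    have h1 : ‖Y X Q c w‖ ≠ 0 := norm_ne_zero_iff.2 hw
    have h2 : ‖G w‖ ≠ 0 := norm_ne_zero_iff.2 (hG0 w hw2)
    rw [Y_scale, norm_div, Real.log_div h1 h2]
  · exact ⟨X, Q, hL, fun h => absurd h hν⟩

lemma log_Y_integrableOn {F X Q : ℂ → ℂ} {z : ℂ} {r : ℝ} (h : IsLift F X Q (closedBall z r))
    (c : WithTop ℂ) : IntegrableOn (fun w => Real.log ‖Y X Q c w‖) (closedBall z r) :=
  integrableOn_log_mer (Y_analytic h c).meromorphicOn

lemma Mx_integrableOn {F X Q : ℂ → ℂ} {z : ℂ} {r : ℝ} (h : IsLift F X Q (closedBall z r))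
    (hne : ∀ c : ℂ, ∀ᶠ z in codiscrete ℂ, F z ≠ c) : IntegrableOn (Mx X Q) (closedBall z r) := by
  have h1 := (log_Y_integrableOn h ((0 : ℂ) : WithTop ℂ)).sup (log_Y_integrableOn h ⊤)
  refine h1.congr ?_
  filter_upwards [Y_ne_zero_ae h (lift_order h hne) ((0 : ℂ) : WithTop ℂ),
    Y_ne_zero_ae h (lift_order h hne) ⊤] with w hw1 hw2
  show max (Real.log ‖Y X Q ((0 : ℂ) : WithTop ℂ) w‖) (Real.log ‖Y X Q ⊤ w‖) = Mx X Q w
  rw [← log_max_eq (norm_pos_iff.2 hw1) (norm_pos_iff.2 hw2), Mx, Y_coe, Y_top]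
  simp

/-- a.e. difference of two `log ‖X - c Q‖` -/
lemma log_diff {F X Q : ℂ → ℂ} {z : ℂ} {r : ℝ} (h : IsLift F X Q (closedBall z r))
    (hne : ∀ c : ℂ, ∀ᶠ z in codiscrete ℂ, F z ≠ c) (c c' : WithTop ℂ) :
    ∀ᵐ w ∂(volume.restrict (closedBall z r)),
      |Real.log ‖Y X Q c w‖ - Real.log ‖Y X Q c' w‖| ≤ near F c w + near F c' w + (cst c + cst c') := by
  filter_upwards [near_lift h (lift_order h hne) c, near_lift h (lift_order h hne) c'] with w h1 h2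
  rw [abs_le] at h1 h2
  have h3 := DW24.near_nonneg F c w
  have h4 := DW24.near_nonneg F c' w
  rw [abs_le]
  constructor <;> linarith [h1.1, h1.2, h2.1, h2.2]

lemma vol_closedBall_pos (z : ℂ) {r : ℝ} (hr : 0 < r) : 0 < (volume (closedBall z r)).toReal := by
  exact ENNReal.toReal_pos (measure_closedBall_pos volume z hr).ne' measure_closedBall_lt_top.ne

lemma vol_closedBall (z : ℂ) {r : ℝ} (hr : 0 ≤ r) : volume.real (closedBall z r) = Real.pi * r ^ 2 := by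
  rw [Measure.real, Complex.volume_closedBall, ENNReal.toReal_mul, ENNReal.toReal_pow,
    ENNReal.toReal_ofReal hr, mul_comm]
  rfl

lemma log_norm_continuousOn {L : ℂ → ℂ} {U : Set ℂ} (hL : AnalyticOnNhd ℂ L U) (h0 : ∀ z ∈ U, L z ≠ 0) :
    ContinuousOn (fun z => Real.log ‖L z‖) U :=
  hL.continuousOn.norm.log (fun z hz => norm_ne_zero_iff.2 (h0 z hz))

/-- an average of a bounded sequence of integrals -/
lemma L1_tendsto_add {𝒰 : Filter ℕ} {B : Set ℂ} {f g h : ℕ → ℂ → ℝ}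
    (hg : Tendsto (fun n => ∫ z in B, g n z) 𝒰 (𝓝 0)) (hh : Tendsto (fun n => ∫ z in B, h n z) 𝒰 (𝓝 0))
    (hgi : ∀ᶠ n in 𝒰, IntegrableOn (g n) B) (hhi : ∀ᶠ n in 𝒰, IntegrableOn (h n) B)
    (hfi : ∀ᶠ n in 𝒰, IntegrableOn (f n) B)
    (hf0 : ∀ n z, 0 ≤ f n z)
    (hle : ∀ᶠ n in 𝒰, ∀ᵐ z ∂(volume.restrict B), f n z ≤ g n z + h n z) :
    Tendsto (fun n => ∫ z in B, f n z) 𝒰 (𝓝 0) := by
  have h1 : Tendsto (fun n => (∫ z in B, g n z) + ∫ z in B, h n z) 𝒰 (𝓝 0) := by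
    simpa using hg.add hh
  refine tendsto_of_tendsto_of_tendsto_of_le_of_le' tendsto_const_nhds h1
    (Eventually.of_forall fun n => integral_nonneg (hf0 n)) ?_
  filter_upwards [hgi, hhi, hfi, hle] with n a1 a2 a3 a4
  rw [← integral_add a1 a2]
  exact integral_mono_ae a3 (a1.add a2) a4

end BD46
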