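import Pool.Agent.BD46.Loc1

/-!
The limit of `log max (‖X n‖, ‖Q n‖) / T n` is harmonic if `F n = X n / Q n` takes three values
at `o(T n)` points only.
-/

set_option autoImplicit false

open MeasureTheory Filter Topology Set Metric

namespace BD46

open DW24 (near cst vv)

theorem exists_limit {z₀ : ℂ} {R : ℝ} (hR : 0 < R) (𝒰 : Ultrafilter ℕ) (F : ℕ → ℂ → ℂ)
    (hF : ∀ n, Meromorphic (F n)) (hne : ∀ n, ∀ c : ℂ, ∀ᶠ z in codiscrete ℂ, F n z ≠ c)
    (T : ℕ → ℝ) (hT : Tendsto T 𝒰 atTop) (A : Fin 3 → WithTop ℂ) (hA : Function.Injective A)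
    (hB : ∀ j, ∃ C, ∀ᶠ n in (𝒰 : Filter ℕ), ∫ z in closedBall z₀ R, near (F n) (A j) z ≤ C * T n)
    (hN : ∀ j, Tendsto (fun n => cnt (F n) (A j) (closedBall z₀ R) / ENNReal.ofReal (T n)) 𝒰 (𝓝 0)) :
    ∃ (X Q : ℕ → ℂ → ℂ) (L : ℂ → ℂ), (∀ n, IsLift (F n) (X n) (Q n) (closedBall z₀ R)) ∧
      AnalyticOnNhd ℂ L (ball z₀ (R / 2)) ∧ (∀ z ∈ ball z₀ (R / 2), L z ≠ 0) ∧
      Tendsto (fun n => ∫ z in closedBall z₀ (3 / 8 * R),
        |Mx (X n) (Q n) z / T n - Real.log ‖L z‖|) 𝒰 (𝓝 0) := by
  set K := closedBall z₀ R with hK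
  set B := closedBall z₀ (R / 2) with hBdef
  have hBK : B ⊆ K := closedBall_subset_closedBall (by linarith)
  have hTpos : ∀ᶠ n in (𝒰 : Filter ℕ), 0 < T n := hT.eventually_gt_atTop 0
  have hT1 : ∀ᶠ n in (𝒰 : Filter ℕ), 1 ≤ T n := hT.eventually_ge_atTop 1
  have hTinv : Tendsto (fun n => 1 / T n) 𝒰 (𝓝 0) := by
    have := hT.inv_tendsto_atTop
    simp only [one_div]
    exact this
  set ν : ℕ → ℝ := fun n => ∑ j, (cnt (F n) (A j) K).toReal with hνd
  have hν0 : ∀ n, 0 ≤ ν n := fun n => Finset.sum_nonneg fun j _ => ENNReal.toReal_nonneg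
  have hfin : ∀ j, ∀ᶠ n in (𝒰 : Filter ℕ), cnt (F n) (A j) K ≠ ⊤ := by
    intro j
    filter_upwards [(hN j).eventually_lt_const one_pos] with n hn htop
    rw [htop, ENNReal.top_div_of_ne_top ENNReal.ofReal_ne_top] at hn
    exact absurd hn (by simp)
  have hcnt : ∀ j, ∀ᶠ n in (𝒰 : Filter ℕ), cnt (F n) (A j) K ≤ ENNReal.ofReal (ν n) := by
    intro j
    filter_upwards [hfin j] with n hn
    rw [← ENNReal.ofReal_toReal hn]
    exact ENNReal.ofReal_le_ofReal (Finset.single_le_sum
      (f := fun j => (cnt (F n) (A j) K).toReal) (fun i _ => ENNReal.toReal_nonneg) (Finset.mem_univ j))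
  have hνT : Tendsto (fun n => ν n / T n) 𝒰 (𝓝 0) := by
    have h1 : ∀ j, Tendsto (fun n => (cnt (F n) (A j) K / ENNReal.ofReal (T n)).toReal) 𝒰 (𝓝 0) := by
      intro j
      exact (ENNReal.tendsto_toReal ENNReal.zero_ne_top).comp (hN j)
    have h2 : Tendsto (fun n => ∑ j, (cnt (F n) (A j) K / ENNReal.ofReal (T n)).toReal) 𝒰 (𝓝 0) := by
      have := tendsto_finsetSum Finset.univ fun j _ => h1 j
      simpa using this
    refine h2.congr' ?_
    filter_upwards [hTpos] with n hn
    simp only [hνd, Finset.sum_div]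
    refine Finset.sum_congr rfl fun j _ => ?_
    rw [ENNReal.toReal_div, ENNReal.toReal_ofReal hn.le]
  obtain ⟨C, hC0, hC⟩ := exists_log_const R
  choose X Q hL hX2 using fun n => exists_lift_norm (z₀ := z₀) hR (hF n) (hne n) (A 2) hC0 hC (hν0 n)
  have hord : ∀ n, ∀ u ∈ K, ∀ c, meromorphicOrderAt (Y (X n) (Q n) c) u ≠ ⊤ := fun n =>
    lift_order (hL n) (hne n)
  have hYi : ∀ n c, IntegrableOn (fun w => Real.log ‖Y (X n) (Q n) c w‖) K := fun n c =>
    log_Y_integrableOn (hL n) c
  -- the limits of `log ‖Y (A j)‖ / T`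
  have hlim : ∀ j : Fin 3, ∃ L : ℂ → ℂ, AnalyticOnNhd ℂ L (ball z₀ (3 / 4 * R)) ∧
      (∀ z ∈ ball z₀ (3 / 4 * R), L z ≠ 0) ∧ (j = 2 → ∀ z, L z = 1) ∧
      Tendsto (fun n => ∫ z in B, |Real.log ‖Y (X n) (Q n) (A j) z‖ / T n - Real.log ‖L z‖|) 𝒰 (𝓝 0) := by
    intro j
    by_cases hj : j = 2
    · refine ⟨fun _ => 1, fun z _ => analyticAt_const, fun z _ => one_ne_zero, fun _ _ => rfl, ?_⟩
      have h1 : Tendsto (fun n => C * (ν n / T n)) 𝒰 (𝓝 0) := by simpa using hνT.const_mul C
      refine tendsto_of_tendsto_of_tendsto_of_le_of_le' tendsto_const_nhds h1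
        (Eventually.of_forall fun n => integral_nonneg fun z => abs_nonneg _) ?_
      filter_upwards [hcnt 2, hTpos] with n hn hn2
      subst hj
      have h2 := hX2 n hn
      have h3 : ∀ z, |Real.log ‖Y (X n) (Q n) (A 2) z‖ / T n - Real.log ‖(1 : ℂ)‖|
          = |Real.log ‖Y (X n) (Q n) (A 2) z‖| / T n := by
        intro z
        rw [norm_one, Real.log_one, sub_zero, abs_div, abs_of_pos hn2]
      simp only [h3]
      rw [integral_div, ← mul_div_assoc]
      refine div_le_div_of_nonneg_right (le_trans ?_ h2) hn2.le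
      exact setIntegral_mono_set (hYi n (A 2)).abs (Eventually.of_forall fun z => abs_nonneg _)
        (LE.le.eventuallyLE hBK)
    · have hG : ∀ n, ∃ G : ℂ → ℂ, cnt (F n) (A j) K ≤ ENNReal.ofReal (ν n) →
          (AnalyticOnNhd ℂ G K ∧ (∀ z ∈ K, G z ≠ 0) ∧
            ∫ w in K, |Real.log ‖Y (X n) (Q n) (A j) w‖ - Real.log ‖G w‖| ≤ C * ν n) := by
        intro n
        by_cases hn : cnt (F n) (A j) K ≤ ENNReal.ofReal (ν n)
        · obtain ⟨G, hG1, hG2, hG3⟩ := lift_factor hR (hL n) (hord n) (A j) hC0 hC (hν0 n) hn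
          exact ⟨G, fun _ => ⟨hG1, hG2, hG3⟩⟩
        · exact ⟨0, fun h => absurd h hn⟩
      choose G hG using hG
      have hGi : ∀ᶠ n in (𝒰 : Filter ℕ), IntegrableOn (fun w => Real.log ‖G n w‖) K := by
        filter_upwards [hcnt j] with n hn
        exact integrableOn_log_mer (hG n hn).1.meromorphicOn
      obtain ⟨Cj, hCj⟩ := hB j
      obtain ⟨C2, hC2⟩ := hB 2
      set V := volume.real K with hV
      have hbound : ∀ᶠ n in (𝒰 : Filter ℕ), ∫ w in K, |Real.log ‖G n w‖|
          ≤ (2 * C + (Cj + C2) + (cst (A j) + cst (A 2)) * V) * T n := by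
        filter_upwards [hcnt j, hcnt 2, hGi, hCj, hC2, hT1, hνT.eventually_lt_const one_pos, hTpos]
          with n a1 a2 a3 a4 a5 a6 a7 a8
        obtain ⟨-, -, b1⟩ := hG n a1
        have b2 := hX2 n a2
        have i1 : IntegrableOn (fun w => |Real.log ‖Y (X n) (Q n) (A j) w‖ - Real.log ‖G n w‖|) K :=
          ((hYi n (A j)).sub a3).abs
        have i2 : IntegrableOn (fun w => |Real.log ‖Y (X n) (Q n) (A 2) w‖|) K := (hYi n (A 2)).abs
        have i3 : IntegrableOn (near (F n) (A j)) K := near_integrableOn (fun z _ => hF n z) (A j)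
        have i4 : IntegrableOn (near (F n) (A 2)) K := near_integrableOn (fun z _ => hF n z) (A 2)
        have i5 : IntegrableOn (fun _ : ℂ => cst (A j) + cst (A 2)) K :=
          (integrableOn_const_iff).2 (Or.inr measure_closedBall_lt_top)
        have e1 : ∫ w in K, |Real.log ‖G n w‖| ≤ ∫ w in K,
            (((|Real.log ‖Y (X n) (Q n) (A j) w‖ - Real.log ‖G n w‖|
              + |Real.log ‖Y (X n) (Q n) (A 2) w‖|) + (near (F n) (A j) w + near (F n) (A 2) w))
              + (cst (A j) + cst (A 2))) := by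
          refine integral_mono_ae a3.abs (((i1.add i2).add (i3.add i4)).add i5) ?_
          filter_upwards [log_diff (hL n) (hne n) (A j) (A 2)] with w hw
          have t1 : |Real.log ‖G n w‖| ≤ |Real.log ‖Y (X n) (Q n) (A j) w‖ - Real.log ‖G n w‖|
              + |Real.log ‖Y (X n) (Q n) (A j) w‖ - Real.log ‖Y (X n) (Q n) (A 2) w‖|
              + |Real.log ‖Y (X n) (Q n) (A 2) w‖| := by
            set p := Real.log ‖G n w‖
            set q := Real.log ‖Y (X n) (Q n) (A j) w‖
            set s := Real.log ‖Y (X n) (Q n) (A 2) w‖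
            have e : p = -(q - p) + (q - s) + s := by ring
            calc |p| = |-(q - p) + (q - s) + s| := by rw [← e]
              _ ≤ |-(q - p) + (q - s)| + |s| := abs_add_le _ _
              _ ≤ (|-(q - p)| + |q - s|) + |s| := add_le_add (abs_add_le _ _) le_rfl
              _ = _ := by rw [abs_neg]
          linarith
        have e2 : ∫ w in K, (((|Real.log ‖Y (X n) (Q n) (A j) w‖ - Real.log ‖G n w‖|
              + |Real.log ‖Y (X n) (Q n) (A 2) w‖|) + (near (F n) (A j) w + near (F n) (A 2) w))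
              + (cst (A j) + cst (A 2)))
            = ((∫ w in K, |Real.log ‖Y (X n) (Q n) (A j) w‖ - Real.log ‖G n w‖|)
              + ∫ w in K, |Real.log ‖Y (X n) (Q n) (A 2) w‖|)
              + ((∫ w in K, near (F n) (A j) w) + ∫ w in K, near (F n) (A 2) w)
              + V * (cst (A j) + cst (A 2)) := by
          have i12 : IntegrableOn (fun w => |Real.log ‖Y (X n) (Q n) (A j) w‖ - Real.log ‖G n w‖|
              + |Real.log ‖Y (X n) (Q n) (A 2) w‖|) K := i1.add i2
          have i34 : IntegrableOn (fun w => near (F n) (A j) w + near (F n) (A 2) w) K := i3.add i4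
          have i1234 : IntegrableOn (fun w => (|Real.log ‖Y (X n) (Q n) (A j) w‖ - Real.log ‖G n w‖|
              + |Real.log ‖Y (X n) (Q n) (A 2) w‖|) + (near (F n) (A j) w + near (F n) (A 2) w)) K := i12.add i34
          rw [integral_add i1234 i5, integral_add i12 i34,
            integral_add i1 i2, integral_add i3 i4, setIntegral_const, smul_eq_mul]
        rw [e2] at e1
        rw [div_lt_one a8] at a7
        have c1 : C * ν n ≤ C * T n := mul_le_mul_of_nonneg_left a7.le hC0
        have c2 : V * (cst (A j) + cst (A 2)) ≤ V * (cst (A j) + cst (A 2)) * T n := by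
          refine le_mul_of_one_le_right ?_ a6
          exact mul_nonneg measureReal_nonneg (add_nonneg (DW24.cst_nonneg _) (DW24.cst_nonneg _))
        nlinarith
      obtain ⟨L, hLa, hL0, hLu⟩ := log_limit hR 𝒰 G T hTpos
        (by filter_upwards [hcnt j] with n hn; exact ⟨(hG n hn).1, (hG n hn).2.1⟩) _ hbound
      refine ⟨L, hLa, hL0, fun h => absurd h hj, ?_⟩
      have hLc : ContinuousOn (fun z => Real.log ‖L z‖) B := by
        refine (log_norm_continuousOn hLa hL0).mono fun z hz => ?_
        exact closedBall_subset_ball (by linarith) hz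
      have hLi : IntegrableOn (fun z => Real.log ‖L z‖) B := hLc.integrableOn_compact (isCompact_closedBall _ _)
      have hg : Tendsto (fun n => ∫ z in B,
          |Real.log ‖Y (X n) (Q n) (A j) z‖ - Real.log ‖G n z‖| / T n) 𝒰 (𝓝 0) := by
        have h1 : Tendsto (fun n => C * (ν n / T n)) 𝒰 (𝓝 0) := by simpa using hνT.const_mul C
        refine tendsto_of_tendsto_of_tendsto_of_le_of_le' tendsto_const_nhds h1 ?_ ?_
        · filter_upwards [hTpos] with n hn
          exact integral_nonneg fun z => div_nonneg (abs_nonneg _) hn.le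
        filter_upwards [hcnt j, hGi, hTpos] with n hn hn1 hn2
        rw [integral_div, ← mul_div_assoc]
        refine div_le_div_of_nonneg_right (le_trans ?_ (hG n hn).2.2) hn2.le
        exact setIntegral_mono_set ((hYi n (A j)).sub hn1).abs (Eventually.of_forall fun z => abs_nonneg _)
          (LE.le.eventuallyLE hBK)
      have hh : Tendsto (fun n => ∫ z in B, |Real.log ‖G n z‖ / T n - Real.log ‖L z‖|) 𝒰 (𝓝 0) := by
        rw [Metric.tendsto_nhds]
        intro ε hε
        have hVB : 0 ≤ volume.real B := measureReal_nonneg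
        filter_upwards [hLu (ε / 2 / (volume.real B + 1)) (by positivity), hGi] with n hn hn1
        rw [Real.dist_eq, sub_zero, abs_of_nonneg (integral_nonneg fun z => abs_nonneg _)]
        have h1 : ∫ z in B, |Real.log ‖G n z‖ / T n - Real.log ‖L z‖|
            ≤ ∫ _z in B, ε / 2 / (volume.real B + 1) := by
          refine setIntegral_mono_on ?_ ?_ measurableSet_closedBall hn
          · exact (((hn1.mono_set hBK).div_const (T n)).sub hLi).abs
          · exact (integrableOn_const_iff).2 (Or.inr measure_closedBall_lt_top)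
        refine lt_of_le_of_lt h1 ?_
        rw [setIntegral_const, smul_eq_mul]
        have h2 : volume.real B * (ε / 2 / (volume.real B + 1)) ≤ ε / 2 := by
          rw [mul_div_assoc', div_le_iff₀ (by linarith)]
          nlinarith
        linarith
      refine L1_tendsto_add hg hh ?_ ?_ ?_ (fun n z => abs_nonneg _) ?_
      · filter_upwards [hGi] with n hn
        have h5 : IntegrableOn (fun z => |Real.log ‖Y (X n) (Q n) (A j) z‖ - Real.log ‖G n z‖| / T n) K :=
          ((hYi n (A j)).sub hn).abs.div_const _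
        exact h5.mono_set hBK
      · filter_upwards [hGi] with n hn
        exact (((hn.mono_set hBK).div_const (T n)).sub hLi).abs
      · exact Eventually.of_forall fun n => ((((hYi n (A j)).mono_set hBK).div_const (T n)).sub hLi).abs
      · filter_upwards [hTpos] with n hn
        refine Eventually.of_forall fun z => ?_
        set p := Real.log ‖G n z‖
        set q := Real.log ‖Y (X n) (Q n) (A j) z‖
        set s := Real.log ‖L z‖
        have e : q / T n - s = (q - p) / T n + (p / T n - s) := by ring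
        calc |q / T n - s| = |(q - p) / T n + (p / T n - s)| := by rw [← e]
          _ ≤ |(q - p) / T n| + |p / T n - s| := abs_add_le _ _
          _ = |q - p| / T n + |p / T n - s| := by rw [abs_div, abs_of_pos hn]
  choose L hLa hL0 hL2 hLt using hlim
  have hball : B ⊆ ball z₀ (3 / 4 * R) := closedBall_subset_ball (by linarith)
  have hLc : ∀ j, ContinuousOn (fun z => Real.log ‖L j z‖) B := fun j =>
    (log_norm_continuousOn (hLa j) (hL0 j)).mono hball
  have hLi : ∀ j, IntegrableOn (fun z => Real.log ‖L j z‖) B := fun j =>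
    (hLc j).integrableOn_compact (isCompact_closedBall _ _)
  have hMi : ∀ n, IntegrableOn (Mx (X n) (Q n)) K := fun n => Mx_integrableOn (hL n) (hne n)
  have hYTi : ∀ n j, IntegrableOn (fun z => |Real.log ‖Y (X n) (Q n) (A j) z‖ / T n - Real.log ‖L j z‖|) B :=
    fun n j => ((((hYi n (A j)).mono_set hBK).div_const (T n)).sub (hLi j)).abs
  have hmaxi : ∀ i j, IntegrableOn (fun z => max (Real.log ‖L i z‖) (Real.log ‖L j z‖)) B :=
    fun i j => (hLi i).sup (hLi j)
  -- pairs
  have hpair : ∀ i j : Fin 3, i ≠ j → Tendsto (fun n => ∫ z in B,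
      |Mx (X n) (Q n) z / T n - max (Real.log ‖L i z‖) (Real.log ‖L j z‖)|) 𝒰 (𝓝 0) := by
    intro i j hij
    obtain ⟨C₁, hC₁0, hC₁⟩ := Mx_cmp (fun h => hij (hA h) : A i ≠ A j)
    have hc : Tendsto (fun n => ∫ _z in B, C₁ / T n) 𝒰 (𝓝 0) := by
      have e : (fun n => ∫ _z in B, C₁ / T n) = fun n => (volume.real B * C₁) * (1 / T n) := by
        funext n
        rw [setIntegral_const, smul_eq_mul]
        ring
      rw [e]
      simpa using hTinv.const_mul (volume.real B * C₁)
    have h2 : Tendsto (fun n => ∫ z in B, (|Real.log ‖Y (X n) (Q n) (A i) z‖ / T n - Real.log ‖L i z‖|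
        + |Real.log ‖Y (X n) (Q n) (A j) z‖ / T n - Real.log ‖L j z‖|)) 𝒰 (𝓝 0) := by
      have e : (fun n => ∫ z in B, (|Real.log ‖Y (X n) (Q n) (A i) z‖ / T n - Real.log ‖L i z‖|
        + |Real.log ‖Y (X n) (Q n) (A j) z‖ / T n - Real.log ‖L j z‖|))
        = fun n => (∫ z in B, |Real.log ‖Y (X n) (Q n) (A i) z‖ / T n - Real.log ‖L i z‖|)
          + ∫ z in B, |Real.log ‖Y (X n) (Q n) (A j) z‖ / T n - Real.log ‖L j z‖| := by
        funext n
        exact integral_add (hYTi n i) (hYTi n j)
      rw [e]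
      simpa using (hLt i).add (hLt j)
    refine L1_tendsto_add hc h2 ?_ ?_ ?_ (fun n z => abs_nonneg _) ?_
    · exact Eventually.of_forall fun n => (integrableOn_const_iff).2 (Or.inr measure_closedBall_lt_top)
    · exact Eventually.of_forall fun n => (hYTi n i).add (hYTi n j)
    · exact Eventually.of_forall fun n => ((((hMi n).mono_set hBK).div_const (T n)).sub (hmaxi i j)).abs
    · filter_upwards [hTpos] with n hn
      have m1 := ae_restrict_of_ae_restrict_of_subset hBK (Y_ne_zero_ae (hL n) (hord n) (A i))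
      have m2 := ae_restrict_of_ae_restrict_of_subset hBK (Y_ne_zero_ae (hL n) (hord n) (A j))
      filter_upwards [m1, m2] with z hz1 hz2
      have h3 := hC₁ (X n) (Q n) z hz1 hz2
      set m := Mx (X n) (Q n) z
      set p := Real.log ‖Y (X n) (Q n) (A i) z‖
      set q := Real.log ‖Y (X n) (Q n) (A j) z‖
      set s := Real.log ‖L i z‖
      set t := Real.log ‖L j z‖
      have e : m / T n - max s t = (m - max p q) / T n + (max (p / T n) (q / T n) - max s t) := by
        rw [max_div_div_right hn.le]; ring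
      rw [e]
      refine (abs_add_le _ _).trans (add_le_add ?_ (abs_max_sub_max_le_max _ _ _ _ |>.trans ?_))
      · rw [abs_div, abs_of_pos hn]
        exact div_le_div_of_nonneg_right h3 hn.le
      · exact max_le (le_add_of_nonneg_right (abs_nonneg _)) (le_add_of_nonneg_left (abs_nonneg _))
  -- equality of the maxima
  have hsubB : ball z₀ (R / 2) ⊆ B := ball_subset_closedBall
  have heq : ∀ i j k l : Fin 3, i ≠ j → k ≠ l → ∀ z ∈ ball z₀ (R / 2),
      max (Real.log ‖L i z‖) (Real.log ‖L j z‖) = max (Real.log ‖L k z‖) (Real.log ‖L l z‖) := by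
    intro i j k l hij hkl
    have h1 : Tendsto (fun _ : ℕ => ∫ z in B, |max (Real.log ‖L i z‖) (Real.log ‖L j z‖)
        - max (Real.log ‖L k z‖) (Real.log ‖L l z‖)|) 𝒰 (𝓝 0) := by
      refine L1_tendsto_add (hpair i j hij) (hpair k l hkl) ?_ ?_ ?_ (fun n z => abs_nonneg _) ?_
      · exact Eventually.of_forall fun n => ((((hMi n).mono_set hBK).div_const (T n)).sub (hmaxi i j)).abs
      · exact Eventually.of_forall fun n => ((((hMi n).mono_set hBK).div_const (T n)).sub (hmaxi k l)).abs
      · exact Eventually.of_forall fun n => ((hmaxi i j).sub (hmaxi k l)).abs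
      · refine Eventually.of_forall fun n => Eventually.of_forall fun z => ?_
        set m := Mx (X n) (Q n) z / T n
        set p := max (Real.log ‖L i z‖) (Real.log ‖L j z‖)
        set q := max (Real.log ‖L k z‖) (Real.log ‖L l z‖)
        have e : p - q = -(m - p) + (m - q) := by ring
        rw [e]
        refine (abs_add_le _ _).trans (le_of_eq ?_)
        rw [abs_neg]
    have h2 : ∫ z in B, |max (Real.log ‖L i z‖) (Real.log ‖L j z‖)
        - max (Real.log ‖L k z‖) (Real.log ‖L l z‖)| = 0 := tendsto_nhds_unique tendsto_const_nhds h1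
    have h22 : IntegrableOn (fun z => |max (Real.log ‖L i z‖) (Real.log ‖L j z‖)
        - max (Real.log ‖L k z‖) (Real.log ‖L l z‖)|) B := ((hmaxi i j).sub (hmaxi k l)).abs
    rw [integral_eq_zero_iff_of_nonneg (fun z => abs_nonneg _) h22] at h2
    have h3 : (fun z => max (Real.log ‖L i z‖) (Real.log ‖L j z‖)) =ᵐ[volume.restrict (ball z₀ (R / 2))]
        (fun z => max (Real.log ‖L k z‖) (Real.log ‖L l z‖)) := by
      have h4 := ae_restrict_of_ae_restrict_of_subset hsubB h2
      filter_upwards [h4] with z hz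
      have : |max (Real.log ‖L i z‖) (Real.log ‖L j z‖) - max (Real.log ‖L k z‖) (Real.log ‖L l z‖)| = 0 := hz
      exact sub_eq_zero.1 (abs_eq_zero.1 this)
    exact Measure.eqOn_open_of_ae_eq h3 isOpen_ball
      (((hLc i).mono hsubB).sup ((hLc j).mono hsubB)) (((hLc k).mono hsubB).sup ((hLc l).mono hsubB))
  have hb34 : ball z₀ (R / 2) ⊆ ball z₀ (3 / 4 * R) := ball_subset_ball (by linarith)
  have h38 : closedBall z₀ (3 / 8 * R) ⊆ ball z₀ (R / 2) := closedBall_subset_ball (by linarith)
  have h38B : closedBall z₀ (3 / 8 * R) ⊆ B := h38.trans hsubB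
  have hlog2 : ∀ z, Real.log ‖L 2 z‖ = 0 := by
    intro z
    rw [hL2 2 rfl z, norm_one, Real.log_one]
  -- passage to the smaller ball
  have hfinal : ∀ i j k : Fin 3, i ≠ j → (∀ z ∈ ball z₀ (R / 2),
      max (Real.log ‖L i z‖) (Real.log ‖L j z‖) = Real.log ‖L k z‖) →
      ∃ (X Q : ℕ → ℂ → ℂ) (L : ℂ → ℂ), (∀ n, IsLift (F n) (X n) (Q n) (closedBall z₀ R)) ∧
      AnalyticOnNhd ℂ L (ball z₀ (R / 2)) ∧ (∀ z ∈ ball z₀ (R / 2), L z ≠ 0) ∧
      Tendsto (fun n => ∫ z in closedBall z₀ (3 / 8 * R),
        |Mx (X n) (Q n) z / T n - Real.log ‖L z‖|) 𝒰 (𝓝 0) := by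
    intro i j k hij hk
    refine ⟨X, Q, L k, hL, fun z hz => hLa k z (hb34 hz), fun z hz => hL0 k z (hb34 hz), ?_⟩
    refine tendsto_of_tendsto_of_tendsto_of_le_of_le' tendsto_const_nhds (hpair i j hij)
      (Eventually.of_forall fun n => integral_nonneg fun z => abs_nonneg _)
      (Eventually.of_forall fun n => ?_)
    have e1 : ∫ z in closedBall z₀ (3 / 8 * R), |Mx (X n) (Q n) z / T n - Real.log ‖L k z‖|
        = ∫ z in closedBall z₀ (3 / 8 * R),
          |Mx (X n) (Q n) z / T n - max (Real.log ‖L i z‖) (Real.log ‖L j z‖)| := by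
      refine setIntegral_congr_fun measurableSet_closedBall fun z hz => ?_
      show |Mx (X n) (Q n) z / T n - Real.log ‖L k z‖| = |Mx (X n) (Q n) z / T n
        - max (Real.log ‖L i z‖) (Real.log ‖L j z‖)|
      rw [hk z (h38 hz)]
    rw [e1]
    exact setIntegral_mono_set ((((hMi n).mono_set hBK).div_const (T n)).sub (hmaxi i j)).abs
      (Eventually.of_forall fun z => abs_nonneg _) (LE.le.eventuallyLE h38B)
  rcases three_harmonic (half_pos hR) (fun z hz => hLa 0 z (hb34 hz)) (fun z hz => hL0 0 z (hb34 hz))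
    (fun z hz => hLa 1 z (hb34 hz)) (fun z hz => hL0 1 z (hb34 hz)) (by
      intro z hz
      have e1 := heq 0 1 0 2 (by decide) (by decide) z hz
      have e2 := heq 0 1 1 2 (by decide) (by decide) z hz
      rw [hlog2 z] at e1 e2
      set x := Real.log ‖L 0 z‖
      set y := Real.log ‖L 1 z‖
      rcases lt_trichotomy x y with h | h | h
      · rw [max_eq_right h.le] at e1 e2
        right
        by_cases hy : y = 0
        · exact Or.inr hy
        · left
          rcases le_total x 0 with h5 | h5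
          · rw [max_eq_right h5] at e1
            exact absurd e1 hy
          · rw [max_eq_left h5] at e1
            exact absurd e1 h.ne'
      · exact Or.inl h
      · rw [max_eq_left h.le] at e1 e2
        right
        by_cases hx : x = 0
        · exact Or.inl hx
        · right
          rcases le_total y 0 with h5 | h5
          · rw [max_eq_right h5] at e2
            exact absurd e2 hx
          · rw [max_eq_left h5] at e2
            exact absurd e2 h.ne') with h | h | h
  · exact hfinal 0 1 0 (by decide) (fun z hz => by rw [h z hz, max_self])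
  · exact hfinal 0 2 0 (by decide) (fun z hz => by rw [h z hz, hlog2 z, max_self])
  · exact hfinal 1 2 1 (by decide) (fun z hz => by rw [h z hz, hlog2 z, max_self])

end BD46
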