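import Pool.Agent.BD46.Loc2

/-!
The local lemma.
-/

set_option autoImplicit false

open MeasureTheory Filter Topology Set Metric

namespace BD46

open DW24 (near cst vv)

theorem local_lemma {z₀ : ℂ} {R : ℝ} (hR : 0 < R) (𝒰 : Ultrafilter ℕ) (F : ℕ → ℂ → ℂ)
    (hF : ∀ n, Meromorphic (F n)) (hne : ∀ n, ∀ c : ℂ, ∀ᶠ z in codiscrete ℂ, F n z ≠ c)
    (T : ℕ → ℝ) (hT : Tendsto T 𝒰 atTop) (A : Fin 3 → WithTop ℂ) (hA : Function.Injective A)
    (hB : ∀ j, ∃ C, ∀ᶠ n in (𝒰 : Filter ℕ), ∫ z in closedBall z₀ R, near (F n) (A j) z ≤ C * T n)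
    (hN : ∀ j, Tendsto (fun n => cnt (F n) (A j) (closedBall z₀ R) / ENNReal.ofReal (T n)) 𝒰 (𝓝 0)) :
    (∀ c, ¬ Zero 𝒰 F T c (closedBall z₀ (R / 8)) →
      ∀ z ∈ ball z₀ (R / 8), ∀ ρ : ℝ, 0 < ρ → ¬ Zero 𝒰 F T c (closedBall z ρ)) ∧
    (∀ c c' : WithTop ℂ, c ≠ c' →
      Zero 𝒰 F T c (closedBall z₀ (R / 8)) ∨ Zero 𝒰 F T c' (closedBall z₀ (R / 8))) := by
  obtain ⟨X, Q, L, hL, hLa, hL0, hδ⟩ := exists_limit hR 𝒰 F hF hne T hT A hA hB hN
  set K := closedBall z₀ R with hK
  set B1 := closedBall z₀ (R / 8) with hB1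
  set B3 := closedBall z₀ (3 / 8 * R) with hB3
  have hB13 : B1 ⊆ B3 := closedBall_subset_closedBall (by linarith)
  have hB3K : B3 ⊆ K := closedBall_subset_closedBall (by linarith)
  have hB1K : B1 ⊆ K := hB13.trans hB3K
  have hB3b : B3 ⊆ ball z₀ (R / 2) := closedBall_subset_ball (by linarith)
  have hTpos : ∀ᶠ n in (𝒰 : Filter ℕ), 0 < T n := hT.eventually_gt_atTop 0
  have hTinv : Tendsto (fun n => 1 / T n) 𝒰 (𝓝 0) := by
    have := hT.inv_tendsto_atTop
    simp only [one_div]
    exact this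
  have hord : ∀ n, ∀ u ∈ K, ∀ c, meromorphicOrderAt (Y (X n) (Q n) c) u ≠ ⊤ := fun n =>
    lift_order (hL n) (hne n)
  have hYi : ∀ n c, IntegrableOn (fun w => Real.log ‖Y (X n) (Q n) c w‖) K := fun n c =>
    log_Y_integrableOn (hL n) c
  have hMi : ∀ n, IntegrableOn (Mx (X n) (Q n)) K := fun n => Mx_integrableOn (hL n) (hne n)
  have hNi : ∀ n c z r, IntegrableOn (near (F n) c) (closedBall z r) := fun n c z r =>
    near_integrableOn (fun z _ => hF n z) c
  have hLc : ContinuousOn (fun z => Real.log ‖L z‖) B3 :=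
    (log_norm_continuousOn hLa hL0).mono hB3b
  have hLi : IntegrableOn (fun z => Real.log ‖L z‖) B3 := hLc.integrableOn_compact (isCompact_closedBall _ _)
  have hdi : ∀ n, IntegrableOn (fun z => Mx (X n) (Q n) z / T n - Real.log ‖L z‖) B3 := fun n =>
    (((hMi n).mono_set hB3K).div_const (T n)).sub hLi
  set δ : ℕ → ℝ := fun n => ∫ z in B3, |Mx (X n) (Q n) z / T n - Real.log ‖L z‖| with hδd
  -- integrals over subsets
  have hsub : ∀ n (D : Set ℂ), MeasurableSet D → D ⊆ B3 →
      |∫ z in D, (Mx (X n) (Q n) z / T n - Real.log ‖L z‖)| ≤ δ n := by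
    intro n D hD hDB
    refine (abs_integral_le_integral_abs).trans ?_
    exact setIntegral_mono_set (hdi n).abs (Eventually.of_forall fun z => abs_nonneg _)
      (LE.le.eventuallyLE hDB)
  have hcI : ∀ (a z : ℂ) (r : ℝ) (x : ℝ), IntegrableOn (fun _ : ℂ => x) (closedBall z r) := fun a z r x =>
    (integrableOn_const_iff).2 (Or.inr measure_closedBall_lt_top)
  -- the key claim
  have key : ∀ c, ¬ Zero 𝒰 F T c B1 → ∃ κ : ℝ, 0 < κ ∧ ∀ᶠ n in (𝒰 : Filter ℕ), ∀ z ∈ B1,
      Y (X n) (Q n) c z ≠ 0 → Real.log ‖Y (X n) (Q n) c z‖ / T n ≤ Real.log ‖L z‖ - κ := by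
    intro c hc
    have h1 : ∃ ε : ℝ, 0 < ε ∧ ∀ᶠ n in (𝒰 : Filter ℕ), ε ≤ (∫ z in B1, near (F n) c z) / T n := by
      unfold Zero at hc
      rw [Metric.tendsto_nhds] at hc
      push Not at hc
      obtain ⟨ε, hε, h2⟩ := hc
      refine ⟨ε, hε, ?_⟩
      filter_upwards [h2, hTpos] with n hn hn2
      rw [Real.dist_eq, sub_zero, abs_of_nonneg (div_nonneg (integral_nonneg fun z =>
        DW24.near_nonneg _ _ _) hn2.le)] at hn
      exact hn
    obtain ⟨ε, hε, h1⟩ := h1
    set a := Real.pi * (R / 4) ^ 2 with ha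
    have ha0 : 0 < a := by positivity
    refine ⟨ε / 2 / a, by positivity, ?_⟩
    have h2 : Tendsto (fun n => δ n + cst c * a * (1 / T n)) 𝒰 (𝓝 0) := by
      simpa using hδ.add (hTinv.const_mul (cst c * a))
    filter_upwards [h1, hTpos, h2.eventually_lt_const (half_pos hε)] with n hn1 hn2 hn3 z hz hYz
    set D := closedBall z (R / 4) with hD
    have hdz : dist z z₀ ≤ R / 8 := hz
    have hD3 : D ⊆ B3 := closedBall_subset_closedBall' (by linarith)
    have h1D : B1 ⊆ D := closedBall_subset_closedBall' (by rw [dist_comm]; linarith)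
    have hDK : D ⊆ K := hD3.trans hB3K
    have e1 := area_submean (z := z) (r := R / 4) (by linarith)
      ((Y_analytic (hL n) c).mono hDK) hYz
    have e2 : ∫ w in D, Real.log ‖Y (X n) (Q n) c w‖
        ≤ ∫ w in D, (Mx (X n) (Q n) w - near (F n) c w + cst c) := by
      refine integral_mono_ae ((hYi n c).mono_set hDK)
        ((((hMi n).mono_set hDK).sub (hNi n c _ _)).add (hcI 0 _ _ _)) ?_
      have m1 := ae_restrict_of_ae_restrict_of_subset hDK (near_lift (hL n) (hord n) c)
      filter_upwards [m1] with w hw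
      have := (abs_le.1 hw).2
      linarith
    have e3 : ∫ w in D, (Mx (X n) (Q n) w - near (F n) c w + cst c)
        = (∫ w in D, Mx (X n) (Q n) w) - (∫ w in D, near (F n) c w) + a * cst c := by
      have i1 : IntegrableOn (fun w => Mx (X n) (Q n) w - near (F n) c w) D :=
        ((hMi n).mono_set hDK).sub (hNi n c _ _)
      rw [integral_add i1 (hcI 0 _ _ _), integral_sub ((hMi n).mono_set hDK) (hNi n c _ _),
        setIntegral_const, smul_eq_mul, vol_closedBall z (by linarith)]
    have e4 : ∫ w in B1, near (F n) c w ≤ ∫ w in D, near (F n) c w :=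
      setIntegral_mono_set (hNi n c _ _) (Eventually.of_forall fun z => DW24.near_nonneg _ _ _)
        (LE.le.eventuallyLE h1D)
    have e5 : ∫ w in D, Mx (X n) (Q n) w ≤ T n * (a * Real.log ‖L z‖ + δ n) := by
      have f1 := (abs_le.1 (hsub n D measurableSet_closedBall hD3)).2
      have f2 : ∫ w in D, (Mx (X n) (Q n) w / T n - Real.log ‖L w‖)
          = (∫ w in D, Mx (X n) (Q n) w) / T n - ∫ w in D, Real.log ‖L w‖ := by
        rw [integral_sub (((hMi n).mono_set hDK).div_const _) (hLi.mono_set hD3), integral_div]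
      have f3 := area_mean (z := z) (r := R / 4) (by linarith) (hLa.mono (hD3.trans hB3b))
        (fun w hw => hL0 w (hB3b (hD3 hw)))
      rw [← ha] at f3
      rw [f2, f3] at f1
      have f4 : (∫ w in D, Mx (X n) (Q n) w) / T n ≤ a * Real.log ‖L z‖ + δ n := by linarith
      rw [div_le_iff₀ hn2] at f4
      linarith
    have e6 : ε * T n ≤ ∫ w in B1, near (F n) c w := by
      rwa [le_div_iff₀ hn2] at hn1
    have e7 : a * Real.log ‖Y (X n) (Q n) c z‖ ≤ T n * (a * Real.log ‖L z‖ + δ n) - ε * T n + a * cst c := by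
      rw [e3] at e2
      rw [← ha] at e1
      linarith
    have e8 : a * cst c = T n * (cst c * a * (1 / T n)) := by
      field_simp
    have e9 : a * Real.log ‖Y (X n) (Q n) c z‖ ≤ T n * (a * Real.log ‖L z‖ - ε / 2) := by
      rw [e8] at e7
      refine e7.trans ?_
      have : T n * (δ n + cst c * a * (1 / T n)) ≤ T n * (ε / 2) := mul_le_mul_of_nonneg_left hn3.le hn2.le
      linarith
    rw [div_le_iff₀ hn2]
    have e10 : Real.log ‖Y (X n) (Q n) c z‖ ≤ T n * (a * Real.log ‖L z‖ - ε / 2) / a := by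
      rw [le_div_iff₀ ha0]; linarith
    refine e10.trans (le_of_eq ?_)
    field_simp
  constructor
  · intro c hc z hz ρ hρ hzero
    obtain ⟨κ, hκ, hk⟩ := key c hc
    have hdz : dist z z₀ < R / 8 := hz
    set ρ' := min ρ (R / 8 - dist z z₀) with hρ'
    have hρ'0 : 0 < ρ' := lt_min hρ (by linarith)
    set D := closedBall z ρ' with hD
    have hDB : D ⊆ B1 := closedBall_subset_closedBall' (by
      have := min_le_right ρ (R / 8 - dist z z₀)
      linarith)
    have hDρ : D ⊆ closedBall z ρ := closedBall_subset_closedBall (min_le_left _ _)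
    have hDK := hDB.trans hB1K
    have h1 : Tendsto (fun n => (∫ w in D, near (F n) c w) / T n) 𝒰 (𝓝 0) := by
      refine tendsto_of_tendsto_of_tendsto_of_le_of_le' tendsto_const_nhds hzero ?_ ?_
      · filter_upwards [hTpos] with n hn
        exact div_nonneg (integral_nonneg fun z => DW24.near_nonneg _ _ _) hn.le
      · filter_upwards [hTpos] with n hn
        exact div_le_div_of_nonneg_right (setIntegral_mono_set (hNi n c _ _)
          (Eventually.of_forall fun z => DW24.near_nonneg _ _ _) (LE.le.eventuallyLE hDρ)) hn.le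
    set V := volume.real D with hV
    have hV0 : 0 < V := vol_closedBall_pos z hρ'0
    have h2 : ∀ᶠ n in (𝒰 : Filter ℕ), κ * V ≤ (∫ w in D, near (F n) c w) / T n + δ n + cst c * V * (1 / T n) := by
      filter_upwards [hk, hTpos] with n hn hn2
      have f1 := (abs_le.1 (hsub n D measurableSet_closedBall (hDB.trans hB13))).1
      have f2 : ∫ w in D, (Mx (X n) (Q n) w / T n - Real.log ‖L w‖) ≤
          ∫ w in D, (near (F n) c w / T n + (cst c * (1 / T n) - κ)) := by
        refine integral_mono_ae ((hdi n).mono_set (hDB.trans hB13))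
          (((hNi n c _ _).div_const _).add (hcI 0 _ _ _)) ?_
        have m1 := ae_restrict_of_ae_restrict_of_subset hDK (near_lift (hL n) (hord n) c)
        have m2 := ae_restrict_of_ae_restrict_of_subset hDK (Y_ne_zero_ae (hL n) (hord n) c)
        filter_upwards [m1, m2, ae_restrict_mem measurableSet_closedBall] with w hw1 hw2 hw3
        have g1 := hn w (hDB hw3) hw2
        have g2 := (abs_le.1 hw1).1
        have g3 : Mx (X n) (Q n) w / T n ≤ near (F n) c w / T n + cst c * (1 / T n)
            + Real.log ‖Y (X n) (Q n) c w‖ / T n := by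
          rw [mul_one_div, ← add_div, ← add_div]
          exact div_le_div_of_nonneg_right (by linarith) hn2.le
        show Mx (X n) (Q n) w / T n - Real.log ‖L w‖ ≤ near (F n) c w / T n + (cst c * (1 / T n) - κ)
        linarith
      have f3 : ∫ w in D, (near (F n) c w / T n + (cst c * (1 / T n) - κ))
          = (∫ w in D, near (F n) c w) / T n + V * (cst c * (1 / T n) - κ) := by
        rw [integral_add ((hNi n c _ _).div_const _) (hcI 0 _ _ _), integral_div, setIntegral_const,
          smul_eq_mul]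
      rw [f3] at f2
      nlinarith
    have h3 : Tendsto (fun n => (∫ w in D, near (F n) c w) / T n + δ n + cst c * V * (1 / T n)) 𝒰 (𝓝 0) := by
      simpa using (h1.add hδ).add (hTinv.const_mul (cst c * V))
    have h4 : κ * V ≤ 0 := ge_of_tendsto h3 h2
    have h5 : 0 < κ * V := mul_pos hκ hV0
    linarith
  · intro c c' hcc
    by_contra hcon
    push Not at hcon
    obtain ⟨κ, hκ, hk⟩ := key c hcon.1
    obtain ⟨κ', hκ', hk'⟩ := key c' hcon.2
    obtain ⟨C₁, hC₁0, hC₁⟩ := Mx_cmp hcc
    set m := min κ κ' with hm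
    have hm0 : 0 < m := lt_min hκ hκ'
    set V := volume.real B1 with hV
    have hV0 : 0 < V := vol_closedBall_pos z₀ (by linarith)
    have h2 : ∀ᶠ n in (𝒰 : Filter ℕ), m * V ≤ δ n + C₁ * V * (1 / T n) := by
      filter_upwards [hk, hk', hTpos] with n hn hn' hn2
      have f1 := (abs_le.1 (hsub n B1 measurableSet_closedBall hB13)).1
      have f2 : ∫ w in B1, (Mx (X n) (Q n) w / T n - Real.log ‖L w‖) ≤
          ∫ _w in B1, (C₁ * (1 / T n) - m) := by
        refine integral_mono_ae ((hdi n).mono_set hB13) (hcI 0 _ _ _) ?_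
        have m1 := ae_restrict_of_ae_restrict_of_subset hB1K (Y_ne_zero_ae (hL n) (hord n) c)
        have m2 := ae_restrict_of_ae_restrict_of_subset hB1K (Y_ne_zero_ae (hL n) (hord n) c')
        filter_upwards [m1, m2, ae_restrict_mem measurableSet_closedBall] with w hw1 hw2 hw3
        have g1 := hn w hw3 hw1
        have g2 := hn' w hw3 hw2
        have g3 := (abs_le.1 (hC₁ (X n) (Q n) w hw1 hw2)).2
        have g4 : Mx (X n) (Q n) w / T n ≤ C₁ * (1 / T n)
            + max (Real.log ‖Y (X n) (Q n) c w‖) (Real.log ‖Y (X n) (Q n) c' w‖) / T n := by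
          rw [mul_one_div, ← add_div]
          exact div_le_div_of_nonneg_right (by linarith) hn2.le
        have g5 : max (Real.log ‖Y (X n) (Q n) c w‖) (Real.log ‖Y (X n) (Q n) c' w‖) / T n
            ≤ Real.log ‖L w‖ - m := by
          rw [← max_div_div_right hn2.le]
          refine max_le (g1.trans ?_) (g2.trans ?_)
          · have := min_le_left κ κ'; linarith
          · have := min_le_right κ κ'; linarith
        show Mx (X n) (Q n) w / T n - Real.log ‖L w‖ ≤ C₁ * (1 / T n) - m
        linarith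
      rw [setIntegral_const, smul_eq_mul] at f2
      nlinarith
    have h3 : Tendsto (fun n => δ n + C₁ * V * (1 / T n)) 𝒰 (𝓝 0) := by
      simpa using hδ.add (hTinv.const_mul (C₁ * V))
    have h4 : m * V ≤ 0 := ge_of_tendsto h3 h2
    have h5 : 0 < m * V := mul_pos hm0 hV0
    linarith

end BD46
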