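import Pool.Agent.BD46.Conn

/-!
From the dichotomy to convergence in measure.
-/

set_option autoImplicit false

open MeasureTheory Filter Topology Set Metric ValueDistribution

namespace BD46

open DW24 (near cst vv)

/-- Fubini and a shear -/
lemma shear_lintegral {g : ℂ → ENNReal} (hg : Measurable g) (s h p q : ℝ) :
    ∫⁻ φ in Icc p q, ∫⁻ y in Ioc (-h) h, g ⟨y, φ + s * y⟩
      = ∫⁻ z in {z : ℂ | z.re ∈ Ioc (-h) h ∧ z.im - s * z.re ∈ Icc p q}, g z := by
  set S : Set ℂ := {z : ℂ | z.re ∈ Ioc (-h) h ∧ z.im - s * z.re ∈ Icc p q} with hS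
  have hSm : MeasurableSet S := by
    refine MeasurableSet.inter (measurableSet_Ioc.preimage Complex.measurable_re) ?_
    exact measurableSet_Icc.preimage (Complex.measurable_im.sub (Complex.measurable_re.const_mul s))
  have hmk : Measurable (fun P : ℝ × ℝ => (⟨P.1, P.2⟩ : ℂ)) := Complex.measurableEquivRealProd.symm.measurable
  have hG : Measurable (S.indicator g) := hg.indicator hSm
  have e1 : ∫⁻ z in S, g z = ∫⁻ y, ∫⁻ θ, S.indicator g ⟨y, θ⟩ := by
    have h5 : ∫⁻ a : ℝ × ℝ, S.indicator g (Complex.measurableEquivRealProd.symm a)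
        = ∫⁻ y, ∫⁻ θ, S.indicator g (Complex.measurableEquivRealProd.symm (y, θ)) := by
      rw [Measure.volume_eq_prod]
      exact lintegral_prod _ (hG.comp Complex.measurableEquivRealProd.symm.measurable).aemeasurable
    rw [← lintegral_indicator hSm, ← (Complex.volume_preserving_equiv_real_prod.symm).lintegral_comp hG, h5]
    rfl
  have e2 : ∀ y : ℝ, ∫⁻ θ, S.indicator g ⟨y, θ⟩ = ∫⁻ φ, S.indicator g ⟨y, φ + s * y⟩ := fun y =>
    (lintegral_add_right_eq_self (fun θ => S.indicator g ⟨y, θ⟩) (s * y)).symm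
  have hm2 : Measurable (fun P : ℝ × ℝ => S.indicator g ⟨P.1, P.2 + s * P.1⟩) := by
    have h6 : Measurable (fun P : ℝ × ℝ => (P.1, P.2 + s * P.1)) := by fun_prop
    exact hG.comp (hmk.comp h6)
  have e3 : ∫⁻ y, ∫⁻ φ, S.indicator g ⟨y, φ + s * y⟩ = ∫⁻ φ, ∫⁻ y, S.indicator g ⟨y, φ + s * y⟩ :=
    lintegral_lintegral_swap (f := fun y φ : ℝ => S.indicator g ⟨y, φ + s * y⟩) hm2.aemeasurable
  rw [e1]
  simp only [e2]
  rw [e3, ← lintegral_indicator measurableSet_Icc]
  refine lintegral_congr fun φ => ?_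
  by_cases hφ : φ ∈ Icc p q
  · rw [Set.indicator_of_mem hφ, ← lintegral_indicator measurableSet_Ioc]
    refine lintegral_congr fun y => ?_
    by_cases hy : y ∈ Ioc (-h) h
    · rw [Set.indicator_of_mem hy, Set.indicator_of_mem]
      refine ⟨hy, ?_⟩
      simp only [add_sub_cancel_right]
      exact hφ
    · rw [Set.indicator_of_notMem hy, Set.indicator_of_notMem]
      exact fun h1 => hy h1.1
  · rw [Set.indicator_of_notMem hφ]
    have h7 : ∀ y : ℝ, S.indicator g ⟨y, φ + s * y⟩ = 0 := by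
      intro y
      rw [Set.indicator_of_notMem]
      intro h1
      apply hφ
      have := h1.2
      simp only [add_sub_cancel_right] at this
      exact this
    simp only [h7, lintegral_zero]

lemma near_measurable {F : ℂ → ℂ} (hF : Meromorphic F) (c : WithTop ℂ) : Measurable (near F c) := by
  have h2 : Measurable F := hF.measurable
  cases c with
  | top => exact Real.continuous_posLog.measurable.comp h2.norm
  | coe c => exact Real.continuous_posLog.measurable.comp (h2.sub_const c).norm.inv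

/-- the average is a line integral in the chart -/
lemma AvP_chart {f : ℂ → ℂ} {r : ℝ} (hr : 0 < r) (c : WithTop ℂ) (α s : ℝ) (h : ℕ) (φ : ℝ) :
    DW24.AvP f c s h r (φ + α) =
      (∫ y in (-(h : ℝ))..h, near (lc f r α) c ⟨y, φ + s * y⟩) /
        ∫ y in (-(h : ℝ))..h, characteristic f ⊤ (r * Real.exp y) := by
  unfold DW24.AvP
  congr 1
  refine intervalIntegral.integral_congr fun y _ => ?_
  show near f c (circleMap 0 (r * Real.exp y) (φ + α + s * y))
    = near (lc f r α) c ⟨y, φ + s * y⟩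
  rw [near_lc f hr, DW24.pt_eq, Real.exp_add, Real.exp_log hr]
  congr 2
  ring

/-- Markov inequality -/
lemma markov {f : ℂ → ℂ} (hf : Meromorphic f) {r : ℝ} (hr : 0 < r) (c : WithTop ℂ) (α s : ℝ) (h : ℕ)
    (p q : ℝ) {ε D : ℝ} (hε : 0 < ε) (hD : 0 < D)
    (hDT : D ≤ ∫ y in (-(h : ℝ))..h, characteristic f ⊤ (r * Real.exp y)) :
    volume {φ : ℝ | φ ∈ Icc p q ∧ ε < DW24.AvP f c s h r (φ + α)} ≤
      (∫⁻ z in {z : ℂ | z.re ∈ Ioc (-(h : ℝ)) h ∧ z.im - s * z.re ∈ Icc p q},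
        ENNReal.ofReal (near (lc f r α) c z)) / ENNReal.ofReal (ε * D) := by
  set g : ℂ → ℝ := near (lc f r α) c with hg
  have hgm : Measurable g := near_measurable (lc_mer hf _ _) c
  have hgm' : Measurable (fun z => ENNReal.ofReal (g z)) := hgm.ennreal_ofReal
  have hmk : Measurable (fun P : ℝ × ℝ => (⟨P.2, P.1 + s * P.2⟩ : ℂ)) := by
    have : Measurable (fun P : ℝ × ℝ => (⟨P.1, P.2⟩ : ℂ)) := Complex.measurableEquivRealProd.symm.measurable
    have h6 : Measurable (fun P : ℝ × ℝ => (P.2, P.1 + s * P.2)) := by fun_prop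
    exact this.comp h6
  rw [← shear_lintegral hgm']
  set N : ℝ → ENNReal := fun φ => ∫⁻ y in Ioc (-(h : ℝ)) h, ENNReal.ofReal (g ⟨y, φ + s * y⟩) with hN
  have hNm : Measurable N := by
    have h1 : Measurable (fun P : ℝ × ℝ => ENNReal.ofReal (g ⟨P.2, P.1 + s * P.2⟩)) := hgm'.comp hmk
    exact h1.lintegral_prod_right'
  have hh : (-(h : ℝ)) ≤ h := by
    have : (0 : ℝ) ≤ (h : ℝ) := Nat.cast_nonneg _
    linarith
  have hpos : 0 < ε * D := mul_pos hε hD
  have h1 := meas_ge_le_lintegral_div (μ := volume.restrict (Icc p q)) hNm.aemeasurable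
    (ENNReal.ofReal_pos.2 hpos).ne' ENNReal.ofReal_ne_top
  refine le_trans ?_ h1
  rw [Measure.restrict_apply' measurableSet_Icc]
  refine measure_mono ?_
  rintro φ ⟨h2, h3⟩
  refine ⟨?_, h2⟩
  show ENNReal.ofReal (ε * D) ≤ N φ
  rw [AvP_chart hr, lt_div_iff₀ (lt_of_lt_of_le hD hDT)] at h3
  have h4 : ε * D ≤ ∫ y in (-(h : ℝ))..h, g ⟨y, φ + s * y⟩ :=
    (mul_le_mul_of_nonneg_left hDT hε.le).trans h3.le
  have h5 : ∫ y in (-(h : ℝ))..h, g ⟨y, φ + s * y⟩ = (N φ).toReal := by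
    rw [intervalIntegral.integral_of_le hh]
    refine integral_eq_lintegral_of_nonneg_ae (Eventually.of_forall fun y => DW24.near_nonneg _ _ _) ?_
    exact (hgm.comp (hmk.comp (measurable_const.prodMk measurable_id))).aestronglyMeasurable
  rw [h5] at h4
  exact (ENNReal.ofReal_le_ofReal h4).trans ENNReal.ofReal_toReal_le

/-- a compact sheared rectangle covered by discs on which `f` is not near `c` -/
lemma cover_bound (s : ℝ) (h : ℕ) (p q : ℝ) {u : ℂ → ℝ} (hu : ∀ z, 0 < u z) :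
    ∃ t : Finset ℂ, (∀ z ∈ t, z.im - s * z.re ∈ Icc p q) ∧
      ∀ g : ℂ → ENNReal, ∫⁻ z in {z : ℂ | z.re ∈ Ioc (-(h : ℝ)) h ∧ z.im - s * z.re ∈ Icc p q}, g z
        ≤ ∑ z ∈ t, ∫⁻ w in closedBall z (u z), g w := by
  set S : Set ℂ := {z : ℂ | z.re ∈ Icc (-(h : ℝ)) h ∧ z.im - s * z.re ∈ Icc p q} with hS
  have hSc : IsCompact S := by
    refine Metric.isCompact_of_isClosed_isBounded ?_ ?_
    · refine IsClosed.inter (isClosed_Icc.preimage Complex.continuous_re) ?_
      exact isClosed_Icc.preimage (Complex.continuous_im.sub (continuous_const.mul Complex.continuous_re))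
    · rw [isBounded_iff_forall_norm_le]
      refine ⟨h + (|p| + |q| + |s| * h), fun z hz => ?_⟩
      obtain ⟨⟨h1, h2⟩, ⟨h3, h4⟩⟩ := hz
      have h5 : |z.re| ≤ h := abs_le.2 ⟨h1, h2⟩
      have h6 : |z.im| ≤ |p| + |q| + |s| * h := by
        have e1 : |s * z.re| ≤ |s| * h := by
          rw [abs_mul]; exact mul_le_mul_of_nonneg_left h5 (abs_nonneg s)
        rw [abs_le] at e1 ⊢
        have a1 := neg_abs_le p
        have a2 := le_abs_self q
        have a3 := abs_nonneg p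
        have a4 := abs_nonneg q
        constructor <;> linarith [e1.1, e1.2]
      exact (Complex.norm_le_abs_re_add_abs_im z).trans (add_le_add h5 h6)
  obtain ⟨t, ht, htS⟩ := hSc.elim_nhds_subcover (fun z => closedBall z (u z))
    (fun z _ => closedBall_mem_nhds z (hu z))
  refine ⟨t, fun z hz => (ht z hz).2, fun g => ?_⟩
  have hsub : {z : ℂ | z.re ∈ Ioc (-(h : ℝ)) h ∧ z.im - s * z.re ∈ Icc p q}
      ⊆ ⋃ z : t, closedBall (z : ℂ) (u z) := by
    rintro z ⟨h1, h2⟩
    have h3 := htS (show z ∈ S from ⟨Ioc_subset_Icc_self h1, h2⟩)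
    simp only [mem_iUnion] at h3 ⊢
    obtain ⟨i, hi, hi2⟩ := h3
    exact ⟨⟨i, hi⟩, hi2⟩
  refine (lintegral_mono_set hsub).trans ((lintegral_iUnion_le _ _).trans (le_of_eq ?_))
  rw [tsum_fintype, Finset.sum_coe_sort t (fun z => ∫⁻ w in closedBall z (u z), g w)]

theorem meas_zero {f : ℂ → ℂ} (hf : Meromorphic f) {ρ : ℝ} {r : ℕ → ℝ}
    (hr : DW24.Peaks (characteristic f ⊤) ρ r) (α σ : ℕ → ℝ) (𝒰 : Ultrafilter ℕ)
    (h𝒰 : (𝒰 : Filter ℕ) ≤ atTop) {s : ℝ} (hs : Tendsto σ 𝒰 (𝓝 s))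
    {p q p' q' : ℝ} (hp : p < p') (hq : q' < q) {c : WithTop ℂ}
    (hZ : ∀ z : ℂ, z.im - s * z.re ∈ Icc p q → ∃ u : ℝ, 0 < u ∧
      Zero 𝒰 (Fn f r α) (fun n => characteristic f ⊤ (r n)) c (closedBall z u))
    {h : ℕ} (hh : 1 ≤ h) {ε : ℝ} (hε : 0 < ε) :
    Tendsto (fun n => volume {φ : ℝ | φ ∈ Icc p' q' ∧
      ε < DW24.AvP f c (σ n) h (r n) (φ + α n)}) 𝒰 (𝓝 0) := by
  have hmono := DW24.mono_T hf
  have hh' : (1 : ℝ) ≤ h := by exact_mod_cast hh
  have hu : ∀ z : ℂ, ∃ u : ℝ, 0 < u ∧ (z.im - s * z.re ∈ Icc p q →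
      Zero 𝒰 (Fn f r α) (fun n => characteristic f ⊤ (r n)) c (closedBall z u)) := by
    intro z
    by_cases hz : z.im - s * z.re ∈ Icc p q
    · obtain ⟨u, hu, h1⟩ := hZ z hz
      exact ⟨u, hu, fun _ => h1⟩
    · exact ⟨1, one_pos, fun h => absurd h hz⟩
  choose u hu0 hu1 using hu
  obtain ⟨t, ht, hcov⟩ := cover_bound s h p q hu0
  have hrpos : ∀ᶠ n in (𝒰 : Filter ℕ), 0 < r n := h𝒰 (hr.1.eventually_gt_atTop 0)
  -- the denominators
  have hden : ∀ᶠ n in (𝒰 : Filter ℕ), characteristic f ⊤ (r n)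
      ≤ ∫ y in (-(h : ℝ))..h, characteristic f ⊤ (r n * Real.exp y) := by
    filter_upwards [hrpos, h𝒰 (hr.1.eventually_ge_atTop (Real.exp h))] with n hn hn2
    have hT0 : ∀ y : ℝ, -(h : ℝ) ≤ y → 0 ≤ characteristic f ⊤ (r n * Real.exp y) := by
      intro y hy
      refine characteristic_nonneg ?_
      have e1 : Real.exp (-(h : ℝ)) ≤ Real.exp y := Real.exp_le_exp.2 hy
      calc (1 : ℝ) = Real.exp h * Real.exp (-(h : ℝ)) := by rw [← Real.exp_add]; simp
        _ ≤ r n * Real.exp y := mul_le_mul hn2 e1 (Real.exp_pos _).le hn.le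
    have hII : ∀ a b : ℝ, IntervalIntegrable (fun y => characteristic f ⊤ (r n * Real.exp y)) volume a b := by
      intro a b
      refine Monotone.intervalIntegrable fun y z hyz => ?_
      exact characteristic_monotoneOn hf (mul_pos hn (Real.exp_pos y))
        (mul_pos hn (Real.exp_pos z)) (mul_le_mul_of_nonneg_left (Real.exp_le_exp.2 hyz) hn.le)
    rw [← intervalIntegral.integral_add_adjacent_intervals (hII _ 0) (hII 0 _)]
    have e1 : 0 ≤ ∫ y in (-(h : ℝ))..0, characteristic f ⊤ (r n * Real.exp y) :=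
      intervalIntegral.integral_nonneg (by linarith) fun y hy => hT0 y hy.1
    have e2 : ∫ _y in (0 : ℝ)..h, characteristic f ⊤ (r n)
        ≤ ∫ y in (0 : ℝ)..h, characteristic f ⊤ (r n * Real.exp y) := by
      refine intervalIntegral.integral_mono_on (by linarith) intervalIntegrable_const (hII _ _) fun y hy => ?_
      refine characteristic_monotoneOn hf hn (mul_pos hn (Real.exp_pos y)) ?_
      exact le_mul_of_one_le_right hn.le (Real.one_le_exp hy.1)
    rw [intervalIntegral.integral_const, smul_eq_mul, sub_zero] at e2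
    have e3 : characteristic f ⊤ (r n) ≤ h * characteristic f ⊤ (r n) :=
      le_mul_of_one_le_left (hr.2.1 n).le hh'
    linarith
  have hlim : Tendsto (fun n => ∑ z ∈ t, ENNReal.ofReal
      ((∫ w in closedBall z (u z), near (Fn f r α n) c w) / characteristic f ⊤ (r n) / ε)) 𝒰 (𝓝 0) := by
    have h1 : ∀ z ∈ t, Tendsto (fun n => ENNReal.ofReal
      ((∫ w in closedBall z (u z), near (Fn f r α n) c w) / characteristic f ⊤ (r n) / ε)) 𝒰 (𝓝 0) := by
      intro z hz
      have h2 := hu1 z (ht z hz)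
      have h3 : Tendsto (fun n => (∫ w in closedBall z (u z), near (Fn f r α n) c w)
          / characteristic f ⊤ (r n) / ε) 𝒰 (𝓝 0) := by
        simpa using h2.div_const ε
      simpa using ENNReal.tendsto_ofReal h3
    simpa using tendsto_finsetSum t h1
  refine tendsto_of_tendsto_of_tendsto_of_le_of_le' tendsto_const_nhds hlim
    (Eventually.of_forall fun _ => zero_le) ?_
  have hσ : ∀ᶠ n in (𝒰 : Filter ℕ), |σ n - s| < min (p' - p) (q - q') / (h + 1) := by
    have h0 : 0 < min (p' - p) (q - q') / ((h : ℝ) + 1) :=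
      div_pos (lt_min (by linarith) (by linarith)) (by linarith)
    filter_upwards [(Metric.tendsto_nhds.1 hs) _ h0] with n hn
    rwa [Real.dist_eq] at hn
  filter_upwards [hrpos, hden, hσ] with n hn hn2 hn3
  have hTn : 0 < characteristic f ⊤ (r n) := hr.2.1 n
  refine (markov hf hn c (α n) (σ n) h p' q' hε hTn hn2).trans ?_
  have hFn : lc f (r n) (α n) = Fn f r α n := by
    unfold Fn; rw [Real.exp_log hn]
  rw [hFn]
  have hsub : {z : ℂ | z.re ∈ Ioc (-(h : ℝ)) h ∧ z.im - σ n * z.re ∈ Icc p' q'}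
      ⊆ {z : ℂ | z.re ∈ Ioc (-(h : ℝ)) h ∧ z.im - s * z.re ∈ Icc p q} := by
    rintro z ⟨h1, h2, h3⟩
    have h4 : |z.re| ≤ h := abs_le.2 ⟨h1.1.le, h1.2⟩
    have h5 : |(σ n - s) * z.re| ≤ min (p' - p) (q - q') := by
      rw [abs_mul]
      rw [lt_div_iff₀ (by linarith)] at hn3
      have h6 : |σ n - s| * |z.re| ≤ |σ n - s| * (h + 1) :=
        mul_le_mul_of_nonneg_left (by linarith) (abs_nonneg _)
      linarith
    have h7 := abs_le.1 h5
    have h8 := min_le_left (p' - p) (q - q')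
    have h9 := min_le_right (p' - p) (q - q')
    refine ⟨h1, ?_, ?_⟩
    · nlinarith [h7.1]
    · nlinarith [h7.2]
  refine (ENNReal.div_le_div_right ((lintegral_mono_set hsub).trans (hcov _)) _).trans ?_
  rw [ENNReal.div_eq_inv_mul, Finset.mul_sum]
  refine Finset.sum_le_sum fun z hz => le_of_eq ?_
  rw [← ofReal_integral_eq_lintegral_ofReal (near_integrableOn (fun z _ => Fn_mer hf r α n z) c)
    (Eventually.of_forall fun z => DW24.near_nonneg _ _ _), ← ENNReal.div_eq_inv_mul,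
    ← ENNReal.ofReal_div_of_pos (mul_pos hε hTn), mul_comm ε, ← div_div]

end BD46
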