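import Pool.Agent.BD46.Meas

/-!
Separation of a pair of values near the peaks: it is enough to have it on the set of the
directions which are not good.
-/

set_option autoImplicit false

open MeasureTheory Filter Topology Set Metric ValueDistribution

namespace BD46

open DW24 (near cst vv)

theorem sepP_of_good {f : ℂ → ℂ} (hf : Meromorphic f) {ρ : ℝ} (hρ : 0 < ρ) {r : ℕ → ℝ}
    (hr : DW24.Peaks (characteristic f ⊤) ρ r) (α σ : ℕ → ℝ) {B : ℝ} (hB : ∀ n, |σ n| ≤ B)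
    {a b : WithTop ℂ} (hab : a ≠ b)
    (hbad : ∀ h : ℕ, 1 ≤ h → ∀ ε : ℝ, 0 < ε → Tendsto (fun n => volume {φ : ℝ |
      φ ∈ Ioc 0 (2 * Real.pi) ∧ ¬ Good f r α σ φ ∧
        ε < min (DW24.AvP f a (σ n) h (r n) (φ + α n)) (DW24.AvP f b (σ n) h (r n) (φ + α n))})
        atTop (𝓝 0)) : DW24.SepP f r (fun _ n => σ n) a b := by
  intro h hh ε hε
  set m : ℕ → ℝ → ℝ := fun n φ => min (DW24.AvP f a (σ n) h (r n) φ) (DW24.AvP f b (σ n) h (r n) φ) with hm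
  show Tendsto (fun n : ℕ => volume {φ : ℝ | φ ∈ Ioc 0 (2 * Real.pi) ∧ ε < m n φ}) atTop (𝓝 0)
  have hshift : ∀ n, volume {φ : ℝ | φ ∈ Ioc 0 (2 * Real.pi) ∧ ε < m n φ}
      = volume {φ : ℝ | φ ∈ Ioc 0 (2 * Real.pi) ∧ ε < m n (φ + α n)} := by
    intro n
    have hA : MeasurableSet {φ : ℝ | ε < m n φ} :=
      measurableSet_lt measurable_const ((DW24.AvP_measurable hf a (σ n) h (r n)).min
        (DW24.AvP_measurable hf b (σ n) h (r n)))
    have h1 := DW24.measure_shift hA (fun φ => by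
      simp only [Set.mem_ofPred_eq, hm, DW24.AvP_per]) (α n)
    have e1 : {φ : ℝ | φ ∈ Ioc 0 (2 * Real.pi) ∧ ε < m n φ}
        = {φ : ℝ | ε < m n φ} ∩ Ioc 0 (2 * Real.pi) := by
      ext φ; exact and_comm
    have e2 : {φ : ℝ | φ ∈ Ioc 0 (2 * Real.pi) ∧ ε < m n (φ + α n)}
        = (fun θ => θ + α n) ⁻¹' {φ : ℝ | ε < m n φ} ∩ Ioc 0 (2 * Real.pi) := by
      ext φ; exact and_comm
    rw [e1, e2, h1]
  simp only [hshift]
  rw [tendsto_iff_ultrafilter]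
  intro 𝒰 h𝒰
  obtain ⟨s, -, hs⟩ := (isCompact_Icc (a := -B) (b := B)).ultrafilter_le_nhds (𝒰.map σ) (by
    rw [Ultrafilter.coe_map, le_principal_iff]
    exact Filter.mem_map.2 (Eventually.of_forall fun n => abs_le.1 (hB n)))
  have hs' : Tendsto σ 𝒰 (𝓝 s) := hs
  rw [ENNReal.tendsto_nhds_zero]
  intro η hη
  set Gs : Set ℝ := {φ | Good f r α σ φ} with hGs
  have hGo : IsOpen Gs := isOpen_good f r α σ
  set A : Set ℝ := Gs ∩ Ioc 0 (2 * Real.pi) with hA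
  have hAm : MeasurableSet A := hGo.measurableSet.inter measurableSet_Ioc
  have hAfin : volume A ≠ ⊤ := by
    refine ne_top_of_le_ne_top ?_ (measure_mono inter_subset_right)
    rw [Real.volume_Ioc]; exact ENNReal.ofReal_ne_top
  have hη3 : 0 < η / 3 := ENNReal.div_pos hη.ne' (by norm_num)
  obtain ⟨K, hKA, hK, hKm⟩ := hAm.exists_isCompact_sdiff_lt hAfin hη3.ne'
  have hgood : ∀ φ : ℝ, ∃ δ : ℝ, 0 < δ ∧
      (Good f r α σ φ → ∀ φ' ∈ Icc (φ - 2 * δ) (φ + 2 * δ), Good f r α σ φ') := by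
    intro φ
    by_cases hφ : Good f r α σ φ
    · obtain ⟨δ, hδ, h1⟩ := good_open hφ
      exact ⟨δ / 2, half_pos hδ, fun _ φ' hφ' => h1 φ' (abs_le.2
        ⟨by linarith [hφ'.1], by linarith [hφ'.2]⟩)⟩
    · exact ⟨1, one_pos, fun h => absurd h hφ⟩
  choose δ hδ0 hδ using hgood
  obtain ⟨t, ht, htK⟩ := hK.elim_nhds_subcover (fun φ => Icc (φ - δ φ) (φ + δ φ))
    (fun φ _ => Icc_mem_nhds (by linarith [hδ0 φ]) (by linarith [hδ0 φ]))
  have hi : ∀ φ ∈ t, Tendsto (fun n => volume {θ : ℝ | θ ∈ Icc (φ - δ φ) (φ + δ φ) ∧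
      ε < m n (θ + α n)}) 𝒰 (𝓝 0) := by
    intro φ hφ
    have hφG : Good f r α σ φ := (hKA (ht φ hφ)).1
    have hδφ := hδ0 φ
    rcases dichotomy hf hρ hr α σ 𝒰 h𝒰 hs' (hδ φ hφG) hab with h1 | h1
    · refine tendsto_of_tendsto_of_tendsto_of_le_of_le tendsto_const_nhds
        (meas_zero hf hr α σ 𝒰 h𝒰 hs' (p' := φ - δ φ) (q' := φ + δ φ) (by linarith) (by linarith)
          h1 hh hε) (fun _ => zero_le) (fun n => measure_mono ?_)
      rintro θ ⟨h2, h3⟩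
      exact ⟨h2, h3.trans_le (min_le_left _ _)⟩
    · refine tendsto_of_tendsto_of_tendsto_of_le_of_le tendsto_const_nhds
        (meas_zero hf hr α σ 𝒰 h𝒰 hs' (p' := φ - δ φ) (q' := φ + δ φ) (by linarith) (by linarith)
          h1 hh hε) (fun _ => zero_le) (fun n => measure_mono ?_)
      rintro θ ⟨h2, h3⟩
      exact ⟨h2, h3.trans_le (min_le_right _ _)⟩
  have hsum : Tendsto (fun n => ∑ φ ∈ t, volume {θ : ℝ | θ ∈ Icc (φ - δ φ) (φ + δ φ) ∧
      ε < m n (θ + α n)}) 𝒰 (𝓝 0) := by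
    simpa using tendsto_finsetSum t hi
  filter_upwards [hsum.eventually_lt_const hη3,
    h𝒰 ((hbad h hh ε hε).eventually_lt_const hη3)] with n hn hn2
  have hsub : {φ : ℝ | φ ∈ Ioc 0 (2 * Real.pi) ∧ ε < m n (φ + α n)}
      ⊆ {φ : ℝ | φ ∈ Ioc 0 (2 * Real.pi) ∧ ¬ Good f r α σ φ ∧ ε < m n (φ + α n)} ∪
        ((A \ K) ∪ ⋃ φ ∈ t, {θ : ℝ | θ ∈ Icc (φ - δ φ) (φ + δ φ) ∧ ε < m n (θ + α n)}) := by
    rintro φ ⟨h1, h2⟩
    by_cases h3 : Good f r α σ φ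
    · right
      by_cases h4 : φ ∈ K
      · right
        have h5 := htK h4
        simp only [mem_iUnion] at h5 ⊢
        obtain ⟨i, hi1, hi2⟩ := h5
        exact ⟨i, hi1, hi2, h2⟩
      · left
        exact ⟨⟨h3, h1⟩, h4⟩
    · left; exact ⟨h1, h3, h2⟩
  calc volume {φ : ℝ | φ ∈ Ioc 0 (2 * Real.pi) ∧ ε < m n (φ + α n)}
      ≤ volume {φ : ℝ | φ ∈ Ioc 0 (2 * Real.pi) ∧ ¬ Good f r α σ φ ∧ ε < m n (φ + α n)}
        + (volume (A \ K) + volume (⋃ φ ∈ t, {θ : ℝ | θ ∈ Icc (φ - δ φ) (φ + δ φ) ∧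
          ε < m n (θ + α n)})) :=
        (measure_mono hsub).trans ((measure_union_le _ _).trans (add_le_add le_rfl (measure_union_le _ _)))
    _ ≤ η / 3 + (η / 3 + η / 3) := by
        refine add_le_add hn2.le (add_le_add hKm.le ((measure_biUnion_finset_le _ _).trans hn.le))
    _ = η := by rw [← add_assoc, ENNReal.add_thirds]

end BD46
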